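import Mathlib

namespace MP_a3a416_nt.BB

/-- Pigeonhole for congruences modulo several primes (groups indexed by the elements of `S`). -/
theorem siegel_primes' {ι : Type} [Fintype ι] (S : Finset ℕ) (κ : ℕ)
    (hS : ∀ p ∈ S, 1 ≤ p) (hM : 2 * κ ≤ Fintype.card ι) (hι : 0 < Fintype.card ι)
    (V : S → Type) [∀ p, AddCommGroup (V p)] [∀ p, Finite (V p)]
    (hV : ∀ p : S, Nat.card (V p) ≤ (p : ℕ) ^ κ) (φ : ∀ p, (ι → ℤ) →+ V p) :
    ∃ c : ι → ℤ, c ≠ 0 ∧ (∀ i, |c i| ≤ (Nat.sqrt (∏ p ∈ S, p) : ℤ)) ∧ ∀ p : S, φ p c = 0 := by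
  classical
  set Q : ℕ := ∏ p ∈ S, p with hQ
  have hQ1 : 1 ≤ Q := Finset.one_le_prod' (fun p hp => hS p hp)
  set H : ℕ := Nat.sqrt Q with hH
  have hH1 : 1 ≤ H := by
    rw [hH, Nat.le_sqrt]
    omega
  have hHlt : Q < (H + 1) * (H + 1) := Nat.lt_succ_sqrt Q
  have hfin : ∀ p : S, Fintype (V p) := fun p => Fintype.ofFinite _
  let f : (ι → Fin (H + 1)) → (∀ p : S, V p) := fun x p => φ p (fun i => ((x i : ℕ) : ℤ))
  have hcard : Fintype.card (∀ p : S, V p) < Fintype.card (ι → Fin (H + 1)) := by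
    rw [Fintype.card_pi, Fintype.card_fun, Fintype.card_fin]
    have h1 : ∏ p : S, Fintype.card (V p) ≤ Q ^ κ := by
      rw [hQ, ← Finset.prod_pow, ← Finset.prod_coe_sort S (fun p => p ^ κ)]
      apply Finset.prod_le_prod'
      intro p _
      rw [← Nat.card_eq_fintype_card]
      exact hV p
    refine h1.trans_lt ?_
    rcases Nat.eq_zero_or_pos κ with h0 | h0
    · rw [h0, pow_zero]
      exact Nat.one_lt_pow (by omega) (by omega)
    · calc Q ^ κ < ((H + 1) * (H + 1)) ^ κ := Nat.pow_lt_pow_left hHlt (by omega)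
        _ = (H + 1) ^ (2 * κ) := by rw [← pow_two, ← pow_mul]
        _ ≤ (H + 1) ^ Fintype.card ι := Nat.pow_le_pow_right (by omega) hM
  obtain ⟨x, y, hxy, hf⟩ := Fintype.exists_ne_map_eq_of_card_lt f hcard
  refine ⟨fun i => ((x i : ℕ) : ℤ) - ((y i : ℕ) : ℤ), ?_, ?_, ?_⟩
  · intro h
    apply hxy
    funext i
    have := congrFun h i
    simp only [Pi.zero_apply] at this
    apply Fin.ext
    omega
  · intro i
    have h1 := (x i).2
    have h2 := (y i).2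
    show |((x i : ℕ) : ℤ) - ((y i : ℕ) : ℤ)| ≤ (H : ℤ)
    rw [abs_le]
    constructor <;> omega
  · intro p
    have h1 := congrFun hf p
    have h2 : φ p (fun i => ((x i : ℕ) : ℤ) - ((y i : ℕ) : ℤ)) =
        φ p (fun i => ((x i : ℕ) : ℤ)) - φ p (fun i => ((y i : ℕ) : ℤ)) := by
      rw [← map_sub]
      rfl
    rw [h2, sub_eq_zero]
    exact h1

/-- Pigeonhole for congruences modulo several primes. -/
theorem siegel_primes {ι : Type} [Fintype ι] (S : Finset ℕ) (κ : ℕ)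
    (hS : ∀ p ∈ S, 1 ≤ p) (hM : 2 * κ ≤ Fintype.card ι) (hι : 0 < Fintype.card ι)
    (V : ℕ → Type) [∀ p, AddCommGroup (V p)] [∀ p, Finite (V p)]
    (hV : ∀ p ∈ S, Nat.card (V p) ≤ p ^ κ) (φ : ∀ p, (ι → ℤ) →+ V p) :
    ∃ c : ι → ℤ, c ≠ 0 ∧ (∀ i, |c i| ≤ (Nat.sqrt (∏ p ∈ S, p) : ℤ)) ∧ ∀ p ∈ S, φ p c = 0 := by
  obtain ⟨c, h1, h2, h3⟩ := siegel_primes' S κ hS hM hι (fun p => V p) (fun p => hV p p.2) (fun p => φ p)
  exact ⟨c, h1, h2, fun p hp => h3 ⟨p, hp⟩⟩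

end MP_a3a416_nt.BB
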