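import Pool.Agent.Lib.MP_a3a416_nt.BB.Defs

/-!
Module BR1 (MP_a3a416_nt, BB).  Local form of the basis polynomials and the exact division by `(b+dX)^2`.
-/

namespace MP_a3a416_nt.BB

open Polynomial

private theorem taylor_prodLin (n : ℤ) (d : ℕ) (z : ℤ) (s : Finset ℕ) :
    taylor n (prodLin d z s) = prodLin d ((d : ℤ) * n + z) s := by
  unfold prodLin
  rw [taylor_apply, Polynomial.prod_comp]
  refine Finset.prod_congr rfl fun j _ => ?_
  simp only [add_comp, mul_comp, C_comp, X_comp]
  rw [show (d : ℤ) * n + z - (j : ℤ) = (d : ℤ) * n + (z - j) by ring, C_add, C_mul]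
  ring

theorem taylor_basG (N n d a i : ℕ) : taylor (n : ℤ) (basG N d a i) = basL N n d a i := by
  unfold basG basL
  rw [taylor_mul, taylor_mul, taylor_pow, taylor_pow, taylor_prodLin, taylor_prodLin,
    taylor_prodLin]
  simp

theorem basL_eq {N n d a i b : ℕ} (hn : n < N) (hb : b ∈ Finset.Icc 1 (d * n)) :
    basL N n d a i = (C (d : ℤ) * X + C (b : ℤ)) ^ 2 * basW N n d a i b := by
  obtain ⟨hb1, hb2⟩ := Finset.mem_Icc.1 hb
  have hd : 0 < d := by
    rcases Nat.eq_zero_or_pos d with h | h
    · subst h; omega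
    · exact h
  have hlt : d * n < d * N := Nat.mul_lt_mul_of_pos_left hn hd
  have hmem : d * n - b ∈ Finset.range (d * N) := Finset.mem_range.2 (by omega)
  have hp : prodLin d ((d * n : ℕ) : ℤ) (Finset.range (d * N)) =
      (C (d : ℤ) * X + C (b : ℤ)) *
        prodLin d ((d * n : ℕ) : ℤ) ((Finset.range (d * N)).erase (d * n - b)) := by
    unfold prodLin
    rw [← Finset.mul_prod_erase _ _ hmem]
    congr 3
    congr 1
    push_cast [Nat.cast_sub hb2]
    ring
  unfold basL basW
  rw [hp]
  ring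

end MP_a3a416_nt.BB
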