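import Pool.Agent.Lib.MP_a3a416_nt.BB.Defs

/-!
Module BR2 (MP_a3a416_nt, BB).  `(b + dX)^2 * jet d b = b`.
-/

namespace MP_a3a416_nt.BB

theorem jet_mul {d b : ℕ} (hb : 1 ≤ b) :
    (PowerSeries.C (d : ℚ) * PowerSeries.X + PowerSeries.C (b : ℚ)) ^ 2 * jet d b = PowerSeries.C (b : ℚ) := by
  have hb0 : (b : ℚ) ≠ 0 := by
    have : 0 < b := hb
    positivity
  have h1 : (PowerSeries.C (d : ℚ) * PowerSeries.X + PowerSeries.C (b : ℚ)) ^ 2 * jet d b =
      PowerSeries.C ((b : ℚ) ^ 2) * jet d b +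
        PowerSeries.X * (PowerSeries.C (2 * (b : ℚ) * d) * jet d b) +
        PowerSeries.X * (PowerSeries.X * (PowerSeries.C ((d : ℚ) ^ 2) * jet d b)) := by
    simp only [map_pow, map_mul, map_ofNat]
    ring
  rw [h1]
  ext k
  rcases k with _ | _ | k
  · simp only [map_add, PowerSeries.coeff_zero_X_mul, PowerSeries.coeff_C_mul, jet,
      PowerSeries.coeff_mk, PowerSeries.coeff_zero_C]
    field_simp
    simp [pow_two]
  · simp only [map_add, PowerSeries.coeff_succ_X_mul, PowerSeries.coeff_C_mul, jet,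
      PowerSeries.coeff_mk, PowerSeries.coeff_C, PowerSeries.coeff_zero_X_mul]
    simp only [Nat.zero_add, one_ne_zero, if_false, add_zero]
    push_cast
    field_simp
    ring
  · simp only [map_add, PowerSeries.coeff_succ_X_mul, PowerSeries.coeff_C_mul, jet,
      PowerSeries.coeff_mk, PowerSeries.coeff_C]
    rw [if_neg (by omega)]
    push_cast
    field_simp
    ring

theorem vser_succ_sub (d n : ℕ) :
    vser d (n + 1) - vser d n = ∑ j ∈ Finset.Icc 1 d, jet d (d * n + j) := by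
  unfold vser
  have h : Finset.Icc 1 (d * (n + 1)) = Finset.Icc 1 (d * n) ∪ (Finset.Icc 1 d).image (d * n + ·) := by
    ext x
    simp only [Finset.mem_union, Finset.mem_Icc, Finset.mem_image]
    constructor
    · rintro ⟨h1, h2⟩
      rw [Nat.mul_succ] at h2
      by_cases hx : x ≤ d * n
      · exact Or.inl ⟨h1, hx⟩
      · exact Or.inr ⟨x - d * n, ⟨by omega, by omega⟩, by omega⟩
    · rintro (⟨h1, h2⟩ | ⟨j, ⟨h1, h2⟩, rfl⟩)
      · exact ⟨h1, h2.trans (Nat.mul_le_mul_left d (Nat.le_succ n))⟩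
      · rw [Nat.mul_succ]; omega
  rw [h, Finset.sum_union, Finset.sum_image]
  · ring
  · intro x _ y _ hxy
    exact Nat.add_left_cancel hxy
  · rw [Finset.disjoint_left]
    intro x hx hx'
    simp only [Finset.mem_Icc, Finset.mem_image] at hx hx'
    obtain ⟨j, ⟨h1, -⟩, rfl⟩ := hx'
    omega

end MP_a3a416_nt.BB
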