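import Pool.Agent.Lib.MP_a3a416_nt.BB.BR1
import Pool.Agent.Lib.MP_a3a416_nt.BB.BR2

/-!
Module BR3 (MP_a3a416_nt, BB).  `rr` as a power series over `ℚ`.
-/

namespace MP_a3a416_nt.BB

open Polynomial

/-- `ℤ[X] → ℚ⟦X⟧`. -/
noncomputable def toPS : ℤ[X] →+* PowerSeries ℚ :=
  (Polynomial.coeToPowerSeries.ringHom (R := ℚ)).comp (Polynomial.mapRingHom (Int.castRingHom ℚ))

theorem toPS_apply (P : ℤ[X]) :
    toPS P = ((P.map (Int.castRingHom ℚ) : ℚ[X]) : PowerSeries ℚ) := rfl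

theorem toPS_C (z : ℤ) : toPS (C z) = PowerSeries.C (z : ℚ) := by
  rw [toPS_apply, Polynomial.map_C, Polynomial.coe_C]
  simp

theorem toPS_X : toPS X = PowerSeries.X := by
  rw [toPS_apply, Polynomial.map_X, Polynomial.coe_X]

theorem rr_eq_series {R N : ℕ} (c : ℕ × ℕ × ℕ → ℤ) {n : ℕ} (hn : n < N) :
    (((rr R N c n).map (Int.castRingHom ℚ) : ℚ[X]) : PowerSeries ℚ) =
      ∑ d ∈ Finset.Icc 1 R,
        ((taylor (n : ℚ) ((PP R N c d).map (Int.castRingHom ℚ)) : ℚ[X]) : PowerSeries ℚ) * vser d n := by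
  rw [← toPS_apply]
  have htay : ∀ P : ℤ[X], ((taylor (n : ℚ) (P.map (Int.castRingHom ℚ)) : ℚ[X]) : PowerSeries ℚ)
      = toPS (taylor (n : ℤ) P) := by
    intro P
    rw [toPS_apply, Polynomial.map_taylor]
    simp
  simp only [htay]
  unfold rr
  rw [map_sum]
  apply Finset.sum_congr rfl
  intro d _
  have h1 : taylor (n : ℤ) (PP R N c d) = ∑ a ∈ Finset.range (4 * R), ∑ i ∈ Finset.range N,
      C (c (d, a, i) * ((Q0 R N / den N d a i : ℕ) : ℤ)) * basL N n d a i := by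
    unfold PP
    rw [map_sum]
    apply Finset.sum_congr rfl
    intro a _
    rw [map_sum]
    apply Finset.sum_congr rfl
    intro i _
    rw [taylor_mul, taylor_C, taylor_basG]
  rw [h1, map_sum, map_sum, Finset.sum_mul]
  apply Finset.sum_congr rfl
  intro a _
  rw [map_sum, map_sum, Finset.sum_mul]
  apply Finset.sum_congr rfl
  intro i _
  unfold vser
  rw [map_sum, Finset.mul_sum]
  apply Finset.sum_congr rfl
  intro b hb
  have hb1 := (Finset.mem_Icc.1 hb).1
  rw [basL_eq hn hb]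
  generalize Q0 R N / den N d a i = q
  simp only [map_mul, map_pow, map_add, toPS_C, toPS_X]
  have hj := jet_mul (d := d) hb1
  simp only [Int.cast_natCast]
  linear_combination (-(PowerSeries.C (c (d, a, i) : ℚ) * PowerSeries.C (q : ℚ)
    * toPS (basW N n d a i b))) * hj

end MP_a3a416_nt.BB
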