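import Pool.Agent.Lib.MP_a3a416_nt.BB.Defs

/-!
Module BR4 (MP_a3a416_nt, BB).  Degrees.
PROOF. `natDegree (prodLin d z s) ≤ #s` (`natDegree_prod_le`, `natDegree_linear_le`), `prodLin 1 z s` is monic of degree `#s`
(`monic_prod_of_monic`, factor `C 1 * X + C _`), `prodLin d z s ≠ 0` for `d ≥ 1` (`Finset.prod_ne_zero_iff`).
-/

namespace MP_a3a416_nt.BB

open Polynomial

theorem natDegree_prodLin_le (d : ℕ) (z : ℤ) (s : Finset ℕ) : (prodLin d z s).natDegree ≤ s.card := by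
  unfold prodLin
  refine (natDegree_prod_le _ _).trans ?_
  calc ∑ i ∈ s, (C (d : ℤ) * X + C (z - (i : ℤ)) : ℤ[X]).natDegree ≤ ∑ _i ∈ s, 1 :=
        Finset.sum_le_sum fun i _ => natDegree_linear_le
    _ = s.card := by simp

theorem monic_prodLin_one (z : ℤ) (s : Finset ℕ) : (prodLin 1 z s).Monic := by
  unfold prodLin
  refine monic_prod_of_monic _ _ fun j _ => ?_
  have : (C ((1 : ℕ) : ℤ) * X + C (z - (j : ℤ)) : ℤ[X]) = X + C (z - (j : ℤ)) := by simp
  rw [this]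
  exact monic_X_add_C _

theorem natDegree_prodLin_one (z : ℤ) (s : Finset ℕ) : (prodLin 1 z s).natDegree = s.card := by
  unfold prodLin
  rw [natDegree_prod_of_monic]
  · have : ∀ j : ℕ, (C ((1 : ℕ) : ℤ) * X + C (z - (j : ℤ)) : ℤ[X]).natDegree = 1 := by
      intro j
      have h : (C ((1 : ℕ) : ℤ) * X + C (z - (j : ℤ)) : ℤ[X]) = X + C (z - (j : ℤ)) := by simp
      rw [h, natDegree_X_add_C]
    simp only [this]
    simp
  · intro j _
    have : (C ((1 : ℕ) : ℤ) * X + C (z - (j : ℤ)) : ℤ[X]) = X + C (z - (j : ℤ)) := by simp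
    rw [this]
    exact monic_X_add_C _

theorem prodLin_ne_zero {d : ℕ} (hd : 1 ≤ d) (z : ℤ) (s : Finset ℕ) : prodLin d z s ≠ 0 := by
  unfold prodLin
  rw [Finset.prod_ne_zero_iff]
  intro j _ h
  have h1 : (C (d : ℤ) * X + C (z - (j : ℤ)) : ℤ[X]).coeff 1 = d := by
    rw [coeff_add, coeff_C_mul, coeff_X_one, mul_one, coeff_C]
    simp
  rw [h, coeff_zero] at h1
  omega

end MP_a3a416_nt.BB
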