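import Pool.Agent.Lib.MP_a3a416_nt.BB.Defs

/-!
# Denominators

`Adm q L c P`: the coefficient `k` of `P` is divisible by `q^(Σ_{l ≤ L} (c l - k))`. This is
multiplicative. It is applied to products of linear forms, and yields a common denominator
`DD = ∏_{u ≤ T+2} lcm(1..6RN/u)` for the coefficients of order `< T` of `basW / den`.
-/

open Finset Polynomial

namespace MP_a3a416_nt.BB

/-- coefficient `k` is divisible by `q^(Σ_{l=1}^L (c l - k))`. -/
def Adm (q L : ℕ) (c : ℕ → ℕ) (P : ℤ[X]) : Prop :=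
  ∀ k, (q : ℤ) ^ (∑ l ∈ Icc 1 L, (c l - k)) ∣ P.coeff k

theorem Adm.mono {q L : ℕ} {c c' : ℕ → ℕ} {P : ℤ[X]} (h : Adm q L c P)
    (hc : ∀ l, 1 ≤ l → c' l ≤ c l) : Adm q L c' P := by
  intro k
  refine (pow_dvd_pow _ ?_).trans (h k)
  apply sum_le_sum
  intro l hl
  have := hc l (mem_Icc.1 hl).1
  omega

theorem Adm.mul {q L : ℕ} {c c' : ℕ → ℕ} {P P' : ℤ[X]} (h : Adm q L c P) (h' : Adm q L c' P') :
    Adm q L (fun l => c l + c' l) (P * P') := by
  intro k
  rw [coeff_mul]
  apply dvd_sum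
  intro ij hij
  rw [Finset.HasAntidiagonal.mem_antidiagonal] at hij
  refine dvd_trans ?_ (mul_dvd_mul (h ij.1) (h' ij.2))
  rw [← pow_add]
  apply pow_dvd_pow
  rw [← sum_add_distrib]
  apply sum_le_sum
  intro l _
  dsimp only
  omega

theorem Adm.const (q L : ℕ) (b : ℤ) : Adm q L (fun _ => 0) (C b) := by
  intro k
  simp

theorem Adm.one (q L : ℕ) : Adm q L (fun _ => 0) 1 := by
  intro k
  simp

theorem Adm.prod {ι : Type*} {q L : ℕ} (s : Finset ι) (c : ι → ℕ → ℕ) (P : ι → ℤ[X])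
    (h : ∀ i ∈ s, Adm q L (c i) (P i)) : Adm q L (fun l => ∑ i ∈ s, c i l) (∏ i ∈ s, P i) := by
  classical
  induction s using Finset.induction_on with
  | empty => simpa using Adm.one q L
  | insert a s ha ih =>
    rw [prod_insert ha]
    have h1 := (h a (mem_insert_self a s)).mul (ih (fun i hi => h i (mem_insert_of_mem hi)))
    intro k
    have := h1 k
    simpa [sum_insert ha] using this

theorem Adm.pow {q L : ℕ} {c : ℕ → ℕ} {P : ℤ[X]} (h : Adm q L c P) (a : ℕ) :
    Adm q L (fun l => a * c l) (P ^ a) := by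
  induction a with
  | zero => simpa using Adm.one q L
  | succ a ih =>
    rw [pow_succ]
    have h1 := ih.mul h
    intro k
    have := h1 k
    simpa [add_mul] using this

theorem pow_card_dvd (q : ℕ) (z : ℤ) (L : ℕ) :
    (q : ℤ) ^ (∑ l ∈ Icc 1 L, if (q : ℤ) ^ l ∣ z then 1 else 0) ∣ z := by
  induction L with
  | zero => simp
  | succ L ih =>
    rw [sum_Icc_succ_top (by omega)]
    by_cases h : (q : ℤ) ^ (L + 1) ∣ z
    · refine dvd_trans (pow_dvd_pow _ ?_) h
      rw [if_pos h]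
      have : ∑ l ∈ Icc 1 L, (if (q : ℤ) ^ l ∣ z then 1 else 0) ≤ ∑ l ∈ Icc 1 L, 1 := by
        apply sum_le_sum
        intro l _
        split_ifs <;> omega
      have h2 : ∑ l ∈ Icc 1 L, 1 = L := by simp
      omega
    · rw [if_neg h]
      simpa using ih

theorem Adm.linear (q L : ℕ) (z e : ℤ) :
    Adm q L (fun l => if (q : ℤ) ^ l ∣ z then 1 else 0) (C e * X + C z) := by
  intro k
  rcases k with _ | k
  · have h1 : (C e * X + C z : ℤ[X]).coeff 0 = z := by simp
    rw [h1]
    simpa using pow_card_dvd q z L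
  · have h2 : ∑ l ∈ Icc 1 L, ((if (q : ℤ) ^ l ∣ z then 1 else 0) - (k + 1)) = 0 := by
      apply sum_eq_zero
      intro l _
      split_ifs <;> omega
    rw [h2]
    simp

/-- among `m` consecutive integers at least `m / r` are divisible by `r`. -/
theorem count_dvd_ge (m r : ℕ) (hr : 1 ≤ r) (w : ℤ) :
    m / r ≤ ((range m).filter (fun j : ℕ => (r : ℤ) ∣ w - j)).card := by
  rw [← card_range (m / r)]
  have hr' : (0 : ℤ) < r := by exact_mod_cast hr
  have hmod : ∀ t : ℕ, (0 : ℤ) ≤ (w - t * r) % r ∧ (w - t * r) % r < r := fun t =>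
    ⟨Int.emod_nonneg _ hr'.ne', Int.emod_lt_of_pos _ hr'⟩
  apply card_le_card_of_injOn (fun t : ℕ => (t * r + ((w - t * r) % r).toNat : ℕ))
  · intro t ht
    have ht' : t < m / r := by simpa using ht
    have h1 : (t + 1) * r ≤ m := by
      have := (Nat.le_div_iff_mul_le (by omega : 0 < r)).1 ht'
      simpa using this
    have h2 := hmod t
    have h3 : ((w - t * r) % r).toNat < r := by omega
    simp only [coe_filter, mem_range, Set.mem_ofPred_eq]
    refine ⟨by nlinarith, ?_⟩
    push_cast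
    rw [Int.toNat_of_nonneg h2.1]
    have h4 := Int.emod_add_mul_ediv (w - t * r) r
    refine ⟨(w - t * r) / r, ?_⟩
    linarith
  · intro t _ t' _ htt
    simp only at htt
    have h2 := hmod t
    have h2' := hmod t'
    have h3 : ((w - t * r) % r).toNat < r := by omega
    have h3' : ((w - t' * r) % r).toNat < r := by omega
    rcases lt_trichotomy t t' with h | h | h
    · exfalso
      have : (t + 1) * r ≤ t' * r := Nat.mul_le_mul_right r h
      nlinarith
    · exact h
    · exfalso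
      have : (t' + 1) * r ≤ t * r := Nat.mul_le_mul_right r h
      nlinarith

theorem Adm.blk (q L : ℕ) (hq : 1 ≤ q) (m : ℕ) (w : ℤ) (e : ℕ) :
    Adm q L (fun l => m / q ^ l) (prodLin e w (range m)) := by
  have h := Adm.prod (q := q) (L := L) (range m) (fun (j : ℕ) l => if (q : ℤ) ^ l ∣ w - j then 1 else 0)
    (fun j => C (e : ℤ) * X + C (w - j)) (fun j _ => Adm.linear q L (w - j) e)
  refine Adm.mono h ?_
  intro l _
  have h1 := count_dvd_ge m (q ^ l) (Nat.one_le_pow _ _ hq) w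
  rw [card_filter] at h1
  simpa using h1

theorem Adm.blkE (q L : ℕ) (hq : 1 ≤ q) (m : ℕ) (w : ℤ) (e : ℕ) (j₀ : ℕ) (hj₀ : j₀ < m) :
    Adm q L (fun l => m / q ^ l - 1) (prodLin e w ((range m).erase j₀)) := by
  have h := Adm.prod (q := q) (L := L) ((range m).erase j₀)
    (fun (j : ℕ) l => if (q : ℤ) ^ l ∣ w - j then 1 else 0)
    (fun j => C (e : ℤ) * X + C (w - j)) (fun j _ => Adm.linear q L (w - j) e)
  refine Adm.mono h ?_
  intro l _
  have h1 := count_dvd_ge m (q ^ l) (Nat.one_le_pow _ _ hq) w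
  rw [card_filter] at h1
  have h2 := Finset.sum_erase_add (range m)
    (fun j : ℕ => if ((q ^ l : ℕ) : ℤ) ∣ w - j then 1 else 0) (mem_range.2 hj₀)
  have h3 : (if ((q ^ l : ℕ) : ℤ) ∣ w - j₀ then 1 else 0) ≤ 1 := by split_ifs <;> omega
  have h4 : ∑ i ∈ (range m).erase j₀, (if (q : ℤ) ^ l ∣ w - i then 1 else 0)
      = ∑ i ∈ (range m).erase j₀, (if ((q ^ l : ℕ) : ℤ) ∣ w - i then 1 else 0) := by
    push_cast; rfl
  rw [h4]
  omega

theorem log_eq_sum {q : ℕ} (hq : 1 < q) {m L : ℕ} (hm : m < q ^ (L + 1)) :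
    Nat.log q m = ∑ l ∈ Icc 1 L, if q ^ l ≤ m then 1 else 0 := by
  rw [← card_filter]
  rcases Nat.eq_zero_or_pos m with rfl | hpos
  · have : (Icc 1 L).filter (fun l => q ^ l ≤ 0) = ∅ := by
      apply filter_eq_empty_iff.2
      intro l _
      have : 0 < q ^ l := by positivity
      omega
    rw [this]; simp
  · have h1 : (Icc 1 L).filter (fun l => q ^ l ≤ m) = Icc 1 (Nat.log q m) := by
      ext l
      rw [mem_filter, mem_Icc, mem_Icc]
      constructor
      · rintro ⟨⟨h1, _⟩, h3⟩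
        exact ⟨h1, Nat.le_log_of_pow_le hq h3⟩
      · rintro ⟨h1, h2⟩
        have h3 : q ^ l ≤ m := (Nat.pow_le_pow_right (by omega) h2).trans
          (Nat.pow_log_le_self q (by omega))
        refine ⟨⟨h1, ?_⟩, h3⟩
        have : q ^ l < q ^ (L + 1) := lt_of_le_of_lt h3 hm
        have := (Nat.pow_lt_pow_iff_right hq).1 this
        omega
    rw [h1]; simp

theorem card_le_min (K t : ℕ) : ((Icc 1 K).filter (fun u => u ≤ t)).card = min K t := by
  have : (Icc 1 K).filter (fun u => u ≤ t) = Icc 1 (min K t) := by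
    ext u
    rw [mem_filter, mem_Icc, mem_Icc, le_min_iff]
    tauto
  rw [this]; simp

theorem factorization_DD (R N T : ℕ) {q : ℕ} (hq : q.Prime) :
    (DD R N T).factorization q
      = ∑ l ∈ Icc 1 (Nat.log q (6 * R * N)), min (T + 2) (6 * R * N / q ^ l) := by
  unfold DD
  set A := 6 * R * N with hA
  rw [Nat.factorization_prod (fun u _ => Nat.lcmUpto_ne_zero _), Finsupp.finsetSum_apply]
  have hq1 := hq.one_lt
  set L := Nat.log q A with hL
  have h1 : ∀ u ∈ Icc 1 (T + 2), (Nat.lcmUpto (A / u)).factorization q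
      = ∑ l ∈ Icc 1 L, if u ≤ A / q ^ l then 1 else 0 := by
    intro u hu
    rw [Nat.factorization_lcmUpto _ hq]
    have hB : A / u < q ^ (L + 1) :=
      lt_of_le_of_lt (Nat.div_le_self _ _) (Nat.lt_pow_succ_log_self hq1 A)
    rw [log_eq_sum hq1 hB]
    apply sum_congr rfl
    intro l hl
    rw [mem_Icc] at hl hu
    have hpos : 0 < q ^ l := by positivity
    have h3 : q ^ l ≤ A / u ↔ u ≤ A / q ^ l := by
      rw [Nat.le_div_iff_mul_le (by omega), Nat.le_div_iff_mul_le hpos, mul_comm u]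
    simp only [h3]
  rw [sum_congr rfl h1, sum_comm]
  apply sum_congr rfl
  intro l _
  rw [← card_filter, card_le_min]

theorem Adm.basW (q L : ℕ) (hq : 1 ≤ q) (N n d a i b : ℕ) (hb : d * n - b < d * N) :
    Adm q L (fun l => a * (N / q ^ l) + i / q ^ l + 2 * (d * N / q ^ l) - 2) (basW N n d a i b) := by
  have h1 := (((Adm.blk q L hq N n 1).pow a).mul
    (Adm.blk q L hq i n 1)).mul ((Adm.blkE q L hq (d * N) ((d * n : ℕ) : ℤ) d (d * n - b) hb).pow 2)
  unfold MP_a3a416_nt.BB.basW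
  refine Adm.mono h1 ?_
  intro l _
  generalize a * (N / q ^ l) = x1
  generalize i / q ^ l = x2
  generalize d * N / q ^ l = x3
  omega

theorem factorization_Q (N d a i : ℕ) {q L : ℕ} (hq : q.Prime) (hN : N < q ^ (L + 1))
    (hi : i < q ^ (L + 1)) (hd : d * N < q ^ (L + 1)) :
    (den N d a i).factorization q
      = ∑ l ∈ Icc 1 L, (a * (N / q ^ l) + i / q ^ l + 2 * (d * N / q ^ l)) := by
  unfold den
  have hlog : ∀ m, m < q ^ (L + 1) → (m.factorial).factorization q = ∑ l ∈ Icc 1 L, m / q ^ l := by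
    intro m hm
    have hb : Nat.log q m < L + 1 := by
      rcases Nat.eq_zero_or_pos m with rfl | hpos
      · simp
      · exact (Nat.log_lt_iff_lt_pow hq.one_lt (by omega)).2 hm
    rw [Nat.factorization_factorial hq hb]
    rfl
  rw [Nat.factorization_mul (by positivity) (by positivity),
    Nat.factorization_mul (by positivity) (by positivity), Nat.factorization_pow,
    Nat.factorization_pow]
  simp only [Finsupp.add_apply, Finsupp.smul_apply, smul_eq_mul]
  rw [hlog N hN, hlog i hi, hlog (d * N) hd, mul_sum, mul_sum, ← sum_add_distrib,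
    ← sum_add_distrib]

theorem den_pos (N d a i : ℕ) : 0 < den N d a i := by
  unfold den; positivity

/-- **Common denominator.** -/
theorem denom_dvd {R N n d a i b k T : ℕ} (hd : d ∈ Finset.Icc 1 R) (ha : a < 4 * R) (hi : i < N)
    (hn : n < N) (hb : b ∈ Finset.Icc 1 (d * n)) (hk : k < T) :
    ((den N d a i : ℕ) : ℤ) ∣ (DD R N T : ℤ) * (basW N n d a i b).coeff k := by
  rw [Int.natCast_dvd, Nat.dvd_iff_prime_pow_dvd_dvd]
  intro q e hq he
  rw [mem_Icc] at hd hb
  have hq1 := hq.one_lt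
  have hbd : d * n - b < d * N := by
    have : d * n < d * N := Nat.mul_lt_mul_of_pos_left hn hd.1
    omega
  set L := Nat.log q (6 * R * N) with hL
  have hRN : 6 * R * N < q ^ (L + 1) := Nat.lt_pow_succ_log_self hq1 _
  have hN1 : N ≤ 6 * R * N := Nat.le_mul_of_pos_left _ (by omega)
  have hdN : d * N ≤ 6 * R * N := Nat.mul_le_mul_right N (by omega)
  have hQ := factorization_Q N d a i hq (lt_of_le_of_lt hN1 hRN)
    (by omega : i < q ^ (L + 1)) (lt_of_le_of_lt hdN hRN)
  have he' : e ≤ (den N d a i).factorization q :=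
    (hq.pow_dvd_iff_le_factorization (den_pos N d a i).ne').1 he
  rw [hQ] at he'
  -- the two divisibilities
  have h1 : (q : ℤ) ^ (∑ l ∈ Icc 1 L, (a * (N / q ^ l) + i / q ^ l + 2 * (d * N / q ^ l) - 2 - k))
      ∣ (basW N n d a i b).coeff k := Adm.basW q L hq1.le N n d a i b hbd k
  have h2 : q ^ (∑ l ∈ Icc 1 L, min (T + 2) (6 * R * N / q ^ l)) ∣ DD R N T := by
    rw [hL, ← factorization_DD R N T hq]
    exact Nat.ordProj_dvd _ _
  have h3 : ∑ l ∈ Icc 1 L, (a * (N / q ^ l) + i / q ^ l + 2 * (d * N / q ^ l))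
      ≤ ∑ l ∈ Icc 1 L, min (T + 2) (6 * R * N / q ^ l)
        + ∑ l ∈ Icc 1 L, (a * (N / q ^ l) + i / q ^ l + 2 * (d * N / q ^ l) - 2 - k) := by
    rw [← sum_add_distrib]
    apply sum_le_sum
    intro l _
    have hpos : 0 < q ^ l := by positivity
    have h4 : a * (N / q ^ l) + i / q ^ l + 2 * (d * N / q ^ l) ≤ 6 * R * N / q ^ l := by
      rw [Nat.le_div_iff_mul_le hpos]
      have h5 := Nat.div_mul_le_self N (q ^ l)
      have h6 := Nat.div_mul_le_self i (q ^ l)
      have h7 := Nat.div_mul_le_self (d * N) (q ^ l)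
      have h8 : a * (N / q ^ l * q ^ l) ≤ a * N := Nat.mul_le_mul_left a h5
      have h9 : a * N + N ≤ 4 * R * N := by
        have : (a + 1) * N ≤ 4 * R * N := Nat.mul_le_mul_right N (by omega)
        linarith
      have h10 : d * N ≤ R * N := Nat.mul_le_mul_right N hd.2
      calc (a * (N / q ^ l) + i / q ^ l + 2 * (d * N / q ^ l)) * q ^ l
          = a * (N / q ^ l * q ^ l) + i / q ^ l * q ^ l + 2 * (d * N / q ^ l * q ^ l) := by ring
        _ ≤ a * N + i + 2 * (d * N) := by omega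
        _ ≤ 6 * R * N := by nlinarith
    omega
  have h4 : (q : ℤ) ^ e ∣ (DD R N T : ℤ) * (basW N n d a i b).coeff k := by
    refine dvd_trans (pow_dvd_pow _ (he'.trans h3)) ?_
    rw [pow_add]
    exact mul_dvd_mul (by exact_mod_cast h2) h1
  rw [← Int.natCast_dvd]
  exact_mod_cast h4

theorem den_dvd_Q0 {R N d a i : ℕ} (hd : d ∈ Finset.Icc 1 R) (ha : a < 4 * R) (hi : i < N) :
    den N d a i ∣ Q0 R N := by
  rw [mem_Icc] at hd
  unfold den Q0
  have h1 : i.factorial ∣ N.factorial := Nat.factorial_dvd_factorial hi.le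
  have h2 : (d * N).factorial ∣ (R * N).factorial :=
    Nat.factorial_dvd_factorial (Nat.mul_le_mul_right N hd.2)
  have h3 : N.factorial ^ a * i.factorial ∣ N.factorial ^ (4 * R) := by
    calc N.factorial ^ a * i.factorial ∣ N.factorial ^ a * N.factorial := mul_dvd_mul_left _ h1
      _ = N.factorial ^ (a + 1) := by ring
      _ ∣ N.factorial ^ (4 * R) := pow_dvd_pow _ (by omega)
  exact mul_dvd_mul h3 (pow_dvd_pow_of_dvd h2 2)

end MP_a3a416_nt.BB
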