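import Pool.Agent.Lib.MP_a3a416_nt.BB.BR4
import Pool.Agent.Lib.MP_a3a416_nt.BB.Denom

/-!
Module BR5 (MP_a3a416_nt, BB).  Not all `P_d` are zero.
PROOF. Let `(d,a,i) ∈ idx` with `c (d,a,i) ≠ 0`.  Fix `d`; suppose `PP R N c d = 0`. Cancel the common factor `prodLin d 0 (range (dN)) ^ 2 ≠ 0`:
`∑_{a<4R} ∑_{i<N} C (e a i) * (u^a * w_i) = 0`, `u = prodLin 1 0 (range N)` monic of degree `N`, `w_i = prodLin 1 0 (range i)` monic of degree `i`,
`e a i = c (d,a,i) * (Q0/den)`, `Q0/den > 0` (`den_dvd_Q0`, `Nat.div_pos`/`Nat.div_ne_zero..`). Among the pairs with `e a i ≠ 0` choose the one with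
`m = a N + i` maximal (the numbers `aN+i`, `i < N`, are distinct: `Nat.div_add_mod`-type argument); the coefficient at `X^m` of the sum is `e a i ≠ 0`
(terms with smaller `a'N+i'` have degree `< m`: `coeff_eq_zero_of_natDegree_lt`).  Contradiction.  `basis_indep` is the abstract version.
-/

namespace MP_a3a416_nt.BB

open Polynomial

/-- polynomials `g s` monic of pairwise distinct degrees are linearly independent over `ℤ`. -/
theorem indep_of_degrees {ι : Type} (s : Finset ι) (g : ι → ℤ[X]) (hg : ∀ x ∈ s, (g x).Monic)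
    (hd : ∀ x ∈ s, ∀ y ∈ s, (g x).natDegree = (g y).natDegree → x = y) (e : ι → ℤ)
    (h : ∑ x ∈ s, C (e x) * g x = 0) : ∀ x ∈ s, e x = 0 := by
  classical
  by_contra hcon
  push Not at hcon
  obtain ⟨x₀, hx₀, hex₀⟩ := hcon
  set s' := s.filter (fun x => e x ≠ 0) with hs'
  have hne : s'.Nonempty := ⟨x₀, by rw [hs', Finset.mem_filter]; exact ⟨hx₀, hex₀⟩⟩
  obtain ⟨x, hx, hmax⟩ := Finset.exists_max_image s' (fun x => (g x).natDegree) hne
  rw [hs', Finset.mem_filter] at hx
  have h1 := congrArg (fun p : ℤ[X] => p.coeff (g x).natDegree) h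
  simp only [finsetSum_coeff, coeff_C_mul, coeff_zero] at h1
  rw [Finset.sum_eq_single x] at h1
  · have h2 : (g x).coeff (g x).natDegree = 1 := hg x hx.1
    rw [h2, mul_one] at h1
    exact hx.2 h1
  · intro y hy hyx
    by_cases hey : e y = 0
    · rw [hey, zero_mul]
    · have hle := hmax y (by rw [hs', Finset.mem_filter]; exact ⟨hy, hey⟩)
      have hne' : (g y).natDegree ≠ (g x).natDegree := fun hh => hyx (hd y hy x hx.1 hh)
      rw [coeff_eq_zero_of_natDegree_lt (lt_of_le_of_ne hle hne'), mul_zero]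
  · intro hh
    exact absurd hx.1 hh

theorem exists_PP_ne_zero {R N : ℕ} (c : ℕ × ℕ × ℕ → ℤ) (hc : ∃ x ∈ idx R N, c x ≠ 0) :
    ∃ d ∈ Finset.Icc 1 R, PP R N c d ≠ 0 := by
  classical
  obtain ⟨⟨d, a, i⟩, hx, hcx⟩ := hc
  have hx' := hx
  simp only [idx, Finset.mem_product, Finset.mem_range] at hx
  obtain ⟨hd, ha, hi⟩ := hx
  have hd1 : 1 ≤ d := (Finset.mem_Icc.1 hd).1
  refine ⟨d, hd, ?_⟩
  intro hPP
  have hN : 0 < N := by omega
  -- cancel the common factor
  have hfac : prodLin d 0 (Finset.range (d * N)) ^ 2 ≠ 0 := pow_ne_zero _ (prodLin_ne_zero hd1 0 _)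
  have hsum : ∑ y ∈ Finset.range (4 * R) ×ˢ Finset.range N,
      C (c (d, y.1, y.2) * ((Q0 R N / den N d y.1 y.2 : ℕ) : ℤ)) *
        (prodLin 1 0 (Finset.range N) ^ y.1 * prodLin 1 0 (Finset.range y.2)) = 0 := by
    have h1 : PP R N c d = (∑ y ∈ Finset.range (4 * R) ×ˢ Finset.range N,
      C (c (d, y.1, y.2) * ((Q0 R N / den N d y.1 y.2 : ℕ) : ℤ)) *
        (prodLin 1 0 (Finset.range N) ^ y.1 * prodLin 1 0 (Finset.range y.2))) *
        prodLin d 0 (Finset.range (d * N)) ^ 2 := by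
      rw [Finset.sum_mul, Finset.sum_product]
      unfold PP basG
      refine Finset.sum_congr rfl fun a _ => Finset.sum_congr rfl fun i _ => ?_
      ring
    rw [h1] at hPP
    exact (mul_eq_zero.1 hPP).resolve_right hfac
  have hdeg : ∀ y : ℕ × ℕ, (prodLin 1 0 (Finset.range N) ^ y.1 * prodLin 1 0 (Finset.range y.2)).natDegree
      = y.1 * N + y.2 := by
    intro y
    rw [Monic.natDegree_mul ((monic_prodLin_one 0 _).pow _) (monic_prodLin_one 0 _),
      (monic_prodLin_one 0 _).natDegree_pow, natDegree_prodLin_one, natDegree_prodLin_one]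
    simp
  have hall := indep_of_degrees (Finset.range (4 * R) ×ˢ Finset.range N)
    (fun y => prodLin 1 0 (Finset.range N) ^ y.1 * prodLin 1 0 (Finset.range y.2))
    (fun y _ => ((monic_prodLin_one 0 _).pow _).mul (monic_prodLin_one 0 _))
    (by
      intro y hy z hz hyz
      rw [hdeg, hdeg] at hyz
      simp only [Finset.mem_product, Finset.mem_range] at hy hz
      have h1 : y.1 = z.1 := by
        have e1 : (y.1 * N + y.2) / N = y.1 := by
          rw [mul_comm, Nat.mul_add_div hN, Nat.div_eq_of_lt hy.2, add_zero]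
        have e2 : (z.1 * N + z.2) / N = z.1 := by
          rw [mul_comm, Nat.mul_add_div hN, Nat.div_eq_of_lt hz.2, add_zero]
        rw [← e1, ← e2, hyz]
      have h2 : y.2 = z.2 := by rw [h1] at hyz; omega
      exact Prod.ext h1 h2)
    (fun y => c (d, y.1, y.2) * ((Q0 R N / den N d y.1 y.2 : ℕ) : ℤ)) hsum (a, i)
    (by simp only [Finset.mem_product, Finset.mem_range]; exact ⟨ha, hi⟩)
  have hpos : 0 < Q0 R N / den N d a i := by
    have hQ : 0 < Q0 R N := by
      unfold Q0; positivity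
    exact Nat.div_pos (Nat.le_of_dvd hQ (den_dvd_Q0 hd ha hi)) (den_pos N d a i)
  simp only [mul_eq_zero, Int.natCast_eq_zero] at hall
  rcases hall with h | h
  · exact hcx h
  · omega

end MP_a3a416_nt.BB
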