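import Mathlib

/-!
# MP_a3a416, zero estimate: counting zeros

A non-zero polynomial with a zero of order `≥ t` at each of `0, 1, …, N-1` has degree `≥ N t`.
And: `X^(t+1) ∣ f (c - X)` implies `X^t ∣ f` in `ℚ[[X]]`.
-/

namespace BBZ

open Polynomial

theorem count (δ : ℚ[X]) (hδ : δ ≠ 0) (N t : ℕ)
    (h : ∀ n < N, PowerSeries.X ^ t ∣ ((taylor (n : ℚ) δ : ℚ[X]) : PowerSeries ℚ)) :
    N * t ≤ δ.natDegree := by
  have h1 : ∀ n < N, (X - C (n : ℚ)) ^ t ∣ δ := by
    intro n hn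
    have h2 : (X : ℚ[X]) ^ t ∣ taylor (n : ℚ) δ := by
      rw [Polynomial.X_pow_dvd_iff]
      intro d hd
      have h3 := (PowerSeries.X_pow_dvd_iff.1 (h n hn)) d hd
      rwa [Polynomial.coeff_coe] at h3
    obtain ⟨g, hg⟩ := h2
    refine ⟨taylor (-(n : ℚ)) g, ?_⟩
    have h4 : taylor (-(n : ℚ)) (taylor (n : ℚ) δ) = δ := by
      rw [taylor_taylor]
      simp
    rw [← h4, hg, taylor_mul, taylor_pow, taylor_X]
    simp [sub_eq_add_neg]
  have h5 : (∏ n ∈ Finset.range N, (X - C (n : ℚ)) ^ t) ∣ δ := by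
    refine Finset.prod_dvd_of_coprime ?_ fun n hn => h1 n (Finset.mem_range.1 hn)
    intro i _ j _ hij
    refine IsCoprime.pow ?_
    exact Polynomial.isCoprime_X_sub_C_of_isUnit_sub
      (isUnit_iff_ne_zero.2 (sub_ne_zero.2 (by exact_mod_cast hij)))
  have h6 := natDegree_le_of_dvd h5 hδ
  rw [natDegree_prod_of_monic _ _ (fun n _ => (monic_X_sub_C _).pow t)] at h6
  have h7 : ∀ n ∈ Finset.range N, ((X - C (n : ℚ)) ^ t).natDegree = t := by
    intro n _
    rw [natDegree_pow, natDegree_X_sub_C, mul_one]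
  rw [Finset.sum_congr rfl h7, Finset.sum_const, Finset.card_range, smul_eq_mul] at h6
  exact h6

theorem dvd_of_mul_linear (f : PowerSeries ℚ) (c : ℚ) (t : ℕ)
    (h : PowerSeries.X ^ t ∣ f * ((C c - X : ℚ[X]) : PowerSeries ℚ)) :
    PowerSeries.X ^ (t - 1) ∣ f := by
  by_cases hc : c = 0
  · subst hc
    have h1 : ((C (0 : ℚ) - X : ℚ[X]) : PowerSeries ℚ) = - PowerSeries.X := by
      simp
    rw [h1, mul_neg, dvd_neg] at h
    rcases Nat.eq_zero_or_pos t with ht | ht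
    · subst ht
      simp
    · obtain ⟨s, rfl⟩ : ∃ s, t = s + 1 := ⟨t - 1, by omega⟩
      rw [pow_succ] at h
      have h2 := (mul_dvd_mul_iff_right (PowerSeries.X_ne_zero (R := ℚ))).1 h
      simpa using h2
  · have hu : IsUnit ((C c - X : ℚ[X]) : PowerSeries ℚ) := by
      rw [PowerSeries.isUnit_iff_constantCoeff]
      simp [hc]
    have h1 : PowerSeries.X ^ t ∣ f := (IsUnit.dvd_mul_right hu).1 h
    exact (pow_dvd_pow _ (Nat.sub_le t 1)).trans h1

end BBZ
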