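import Mathlib

/-!
# MP_a3a416, zero estimate: Cramer's rule with a degree bound

`ρ_0, …, ρ_{k-1}` polynomial vectors (index type `ι` finite) that are linearly independent over
`K = ℚ(x)`, `deg (ρ_j)_i ≤ D j`; `w` a polynomial vector in their `K`-span.  Then there are a non-zero
polynomial `δ` of degree `≤ ∑ D j` and polynomials `G_j` with `δ w = ∑ G_j ρ_j`.

Proof. The columns of the `k × ι` matrix of the `ρ_j` span `K^k`, so `k` of them have a non-zero
determinant `δ`, of degree `≤ ∑ D j` by the Leibniz formula.  If `w = ∑ g_j ρ_j` then on these columns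
`w adj M = δ g`, so `G := w adj M` is polynomial and `δ w = ∑ G_j ρ_j`.
-/

namespace BBZ

open Polynomial

/-- `k` independent rows have `k` independent columns -/
private theorem cramer_columns {K : Type*} [Field K] {ι : Type*} [Fintype ι] (k : ℕ)
    (A : Matrix (Fin k) ι K) (hA : LinearIndependent K A.row) :
    ∃ f : Fin k → ι, (Matrix.of fun (j l : Fin k) => A j (f l)).det ≠ 0 := by
  classical
  have hrank : A.rank = k := by
    rw [hA.rank_matrix, Fintype.card_fin]
  obtain ⟨κ, a, ha, hspan, hli⟩ := exists_linearIndependent' K A.col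
  have : Finite κ := Finite.of_injective a ha
  have : Fintype κ := Fintype.ofFinite κ
  have hcard : Fintype.card κ = k := by
    rw [← finrank_span_eq_card hli, hspan, ← Matrix.rank_eq_finrank_span_cols, hrank]
  let e : Fin k ≃ κ := (Fintype.equivFinOfCardEq hcard).symm
  refine ⟨a ∘ e, ?_⟩
  have hli2 : LinearIndependent K
      (Matrix.of fun (j l : Fin k) => A j ((a ∘ e) l)).col := by
    have := hli.comp e e.injective
    exact this
  have hu := Matrix.linearIndependent_cols_iff_isUnit.1 hli2
  exact ((Matrix.isUnit_iff_isUnit_det _).1 hu).ne_zero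

theorem cramer {ι : Type*} [Fintype ι] [DecidableEq ι] (k : ℕ) (ρ : Fin k → ι → ℚ[X])
    (hli : LinearIndependent (RatFunc ℚ)
      (fun j : Fin k => fun i : ι => algebraMap ℚ[X] (RatFunc ℚ) (ρ j i)))
    (D : Fin k → ℕ) (hD : ∀ j i, (ρ j i).natDegree ≤ D j)
    (w : ι → ℚ[X])
    (hw : (fun i : ι => algebraMap ℚ[X] (RatFunc ℚ) (w i)) ∈ Submodule.span (RatFunc ℚ)
      (Set.range fun j : Fin k => fun i : ι => algebraMap ℚ[X] (RatFunc ℚ) (ρ j i))) :
    ∃ (δ : ℚ[X]) (G : Fin k → ℚ[X]), δ ≠ 0 ∧ δ.natDegree ≤ ∑ j, D j ∧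
      ∀ i, δ * w i = ∑ j, G j * ρ j i := by
  classical
  set φ : ℚ[X] →+* RatFunc ℚ := algebraMap ℚ[X] (RatFunc ℚ) with hφ
  have hinj : Function.Injective φ := RatFunc.algebraMap_injective ℚ
  obtain ⟨f, hf⟩ := cramer_columns k (Matrix.of fun j i => φ (ρ j i)) hli
  set M : Matrix (Fin k) (Fin k) ℚ[X] := Matrix.of fun j l => ρ j (f l) with hM
  have hMφ : φ.mapMatrix M
      = Matrix.of fun (j l : Fin k) => (Matrix.of fun (j : Fin k) (i : ι) => φ (ρ j i)) j (f l) := by
    ext j l
    simp [hM]
  have hdet : φ M.det ≠ 0 := by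
    rw [RingHom.map_det, hMφ]
    exact hf
  have hdet0 : M.det ≠ 0 := fun h => hdet (by rw [h, map_zero])
  obtain ⟨g, hg⟩ := (Submodule.mem_span_range_iff_exists_fun (RatFunc ℚ)).1 hw
  have hgi : ∀ i, φ (w i) = ∑ j, g j * φ (ρ j i) := by
    intro i
    have := congrFun hg i
    simp only [Finset.sum_apply, Pi.smul_apply, smul_eq_mul] at this
    exact this.symm
  let G : Fin k → ℚ[X] := fun j => ∑ l, w (f l) * M.adjugate l j
  have hG : ∀ j, φ (G j) = φ M.det * g j := by
    intro j
    have h1 : ∀ l j', φ (ρ j' (f l)) = φ (M j' l) := fun l j' => rfl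
    calc φ (G j) = ∑ l, φ (w (f l)) * φ (M.adjugate l j) := by
          simp only [G, map_sum, map_mul]
      _ = ∑ l, (∑ j', g j' * φ (M j' l)) * φ (M.adjugate l j) := by
          refine Finset.sum_congr rfl fun l _ => ?_
          rw [hgi]
          rfl
      _ = ∑ j', g j' * φ (∑ l, M j' l * M.adjugate l j) := by
          simp only [map_sum, map_mul, Finset.sum_mul, Finset.mul_sum]
          rw [Finset.sum_comm]
          refine Finset.sum_congr rfl fun _ _ => Finset.sum_congr rfl fun _ _ => by ring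
      _ = ∑ j', g j' * φ ((M * M.adjugate) j' j) := by
          simp only [Matrix.mul_apply]
      _ = φ M.det * g j := by
          rw [Matrix.mul_adjugate]
          rw [Finset.sum_eq_single j]
          · simp [Matrix.smul_apply, mul_comm]
          · intro b _ hb
            simp [Matrix.smul_apply, Matrix.one_apply_ne hb]
          · intro h
            exact absurd (Finset.mem_univ j) h
  refine ⟨M.det, G, hdet0, ?_, ?_⟩
  · rw [Matrix.det_apply]
    refine natDegree_sum_le_of_forall_le _ _ fun σ _ => ?_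
    have h1 : (Equiv.Perm.sign σ • ∏ i, M (σ i) i).natDegree ≤ (∏ i, M (σ i) i).natDegree := by
      rcases Int.units_eq_one_or (Equiv.Perm.sign σ) with h | h
      · rw [h, one_smul]
      · rw [h, Units.neg_smul, one_smul, natDegree_neg]
    refine h1.trans ((natDegree_prod_le _ _).trans ?_)
    calc ∑ i, (M (σ i) i).natDegree ≤ ∑ i, D (σ i) :=
          Finset.sum_le_sum fun i _ => hD (σ i) (f i)
      _ = ∑ j, D j := Equiv.sum_comp σ D
  · intro i
    apply hinj
    rw [map_mul, hgi, map_sum, Finset.mul_sum]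
    refine Finset.sum_congr rfl fun j _ => ?_
    rw [map_mul, hG]
    ring

end BBZ
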