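import Mathlib

/-!
# MP_a3a416, zero estimate: the first dependent vector of a sequence

In a finite dimensional space a sequence `ρ 0 ≠ 0, ρ 1, …` has a first index `k ≥ 1` with
`ρ k ∈ span(ρ 0, …, ρ (k-1))`; the vectors before it are independent and `k ≤ dim`.
-/

namespace BBZ

theorem firstDep {K V : Type*} [Field K] [AddCommGroup V] [Module K V] [FiniteDimensional K V]
    (ρ : ℕ → V) (h0 : ρ 0 ≠ 0) :
    ∃ k : ℕ, 1 ≤ k ∧ k ≤ Module.finrank K V ∧
      LinearIndependent K (fun j : Fin k => ρ j) ∧
      ρ k ∈ Submodule.span K (Set.range fun j : Fin k => ρ j) := by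
  classical
  have hex : ∃ n : ℕ, ¬ LinearIndependent K (fun j : Fin n => ρ j) := by
    refine ⟨Module.finrank K V + 1, fun h => ?_⟩
    have := h.fintype_card_le_finrank
    simp at this
  have hspec := Nat.find_spec hex
  have hmin : ∀ m, m < Nat.find hex → LinearIndependent K (fun j : Fin m => ρ j) := fun m hm =>
    not_not.1 (Nat.find_min hex hm)
  obtain ⟨n, hn⟩ : ∃ n, n = Nat.find hex := ⟨_, rfl⟩
  rw [← hn] at hspec hmin
  rcases n with _ | k
  · exact absurd (linearIndependent_empty_type (R := K) (v := fun j : Fin 0 => ρ j)) hspec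
  have hli := hmin k (Nat.lt_succ_self k)
  refine ⟨k, ?_, ?_, hli, ?_⟩
  · rcases k with _ | k
    · exfalso
      apply hspec
      have : LinearIndependent K (fun j : Fin 1 => ρ j) := by
        rw [linearIndependent_unique_iff]
        simpa using h0
      exact this
    · exact Nat.succ_le_succ (Nat.zero_le _)
  · simpa using hli.fintype_card_le_finrank
  · by_contra hnot
    apply hspec
    rw [linearIndependent_finSucc']
    refine ⟨hli, fun hmem => hnot ?_⟩
    have hfun : Fin.init (fun j : Fin (k + 1) => ρ j) = fun j : Fin k => ρ j := by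
      funext j
      simp [Fin.init]
    rw [hfun] at hmem
    simpa using hmem

end BBZ
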