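import Pool.Agent.Lib.MP_a3a416_nt.BB.ZCof

/-!
# MP_a3a416, zero estimate: the jets satisfy the difference equation

`(b + d X)² jet d b = b` (b ≥ 1), and: if `v d (n+1) - v d n = ∑_{j=1}^d jet d (dn+j)` then `Hv R v`.
(`lin d j` at `n+u`: `(d+1)(n+u) + (j+1) = ((d+1)n+j+1) + (d+1) u`; multiply by `Lam(n+u)` and use
`lin_sq_mul_cof`, then `(d+1) n + (j+1) = ` `n·(d+1) + (j+1)`.)
-/

namespace BBZ

open Polynomial

private theorem ZJet_coe (d b : ℕ) :
    ((C (b : ℚ) + C (d : ℚ) * X : ℚ[X]) : PowerSeries ℚ) ^ 2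
      = PowerSeries.C ((b : ℚ) ^ 2)
        + (PowerSeries.C (2 * (b : ℚ) * d) + PowerSeries.C ((d : ℚ) ^ 2) * PowerSeries.X)
          * PowerSeries.X := by
  simp only [Polynomial.coe_add, Polynomial.coe_mul, Polynomial.coe_C, Polynomial.coe_X, map_pow,
    map_mul, map_ofNat]
  ring

theorem jet_mul (d b : ℕ) (hb : 1 ≤ b) :
    ((C (b : ℚ) + C (d : ℚ) * X : ℚ[X]) : PowerSeries ℚ) ^ 2 * jet d b
      = ((C (b : ℚ) : ℚ[X]) : PowerSeries ℚ) := by
  have hb0 : (b : ℚ) ≠ 0 := by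
    have : (0 : ℚ) < b := by exact_mod_cast hb
    exact this.ne'
  rw [ZJet_coe, Polynomial.coe_C]
  ext k
  rw [add_mul, map_add, PowerSeries.coeff_C_mul]
  rcases k with _ | k
  · rw [mul_right_comm, PowerSeries.coeff_zero_mul_X]
    simp only [jet, PowerSeries.coeff_mk, PowerSeries.coeff_C, if_true]
    field_simp
    simp
    ring
  · rw [mul_right_comm, PowerSeries.coeff_succ_mul_X, add_mul, map_add, PowerSeries.coeff_C_mul]
    rcases k with _ | k
    · rw [mul_right_comm (PowerSeries.C ((d : ℚ) ^ 2)), PowerSeries.coeff_zero_mul_X]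
      simp only [jet, PowerSeries.coeff_mk, PowerSeries.coeff_C]
      field_simp
      simp
      ring
    · rw [mul_right_comm (PowerSeries.C ((d : ℚ) ^ 2)), PowerSeries.coeff_succ_mul_X,
        PowerSeries.coeff_C_mul]
      simp only [jet, PowerSeries.coeff_mk, PowerSeries.coeff_C]
      rw [if_neg (by omega)]
      push_cast
      field_simp
      ring

private theorem ZJet_taylor_lin (n d j : ℕ) :
    taylor (n : ℚ) (lin d j)
      = C ((((d + 1) * n + (j + 1) : ℕ) : ℚ)) + C (((d + 1 : ℕ) : ℚ)) * X := by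
  rw [lin, map_add, taylor_mul, taylor_C, taylor_C, taylor_X]
  push_cast
  simp only [map_add, map_mul, map_one, map_natCast]
  ring

private theorem ZJet_term (R n d j : ℕ) (hd : d < R) (hj : j ≤ d) :
    ((taylor (n : ℚ) (Lam R) : ℚ[X]) : PowerSeries ℚ) * jet (d + 1) ((d + 1) * n + (j + 1))
      = ((C (n : ℚ) * taylor (n : ℚ) (C ((d : ℚ) + 1) * cof R d j)
        + taylor (n : ℚ) (C ((j : ℚ) + 1) * cof R d j) : ℚ[X]) : PowerSeries ℚ) := by
  rw [← lin_sq_mul_cof hd hj, taylor_mul, taylor_pow, ZJet_taylor_lin, Polynomial.coe_mul,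
    Polynomial.coe_pow, mul_right_comm, jet_mul _ _ (by omega), ← Polynomial.coe_mul]
  congr 1
  rw [taylor_mul, taylor_mul, taylor_C, taylor_C]
  push_cast
  simp only [map_add, map_mul, map_one, map_natCast]
  ring

theorem Hv_of_jet (R : ℕ) (v : ℕ → ℕ → PowerSeries ℚ)
    (hv : ∀ d, 1 ≤ d → d ≤ R → ∀ n,
      v d (n + 1) - v d n = ∑ j ∈ Finset.Icc 1 d, jet d (d * n + j)) : Hv R v := by
  intro d hd n
  rw [hv (d + 1) (by omega) (by omega) n]
  have h1 : ∑ j ∈ Finset.Icc 1 (d + 1), jet (d + 1) ((d + 1) * n + j)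
      = ∑ j ∈ Finset.range (d + 1), jet (d + 1) ((d + 1) * n + (j + 1)) := by
    rw [Finset.range_eq_Ico, Finset.sum_Ico_add' (fun j => jet (d + 1) ((d + 1) * n + j)) 0 (d + 1) 1]
    congr 1
  rw [h1, Finset.mul_sum, Finset.sum_congr rfl fun j hj =>
    ZJet_term R n d j hd (Nat.lt_succ_iff.mp (Finset.mem_range.mp hj))]
  rw [AA, GG, map_sum, map_sum, Finset.mul_sum, ← Finset.sum_add_distrib]
  rw [← Polynomial.coeToPowerSeries.ringHom_apply, map_sum]
  rfl

end BBZ
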