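import Pool.Agent.Lib.MP_a3a416_nt.BB.ZDefs

/-!
# MP_a3a416, zero estimate: the operator `τ` and the jets

`F_n(G P) = G(n+u) F_n(P)`, `F_n(∑ …) = ∑ …`, and `F_n(τ P) = Lam(n+u) F_{n+1}(P)`.
Degree bound of the iterates of `τ`.  `toK (τ P) = Lam • Φ (toK P)`; `Φ` is additive and semilinear.
-/

namespace BBZ

open Polynomial

theorem FF_smul (R : ℕ) (v : ℕ → ℕ → PowerSeries ℚ) (n : ℕ) (G : ℚ[X]) (P : Ix R → ℚ[X]) :
    FF R v n (fun i => G * P i) = ((taylor (n : ℚ) G : ℚ[X]) : PowerSeries ℚ) * FF R v n P := by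
  unfold FF
  simp only [taylor_mul, Polynomial.coe_mul, mul_add, Finset.mul_sum]
  refine congrArg₂ (· + ·) (congrArg₂ (· + ·) rfl ?_) (Finset.sum_congr rfl fun d _ => ?_)
  · ring
  · ring

private theorem ZTau_zero (R : ℕ) (v : ℕ → ℕ → PowerSeries ℚ) (n : ℕ) :
    FF R v n (fun _ => 0) = 0 := by
  unfold FF
  simp

private theorem ZTau_add (R : ℕ) (v : ℕ → ℕ → PowerSeries ℚ) (n : ℕ) (P Q : Ix R → ℚ[X]) :
    FF R v n (fun i => P i + Q i) = FF R v n P + FF R v n Q := by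
  unfold FF
  simp only [map_add, mul_add, Polynomial.coe_add, add_mul, Finset.sum_add_distrib]
  ring

theorem FF_sum (R : ℕ) (v : ℕ → ℕ → PowerSeries ℚ) (n : ℕ) {κ : Type*} (s : Finset κ)
    (P : κ → Ix R → ℚ[X]) :
    FF R v n (fun i => ∑ j ∈ s, P j i) = ∑ j ∈ s, FF R v n (P j) := by
  classical
  induction s using Finset.induction_on with
  | empty =>
    simp only [Finset.sum_empty]
    exact ZTau_zero R v n
  | insert a s ha ih =>
    simp only [Finset.sum_insert ha]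
    rw [ZTau_add, ih]

private theorem ZTau_taylor (n : ℕ) (p : ℚ[X]) :
    taylor (n : ℚ) (taylor 1 p) = taylor ((n + 1 : ℕ) : ℚ) p := by
  rw [taylor_taylor]
  push_cast
  rfl

theorem FF_tau (R : ℕ) (v : ℕ → ℕ → PowerSeries ℚ) (hv : Hv R v) (n : ℕ) (P : Ix R → ℚ[X]) :
    FF R v n (tau R P) = ((taylor (n : ℚ) (Lam R) : ℚ[X]) : PowerSeries ℚ) * FF R v (n + 1) P := by
  have h1 : ∀ d : Fin R, ((taylor (n : ℚ) (Lam R) : ℚ[X]) : PowerSeries ℚ) * v (d + 1) (n + 1) =
      ((taylor (n : ℚ) (Lam R) : ℚ[X]) : PowerSeries ℚ) * v (d + 1) n +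
        ((C (n : ℚ) : ℚ[X]) : PowerSeries ℚ) * ((taylor (n : ℚ) (AA R d) : ℚ[X]) : PowerSeries ℚ) +
        ((taylor (n : ℚ) (GG R d) : ℚ[X]) : PowerSeries ℚ) := by
    intro d
    have h := hv d d.isLt n
    rw [Polynomial.coe_add, Polynomial.coe_mul] at h
    rw [mul_sub] at h
    linear_combination h
  have hC : ((C ((n + 1 : ℕ) : ℚ) : ℚ[X]) : PowerSeries ℚ) =
      ((C (n : ℚ) : ℚ[X]) : PowerSeries ℚ) + 1 := by
    rw [← Polynomial.coe_one, ← Polynomial.coe_add]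
    congr 1
    push_cast
    rw [C_add, C_1]
  have hsum : ∀ f : Fin R → ℚ[X], ((∑ d, f d : ℚ[X]) : PowerSeries ℚ) =
      ∑ d, ((f d : ℚ[X]) : PowerSeries ℚ) := by
    intro f
    exact map_sum (Polynomial.coeToPowerSeries.ringHom (R := ℚ)) f Finset.univ
  unfold FF
  simp only [tau, Sum.elim_inl, Sum.elim_inr, if_true, one_ne_zero, if_false, map_add, map_sum,
    taylor_mul, ZTau_taylor, Polynomial.coe_add, Polynomial.coe_mul, hsum, hC, mul_add,
    Finset.mul_sum]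
  have h2 : ∀ d : Fin R, ((taylor (n : ℚ) (Lam R) : ℚ[X]) : PowerSeries ℚ) *
      (((taylor ((n + 1 : ℕ) : ℚ) (P (Sum.inr d)) : ℚ[X]) : PowerSeries ℚ) * v (d + 1) (n + 1)) =
      ((taylor (n : ℚ) (Lam R) : ℚ[X]) : PowerSeries ℚ) *
        ((taylor ((n + 1 : ℕ) : ℚ) (P (Sum.inr d)) : ℚ[X]) : PowerSeries ℚ) * v (d + 1) n +
      ((C (n : ℚ) : ℚ[X]) : PowerSeries ℚ) *
        (((taylor ((n + 1 : ℕ) : ℚ) (P (Sum.inr d)) : ℚ[X]) : PowerSeries ℚ) *
          ((taylor (n : ℚ) (AA R d) : ℚ[X]) : PowerSeries ℚ)) +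
      ((taylor ((n + 1 : ℕ) : ℚ) (P (Sum.inr d)) : ℚ[X]) : PowerSeries ℚ) *
          ((taylor (n : ℚ) (GG R d) : ℚ[X]) : PowerSeries ℚ) := by
    intro d
    linear_combination
      ((taylor ((n + 1 : ℕ) : ℚ) (P (Sum.inr d)) : ℚ[X]) : PowerSeries ℚ) * h1 d
  rw [Finset.sum_congr rfl fun d _ => h2 d, Finset.sum_add_distrib, Finset.sum_add_distrib]
  ring

/-- the iterates vanish too, at one point less each time -/
theorem FF_iterate (R : ℕ) (v : ℕ → ℕ → PowerSeries ℚ) (hv : Hv R v) (P : Ix R → ℚ[X]) (N T : ℕ)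
    (h : ∀ n < N, PowerSeries.X ^ T ∣ FF R v n P) (j n : ℕ) (hn : n + j < N) :
    PowerSeries.X ^ T ∣ FF R v n ((tau R)^[j] P) := by
  induction j generalizing n with
  | zero => exact h n (by omega)
  | succ j ih =>
    rw [Function.iterate_succ_apply', FF_tau R v hv]
    exact Dvd.dvd.mul_left (ih (n + 1) (by omega)) _

private theorem ZTau_deg (R D ℓ : ℕ) (hL : (Lam R).natDegree ≤ ℓ)
    (hA : ∀ d < R, (AA R d).natDegree ≤ ℓ) (hG : ∀ d < R, (GG R d).natDegree ≤ ℓ)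
    (P : Ix R → ℚ[X]) (hP : ∀ i, (P i).natDegree ≤ D) (i : Ix R) :
    (tau R P i).natDegree ≤ D + ℓ := by
  have hT : ∀ i, (taylor 1 (P i)).natDegree ≤ D := fun i => by
    rw [natDegree_taylor]
    exact hP i
  have h1 : ∀ i, (Lam R * taylor 1 (P i)).natDegree ≤ D + ℓ := fun i => by
    refine le_trans natDegree_mul_le ?_
    have := hT i
    omega
  have h2 : ∀ d : Fin R, (taylor 1 (P (Sum.inr d)) * GG R d).natDegree ≤ D + ℓ := fun d => by
    refine le_trans natDegree_mul_le ?_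
    have := hT (Sum.inr d)
    have := hG d d.isLt
    omega
  have h3 : ∀ d : Fin R, (taylor 1 (P (Sum.inr d)) * AA R d).natDegree ≤ D + ℓ := fun d => by
    refine le_trans natDegree_mul_le ?_
    have := hT (Sum.inr d)
    have := hA d d.isLt
    omega
  rcases i with i | d
  · simp only [tau, Sum.elim_inl]
    split_ifs
    · refine le_trans (natDegree_add_le _ _) (max_le (le_trans (natDegree_add_le _ _)
        (max_le (h1 _) (h1 _))) ?_)
      exact natDegree_sum_le_of_forall_le _ _ fun d _ => h2 d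
    · refine le_trans (natDegree_add_le _ _) (max_le (h1 _) ?_)
      exact natDegree_sum_le_of_forall_le _ _ fun d _ => h3 d
  · simp only [tau, Sum.elim_inr]
    exact h1 _

theorem tau_natDegree (R D ℓ : ℕ) (hL : (Lam R).natDegree ≤ ℓ)
    (hA : ∀ d < R, (AA R d).natDegree ≤ ℓ) (hG : ∀ d < R, (GG R d).natDegree ≤ ℓ)
    (P : Ix R → ℚ[X]) (hP : ∀ i, (P i).natDegree ≤ D) (j : ℕ) (i : Ix R) :
    ((tau R)^[j] P i).natDegree ≤ D + j * ℓ := by
  induction j generalizing i with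
  | zero =>
    rw [zero_mul, add_zero]
    exact hP i
  | succ j ih =>
    rw [Function.iterate_succ_apply', add_mul, one_mul, ← add_assoc]
    exact ZTau_deg R (D + j * ℓ) ℓ hL hA hG _ ih i

theorem toK_tau (R : ℕ) (hL : Lam R ≠ 0) (P : Ix R → ℚ[X]) :
    toK (tau R P) = algebraMap ℚ[X] (RatFunc ℚ) (Lam R) • Phi R (toK P) := by
  have hL' : algebraMap ℚ[X] (RatFunc ℚ) (Lam R) ≠ 0 := by
    rw [Ne, FaithfulSMul.algebraMap_eq_zero_iff]
    exact hL
  have hg : ∀ (d : Fin R) (z : RatFunc ℚ), algebraMap ℚ[X] (RatFunc ℚ) (Lam R) * (z * gK R d) =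
      z * algebraMap ℚ[X] (RatFunc ℚ) (GG R d) := by
    intro d z
    unfold gK
    field_simp
  have ha : ∀ (d : Fin R) (z : RatFunc ℚ), algebraMap ℚ[X] (RatFunc ℚ) (Lam R) * (z * aK R d) =
      z * algebraMap ℚ[X] (RatFunc ℚ) (AA R d) := by
    intro d z
    unfold aK
    field_simp
  funext i
  rw [Pi.smul_apply, smul_eq_mul]
  rcases i with i | d
  · by_cases hi : i = 0
    · simp only [toK, tau, Phi, Sum.elim_inl, if_pos hi, map_add, map_mul, map_sum, sh_algebraMap,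
        mul_add, Finset.mul_sum, hg]
    · simp only [toK, tau, Phi, Sum.elim_inl, if_neg hi, map_add, map_mul, map_sum, sh_algebraMap,
        mul_add, Finset.mul_sum, ha]
  · simp only [toK, tau, Phi, Sum.elim_inr, map_mul, sh_algebraMap]

theorem Phi_add (R : ℕ) (w w' : Ix R → RatFunc ℚ) : Phi R (w + w') = Phi R w + Phi R w' := by
  funext i
  rcases i with i | d
  · by_cases hi : i = 0
    · simp only [Phi, Pi.add_apply, Sum.elim_inl, if_pos hi, map_add, add_mul,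
        Finset.sum_add_distrib]
      ring
    · simp only [Phi, Pi.add_apply, Sum.elim_inl, if_neg hi, map_add, add_mul,
        Finset.sum_add_distrib]
      ring
  · simp only [Phi, Pi.add_apply, Sum.elim_inr, map_add]

theorem Phi_smul (R : ℕ) (c : RatFunc ℚ) (w : Ix R → RatFunc ℚ) :
    Phi R (c • w) = sh c • Phi R w := by
  funext i
  rcases i with i | d
  · by_cases hi : i = 0
    · simp only [Phi, Pi.smul_apply, smul_eq_mul, Sum.elim_inl, if_pos hi, map_mul, mul_add,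
        Finset.mul_sum, mul_assoc]
    · simp only [Phi, Pi.smul_apply, smul_eq_mul, Sum.elim_inl, if_neg hi, map_mul, mul_add,
        Finset.mul_sum, mul_assoc]
  · simp only [Phi, Pi.smul_apply, smul_eq_mul, Sum.elim_inr, map_mul]

theorem Phi_zero (R : ℕ) : Phi R 0 = 0 := by
  have h := Phi_smul R 0 0
  rw [zero_smul, map_zero, zero_smul] at h
  exact h

end BBZ
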