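import Pool.Agent.Lib.MP_a3a416_nt.BB.ZStable
import Pool.Agent.Lib.MP_a3a416_nt.BB.ZFirst
import Pool.Agent.Lib.MP_a3a416_nt.BB.ZCramer
import Pool.Agent.Lib.MP_a3a416_nt.BB.ZTau
import Pool.Agent.Lib.MP_a3a416_nt.BB.ZCount
import Pool.Agent.Lib.MP_a3a416_nt.BB.ZJet

/-!
# MP_a3a416: the zero estimate

`ρ_0 = (0,0,P_1,…,P_R)`, `ρ_j = τ^j ρ_0`.  `k` = first index with `ρ_k ∈ span_{ℚ(x)}(ρ_0..ρ_{k-1}) =: W`
(`firstDep`), `k ≤ R+2`.  `W` is `Φ`-stable.  `stable` gives `w ∈ W`; `cramer` gives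
`δ w = ∑ G_j ρ_j`; apply `F_n`, `n + k ≤ N`: `X^T ∣ δ(n+u) F_n(w)`, `F_n(w) ∈ {1, c - u}`, so
`X^(T-1) ∣ δ(n+u)`; `count`.
-/

namespace BBZ

open Polynomial

/-- the starting vector -/
noncomputable def rho0 (R : ℕ) (P : ℕ → ℚ[X]) : Ix R → ℚ[X] :=
  Sum.elim (fun _ => 0) (fun d => P (d + 1))

theorem FF_rho0 (R : ℕ) (v : ℕ → ℕ → PowerSeries ℚ) (P : ℕ → ℚ[X]) (n : ℕ) :
    FF R v n (rho0 R P)
      = ∑ d ∈ Finset.Icc 1 R, ((taylor (n : ℚ) (P d) : ℚ[X]) : PowerSeries ℚ) * v d n := by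
  have h1 : ∑ d ∈ Finset.Icc 1 R, ((taylor (n : ℚ) (P d) : ℚ[X]) : PowerSeries ℚ) * v d n
      = ∑ d ∈ Finset.range R, ((taylor (n : ℚ) (P (d + 1)) : ℚ[X]) : PowerSeries ℚ) * v (d + 1) n := by
    rw [Finset.sum_bij' (fun d _ => d - 1) (fun d _ => d + 1)]
    · intro d hd
      simp only [Finset.mem_Icc, Finset.mem_range] at *
      omega
    · intro d hd
      simp only [Finset.mem_Icc, Finset.mem_range] at *
      omega
    · intro d hd
      simp only [Finset.mem_Icc] at *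
      omega
    · intro d hd
      simp
    · intro d hd
      simp only [Finset.mem_Icc] at hd
      rw [show d - 1 + 1 = d by omega]
  rw [h1, Finset.sum_range]
  simp [FF, rho0]

/-- `Φ` of a combination -/
theorem Phi_sum (R k : ℕ) (c : Fin k → RatFunc ℚ) (r : Fin k → Ix R → RatFunc ℚ) :
    Phi R (∑ j, c j • r j) = ∑ j, sh (c j) • Phi R (r j) := by
  classical
  have : ∀ s : Finset (Fin k), Phi R (∑ j ∈ s, c j • r j) = ∑ j ∈ s, sh (c j) • Phi R (r j) := by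
    intro s
    induction s using Finset.induction_on with
    | empty => simp [Phi_zero]
    | insert a s ha ih => rw [Finset.sum_insert ha, Finset.sum_insert ha, Phi_add, Phi_smul, ih]
  exact this _

theorem FF_special (R : ℕ) (v : ℕ → ℕ → PowerSeries ℚ) (n T : ℕ) (δ : ℚ[X]) (w : Ix R → ℚ[X])
    (hw : ∀ d, w (Sum.inr d) = 0)
    (hw' : (w (Sum.inl 0) = 1 ∧ w (Sum.inl 1) = 0) ∨
        ∃ c : ℚ, w (Sum.inl 0) = C c - X ∧ w (Sum.inl 1) = 1)
    (h : PowerSeries.X ^ T ∣ ((taylor (n : ℚ) δ : ℚ[X]) : PowerSeries ℚ) * FF R v n w) :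
    PowerSeries.X ^ (T - 1) ∣ ((taylor (n : ℚ) δ : ℚ[X]) : PowerSeries ℚ) := by
  rcases hw' with ⟨h0, h1⟩ | ⟨c, h0, h1⟩
  · have hF : FF R v n w = 1 := by
      simp [FF, hw, h0, h1]
    rw [hF, mul_one] at h
    exact (pow_dvd_pow _ (Nat.sub_le T 1)).trans h
  · have hF : FF R v n w = ((C c - X : ℚ[X]) : PowerSeries ℚ) := by
      simp only [FF, hw, h0, h1]
      simp only [map_zero, Polynomial.coe_zero, zero_mul, Finset.sum_const_zero, add_zero]
      rw [← Polynomial.coe_add]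
      congr 1
      simp only [map_sub, taylor_C, taylor_X, taylor_one]
      rw [C_1, mul_one]
      ring
    rw [hF] at h
    exact dvd_of_mul_linear _ c T h

theorem zeroEstimate (R N T D : ℕ) (v : ℕ → ℕ → PowerSeries ℚ)
    (hv : ∀ d, 1 ≤ d → d ≤ R → ∀ n,
      v d (n + 1) - v d n = ∑ j ∈ Finset.Icc 1 d, jet d (d * n + j))
    (P : ℕ → ℚ[X]) (hdeg : ∀ d ∈ Finset.Icc 1 R, (P d).natDegree < D)
    (hne : ∃ d ∈ Finset.Icc 1 R, P d ≠ 0)
    (hvan : ∀ n < N, PowerSeries.X ^ T ∣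
      ∑ d ∈ Finset.Icc 1 R, ((taylor (n : ℚ) (P d) : ℚ[X]) : PowerSeries ℚ) * v d n) :
    (N - R - 1) * (T - 1) ≤ (R + 2) * D + (R + 2) ^ 2 * (R * (R + 1)) := by
  have hHv := Hv_of_jet R v hv
  set ρ : ℕ → Ix R → ℚ[X] := fun j => (tau R)^[j] (rho0 R P) with hρ
  have hρs : ∀ j, ρ (j + 1) = tau R (ρ j) := fun j => by
    simp only [hρ]; rw [Function.iterate_succ_apply']
  set r : ℕ → Ix R → RatFunc ℚ := fun j => toK (ρ j) with hr
  have hL := Lam_ne_zero R
  have hLK : algebraMap ℚ[X] (RatFunc ℚ) (Lam R) ≠ 0 := by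
    simpa using (map_ne_zero_iff _ (IsFractionRing.injective ℚ[X] (RatFunc ℚ))).2 hL
  have hrs : ∀ j, r (j + 1) = algebraMap ℚ[X] (RatFunc ℚ) (Lam R) • Phi R (r j) := fun j => by
    simp only [hr]; rw [hρs j, toK_tau R hL]
  -- the starting vector is non-zero
  have h0 : r 0 ≠ 0 := by
    intro h
    obtain ⟨d, hd, hPd⟩ := hne
    rw [Finset.mem_Icc] at hd
    have h1 := congrFun h (Sum.inr ⟨d - 1, by omega⟩)
    simp only [hr, hρ, toK, rho0, Function.iterate_zero, id, Sum.elim_inr, Pi.zero_apply] at h1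
    rw [show d - 1 + 1 = d by omega] at h1
    exact hPd ((map_eq_zero_iff _ (IsFractionRing.injective ℚ[X] (RatFunc ℚ))).1 h1)
  obtain ⟨k, hk1, hkR, hli, hdep⟩ := firstDep (K := RatFunc ℚ) r h0
  have hcard : Module.finrank (RatFunc ℚ) (Ix R → RatFunc ℚ) = R + 2 := by
    rw [Module.finrank_fintype_fun_eq_card]; simp [Ix, add_comm]
  rw [hcard] at hkR
  set W : Submodule (RatFunc ℚ) (Ix R → RatFunc ℚ) :=
    Submodule.span (RatFunc ℚ) (Set.range fun j : Fin k => r j) with hW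
  have hWmem : ∀ j, j ≤ k → r j ∈ W := by
    intro j hj
    rcases Nat.lt_or_ge j k with h | h
    · exact Submodule.subset_span ⟨⟨j, h⟩, rfl⟩
    · have : j = k := le_antisymm hj h
      rw [this]; exact hdep
  have hWne : W ≠ ⊥ := by
    intro h
    apply h0
    have := hWmem 0 (Nat.zero_le _)
    rw [h] at this
    simpa using this
  have hst : ∀ w ∈ W, Phi R w ∈ W := by
    intro w hw
    obtain ⟨c, rfl⟩ := (Submodule.mem_span_range_iff_exists_fun (RatFunc ℚ)).1 hw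
    rw [Phi_sum]
    refine Submodule.sum_mem _ fun j _ => Submodule.smul_mem _ _ ?_
    have h2 : Phi R (r j) = (algebraMap ℚ[X] (RatFunc ℚ) (Lam R))⁻¹ • r (j + 1) := by
      rw [hrs, smul_smul, inv_mul_cancel₀ hLK, one_smul]
    rw [h2]
    exact Submodule.smul_mem _ _ (hWmem _ j.2)
  obtain ⟨w, hwW, hwr, hw'⟩ := stable R W hWne hst
  -- degrees
  have hdeg' : ∀ j : Fin k, ∀ i, (ρ j i).natDegree ≤ D + j * (R * (R + 1)) := by
    intro j i
    refine tau_natDegree R D (R * (R + 1)) (Lam_natDegree R) (AA_natDegree R) (GG_natDegree R)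
      (rho0 R P) ?_ j i
    intro i
    rcases i with i | d
    · simp [rho0]
    · simp only [rho0, Sum.elim_inr]
      exact (hdeg (d + 1) (by rw [Finset.mem_Icc]; omega)).le
  obtain ⟨δ, G, hδ, hδdeg, hG⟩ := cramer k (fun j : Fin k => ρ j) hli
    (fun j => D + j * (R * (R + 1))) hdeg' w hwW
  -- vanishing
  have hvan' : ∀ n < N, PowerSeries.X ^ T ∣ FF R v n (rho0 R P) := by
    intro n hn; rw [FF_rho0]; exact hvan n hn
  have hzero : ∀ n < N - R - 1,
      PowerSeries.X ^ (T - 1) ∣ ((taylor (n : ℚ) δ : ℚ[X]) : PowerSeries ℚ) := by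
    intro n hn
    refine FF_special R v n T δ w hwr hw' ?_
    rw [← FF_smul]
    have h3 : (fun i => δ * w i) = (fun i => ∑ j ∈ Finset.univ, (fun j i => G j * ρ j i) j i) := by
      funext i; exact hG i
    rw [h3, FF_sum]
    refine Finset.dvd_sum fun j _ => ?_
    have h4 : FF R v n ((fun (j : Fin k) i => G j * ρ j i) j)
        = ((taylor (n : ℚ) (G j) : ℚ[X]) : PowerSeries ℚ) * FF R v n (ρ j) := FF_smul R v n (G j) (ρ j)
    rw [h4]
    refine Dvd.dvd.mul_left ?_ _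
    exact FF_iterate R v hHv (rho0 R P) N T hvan' j n (by have := j.2; omega)
  have hcount := count δ hδ (N - R - 1) (T - 1) hzero
  refine hcount.trans (hδdeg.trans ?_)
  calc ∑ j : Fin k, (D + (j : ℕ) * (R * (R + 1)))
      ≤ ∑ _j : Fin k, (D + (R + 2) * (R * (R + 1))) := by
        refine Finset.sum_le_sum fun j _ => ?_
        have : (j : ℕ) ≤ R + 2 := by have := j.2; omega
        gcongr
    _ = k * (D + (R + 2) * (R * (R + 1))) := by simp
    _ ≤ (R + 2) * (D + (R + 2) * (R * (R + 1))) := by gcongr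
    _ = (R + 2) * D + (R + 2) ^ 2 * (R * (R + 1)) := by ring

end BBZ
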