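import Pool.Agent.Lib.MP_a3a416_nt.BB.Defs
import Pool.Agent.Lib.MP_a3a416_nt.BB.ZMain

namespace MP_a3a416_nt.BB

open Polynomial

/-- Zero estimate (helper94, boards BBZ-). -/
theorem zeroEstimate (R N T D : ℕ) (v : ℕ → ℕ → PowerSeries ℚ)
    (hv : ∀ d, 1 ≤ d → d ≤ R → ∀ n, v d (n + 1) - v d n = ∑ j ∈ Finset.Icc 1 d, jet d (d * n + j))
    (P : ℕ → ℚ[X]) (hdeg : ∀ d ∈ Finset.Icc 1 R, (P d).natDegree < D)
    (hne : ∃ d ∈ Finset.Icc 1 R, P d ≠ 0)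
    (hvan : ∀ n < N, (PowerSeries.X : PowerSeries ℚ) ^ T ∣
      ∑ d ∈ Finset.Icc 1 R, ((taylor (n : ℚ) (P d) : ℚ[X]) : PowerSeries ℚ) * v d n) :
    (N - R - 1) * (T - 1) ≤ (R + 2) * D + (R + 2) ^ 2 * (R * (R + 1)) :=
  BBZ.zeroEstimate R N T D v hv P hdeg hne hvan

end MP_a3a416_nt.BB
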