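import Pool.Agent.Lib.MP_a3a416_nt.BB.BR3
import Pool.Agent.Lib.MP_a3a416_nt.BB.BR5
import Pool.Agent.Lib.MP_a3a416_nt.BB.ZeroEst
import Pool.Agent.Lib.MP_a3a416_nt.BB.Auxi

/-!
Module BR6 (MP_a3a416_nt, BB).  Some jet of `rr` of order `< 8R^2` is non-zero.
-/

namespace MP_a3a416_nt.BB

open Polynomial

theorem numeric_aux {R N : ℕ} (hR : 12 ≤ R) (hN : 10 * R ^ 2 ≤ N) :
    (R + 2) * (6 * R * N) + (R + 2) ^ 2 * (R * (R + 1)) < (N - R - 1) * (8 * R ^ 2 - 1) := by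
  have hRN : R + 1 ≤ N := by nlinarith
  obtain ⟨M, rfl⟩ : ∃ M, N = M + R + 1 := ⟨N - R - 1, by omega⟩
  have hM : M + R + 1 - R - 1 = M := by omega
  rw [hM]
  obtain ⟨T, hT⟩ : ∃ T, 8 * R ^ 2 = T + 1 := ⟨8 * R ^ 2 - 1, by
    have : 1 ≤ 8 * R ^ 2 := by nlinarith
    omega⟩
  have hT' : 8 * R ^ 2 - 1 = T := by omega
  rw [hT']
  have hM9 : 9 * R ^ 2 ≤ M := by nlinarith
  obtain ⟨r, rfl⟩ : ∃ r, R = r + 12 := ⟨R - 12, by omega⟩
  obtain ⟨m, rfl⟩ : ∃ m, M = 9 * (r + 12) ^ 2 + m := ⟨M - 9 * (r + 12) ^ 2, by omega⟩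
  have hTz : T = 8 * (r + 12) ^ 2 - 1 := by omega
  have hTT : T = 8 * r ^ 2 + 192 * r + 1151 := by
    have : 8 * (r + 12) ^ 2 = 8 * r ^ 2 + 192 * r + 1152 := by ring
    omega
  rw [hTT]
  have hz : ((r + 12 + 2) * (6 * (r + 12) * (9 * (r + 12) ^ 2 + m + (r + 12) + 1))
      + (r + 12 + 2) ^ 2 * ((r + 12) * (r + 12 + 1)) : ℤ)
      < (9 * (r + 12) ^ 2 + m) * (8 * r ^ 2 + 192 * r + 1151) := by
    have hr : (0 : ℤ) ≤ r := by positivity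
    have hm : (0 : ℤ) ≤ m := by positivity
    have h1 : (9 * ((r : ℤ) + 12) ^ 2 + m) * (8 * r ^ 2 + 192 * r + 1151)
      - ((r + 12 + 2) * (6 * (r + 12) * (9 * (r + 12) ^ 2 + m + (r + 12) + 1))
      + (r + 12 + 2) ^ 2 * ((r + 12) * (r + 12 + 1)))
      = ((9 * ((r : ℤ) + 12) ^ 2 + m) * (8 * r ^ 2 + 192 * r + 1151)
      - ((r + 12 + 2) * (6 * (r + 12) * (9 * (r + 12) ^ 2 + m + (r + 12) + 1))
      + (r + 12 + 2) ^ 2 * ((r + 12) * (r + 12 + 1)))) := rfl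
    ring_nf
    nlinarith [mul_nonneg hr hm, mul_nonneg hm (mul_nonneg hr hr), pow_nonneg hr 2,
      pow_nonneg hr 3, pow_nonneg hr 4]
  exact_mod_cast hz

theorem exists_jet_ne_zero {R N : ℕ} (hR : 12 ≤ R) (hN : 10 * R ^ 2 ≤ N) (c : ℕ × ℕ × ℕ → ℤ)
    (hc : ∃ x ∈ idx R N, c x ≠ 0) :
    ∃ n < N, ∃ k < 8 * R ^ 2, (rr R N c n).coeff k ≠ 0 := by
  by_contra hcon
  push Not at hcon
  have hN1 : 1 ≤ N := by nlinarith
  set f := Int.castRingHom ℚ with hf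
  have hinj : Function.Injective f := Int.cast_injective
  have h := zeroEstimate R N (8 * R ^ 2) (6 * R * N) vser
    (fun d _ _ n => vser_succ_sub d n)
    (fun d => (PP R N c d).map f)
    (fun d hd => lt_of_le_of_lt natDegree_map_le (natDegree_PP_lt hN1 c hd))
    (by
      obtain ⟨d, hd, hne⟩ := exists_PP_ne_zero c hc
      exact ⟨d, hd, (Polynomial.map_ne_zero_iff hinj).2 hne⟩)
    (by
      intro n hn
      rw [← rr_eq_series c hn, PowerSeries.X_pow_dvd_iff]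
      intro k hk
      rw [Polynomial.coeff_coe, coeff_map, hcon n hn k hk, map_zero])
  have h2 := numeric_aux hR hN
  omega

end MP_a3a416_nt.BB
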