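import Pool.Agent.Lib.MP_a3a416_nt.BB.Defs

/-!
# Sizes: coefficients of `basW`, and `log DD`
-/

open Finset Polynomial

namespace MP_a3a416_nt.BB

/-- `|coeff_k P| ≤ R^k F_k` for a polynomial `F` with natural coefficients. -/
def Sz (R : ℕ) (F : ℕ[X]) (P : ℤ[X]) : Prop := ∀ k, |P.coeff k| ≤ ((R ^ k * F.coeff k : ℕ) : ℤ)

theorem Sz.one (R : ℕ) : Sz R 1 1 := by
  intro k
  rcases k with _ | k
  · simp
  · simp [coeff_one]

theorem Sz.mul {R : ℕ} {F G : ℕ[X]} {P Q : ℤ[X]} (h : Sz R F P) (h' : Sz R G Q) :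
    Sz R (F * G) (P * Q) := by
  intro k
  rw [coeff_mul, coeff_mul]
  refine (abs_sum_le_sum_abs _ _).trans ?_
  push_cast
  rw [mul_sum]
  apply sum_le_sum
  intro ij hij
  rw [Finset.HasAntidiagonal.mem_antidiagonal] at hij
  rw [abs_mul]
  have h1 := h ij.1
  have h2 := h' ij.2
  push_cast at h1 h2
  calc |P.coeff ij.1| * |Q.coeff ij.2|
      ≤ ((R : ℤ) ^ ij.1 * (F.coeff ij.1 : ℤ)) * ((R : ℤ) ^ ij.2 * (G.coeff ij.2 : ℤ)) :=
        mul_le_mul h1 h2 (abs_nonneg _) (by positivity)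
    _ = (R : ℤ) ^ k * ((F.coeff ij.1 : ℤ) * (G.coeff ij.2 : ℤ)) := by
        rw [← hij, pow_add]; ring

theorem Sz.pow {R : ℕ} {F : ℕ[X]} {P : ℤ[X]} (h : Sz R F P) (a : ℕ) : Sz R (F ^ a) (P ^ a) := by
  induction a with
  | zero => simpa using Sz.one R
  | succ a ih => rw [pow_succ, pow_succ]; exact ih.mul h

theorem Sz.prod {ι : Type*} {R : ℕ} (s : Finset ι) (F : ι → ℕ[X]) (P : ι → ℤ[X])
    (h : ∀ i ∈ s, Sz R (F i) (P i)) : Sz R (∏ i ∈ s, F i) (∏ i ∈ s, P i) := by
  classical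
  induction s using Finset.induction_on with
  | empty => simpa using Sz.one R
  | insert a s ha ih =>
    rw [prod_insert ha, prod_insert ha]
    exact (h a (mem_insert_self a s)).mul (ih (fun i hi => h i (mem_insert_of_mem hi)))

theorem Sz.linear {R e : ℕ} (he : e ≤ R) (z : ℤ) :
    Sz R (X + C z.natAbs) (C (e : ℤ) * X + C z) := by
  intro k
  rcases k with _ | k
  · simp
  · rcases k with _ | k
    · simp only [coeff_add, coeff_C_mul, coeff_X, coeff_C]
      simp
      exact_mod_cast he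
    · have h0 : (C (e : ℤ) * X + C z : ℤ[X]).coeff (k + 1 + 1) = 0 := by
        rw [coeff_add, coeff_C_mul, coeff_X, coeff_C]; simp
      rw [h0, abs_zero]
      exact Int.natCast_nonneg _

theorem coeff_le_eval_one (F : ℕ[X]) (k : ℕ) : F.coeff k ≤ F.eval 1 := by
  rw [eval_eq_sum, Polynomial.sum]
  simp only [one_pow, mul_one]
  by_cases hk : k ∈ F.support
  · exact single_le_sum (f := fun i => F.coeff i) (fun i _ => Nat.zero_le _) hk
  · rw [notMem_support_iff.1 hk]; exact Nat.zero_le _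

/-- `∏_{j∈s} (|z - j| + 1)`. -/
def prodAbs (z : ℤ) (s : Finset ℕ) : ℕ := ∏ j ∈ s, ((z - (j : ℤ)).natAbs + 1)

theorem sz_prodLin {R e : ℕ} (he : e ≤ R) (z : ℤ) (s : Finset ℕ) :
    ∃ F : ℕ[X], Sz R F (prodLin e z s) ∧ F.eval 1 = prodAbs z s := by
  refine ⟨∏ j ∈ s, (X + C (z - (j : ℤ)).natAbs), Sz.prod s _ _ (fun j _ => Sz.linear he _), ?_⟩
  rw [eval_prod]
  unfold prodAbs
  apply prod_congr rfl
  intro j _
  simp only [eval_add, eval_X, eval_C]
  ring

/-- `∏_{j<m} (|n-j|+1)`: the exact values. -/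
theorem prodAbs_of_le {n m : ℕ} (h : m ≤ n + 1) :
    prodAbs n (range m) * (n + 1 - m).factorial = (n + 1).factorial := by
  induction m with
  | zero => simp [prodAbs]
  | succ m ih =>
    have h1 := ih (by omega)
    unfold prodAbs at h1 ⊢
    rw [prod_range_succ]
    have h2 : (((n : ℕ) : ℤ) - (m : ℤ)).natAbs = n - m := by omega
    rw [h2]
    have h3 : (n + 1 - m) = (n - m) + 1 := by omega
    have h4 : n + 1 - (m + 1) = n - m := by omega
    rw [h3, Nat.factorial_succ] at h1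
    rw [h4]
    rw [← h1]
    ring

theorem prodAbs_of_gt {n m : ℕ} (h : n + 1 ≤ m) :
    prodAbs n (range m) = (n + 1).factorial * (m - n).factorial := by
  induction m, h using Nat.le_induction with
  | base =>
    have h1 := prodAbs_of_le (n := n) (m := n + 1) le_rfl
    simp at h1
    rw [h1]
    simp
  | succ m hm ih =>
    unfold prodAbs at ih ⊢
    rw [prod_range_succ, ih]
    have h2 : (((n : ℕ) : ℤ) - (m : ℤ)).natAbs = m - n := by omega
    have h3 : m + 1 - n = (m - n) + 1 := by omega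
    rw [h2, h3]
    generalize m - n = r
    rw [Nat.factorial_succ r]
    ring

theorem le_choose {M k : ℕ} (hk : 1 ≤ k) (hkM : k + 1 ≤ M) : M ≤ M.choose k := by
  induction M generalizing k with
  | zero => omega
  | succ M ih =>
    obtain ⟨k, rfl⟩ : ∃ k', k = k' + 1 := ⟨k - 1, by omega⟩
    rw [Nat.choose_succ_succ']
    rcases Nat.eq_or_lt_of_le (by omega : k + 1 ≤ M) with h | h
    · have h1 : M.choose (k + 1) = 1 := by rw [h]; exact Nat.choose_self _
      have h2 : M.choose k = M := by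
        rw [← h]; simp
      omega
    · have h1 := ih (k := k + 1) (by omega) (by omega)
      have h2 : 1 ≤ M.choose k := Nat.choose_pos (by omega)
      omega

/-- `∏_{j<m} (|n-j|+1) ≤ m!` for `n < m`. -/
theorem prodAbs_le_factorial {n m : ℕ} (h : n + 1 ≤ m) : prodAbs n (range m) ≤ m.factorial := by
  rw [prodAbs_of_gt h]
  -- `(m+1) (n+1)! (m-n)! = ... ≤ (m+1)!`
  have h1 : (m + 1).choose (n + 1) * (n + 1).factorial * ((m + 1) - (n + 1)).factorial
      = (m + 1).factorial := Nat.choose_mul_factorial_mul_factorial (by omega)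
  have h2 : (m + 1) - (n + 1) = m - n := by omega
  rw [h2, Nat.factorial_succ m] at h1
  have h3 : m + 1 ≤ (m + 1).choose (n + 1) := le_choose (by omega) (by omega)
  by_contra hcon
  push Not at hcon
  have h5 : (m + 1) * m.factorial < (m + 1) * ((n + 1).factorial * (m - n).factorial) :=
    Nat.mul_lt_mul_of_pos_left hcon (by omega)
  have h6 : (m + 1) * ((n + 1).factorial * (m - n).factorial)
      ≤ (m + 1).choose (n + 1) * ((n + 1).factorial * (m - n).factorial) :=
    Nat.mul_le_mul_right _ h3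
  nlinarith

/-- `∏_{j<i} (|n-j|+1) ≤ i! 2^N` for `n < N`. -/
theorem prodAbs_le_two_pow {n i N : ℕ} (h : n < N) : prodAbs n (range i) ≤ i.factorial * 2 ^ N := by
  rcases Nat.lt_or_ge n i with h1 | h1
  · calc prodAbs n (range i) ≤ i.factorial := prodAbs_le_factorial h1
      _ ≤ i.factorial * 2 ^ N := Nat.le_mul_of_pos_right _ (by positivity)
  · have h2 := prodAbs_of_le (n := n) (m := i) (by omega)
    have h3 : (n + 1).choose i * i.factorial * (n + 1 - i).factorial = (n + 1).factorial :=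
      Nat.choose_mul_factorial_mul_factorial (by omega)
    have h4 : prodAbs n (range i) = (n + 1).choose i * i.factorial := by
      have hpos : 0 < (n + 1 - i).factorial := Nat.factorial_pos _
      apply Nat.eq_of_mul_eq_mul_right hpos
      rw [h2, h3]
    rw [h4, mul_comm]
    apply Nat.mul_le_mul_left
    calc (n + 1).choose i ≤ 2 ^ (n + 1) := Nat.choose_le_two_pow _ _
      _ ≤ 2 ^ N := Nat.pow_le_pow_right (by norm_num) (by omega)

theorem prodAbs_mono {z : ℤ} {s t : Finset ℕ} (h : s ⊆ t) : prodAbs z s ≤ prodAbs z t :=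
  prod_le_prod_of_subset_of_one_le' h (fun _ _ _ => by omega)

theorem size_bound {R N n d a i b k : ℕ} (hd : d ∈ Finset.Icc 1 R) (hi : i < N)
    (hn : n < N) (hb : b ∈ Finset.Icc 1 (d * n)) :
    |(basW N n d a i b).coeff k| ≤ ((den N d a i * (R ^ k * 2 ^ N) : ℕ) : ℤ) := by
  rw [mem_Icc] at hd hb
  obtain ⟨F₁, h₁, e₁⟩ := sz_prodLin (R := R) (e := 1) (by omega) (n : ℤ) (range N)
  obtain ⟨F₂, h₂, e₂⟩ := sz_prodLin (R := R) (e := 1) (by omega) (n : ℤ) (range i)
  obtain ⟨F₃, h₃, e₃⟩ := sz_prodLin (R := R) (e := d) hd.2 ((d * n : ℕ) : ℤ)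
    ((range (d * N)).erase (d * n - b))
  have h := (((h₁.pow a).mul h₂).mul (h₃.pow 2)) k
  unfold basW
  refine h.trans ?_
  have hc := coeff_le_eval_one (F₁ ^ a * F₂ * F₃ ^ 2) k
  have hev : (F₁ ^ a * F₂ * F₃ ^ 2).eval 1 ≤ den N d a i * 2 ^ N := by
    rw [eval_mul, eval_mul, eval_pow, eval_pow, e₁, e₂, e₃]
    have g1 : prodAbs n (range N) ≤ N.factorial := prodAbs_le_factorial hn
    have g2 : prodAbs n (range i) ≤ i.factorial * 2 ^ N := prodAbs_le_two_pow hn
    have g3 : prodAbs ((d * n : ℕ) : ℤ) ((range (d * N)).erase (d * n - b))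
        ≤ (d * N).factorial := by
      have hdn : d * n + 1 ≤ d * N := by
        have : d * n < d * N := Nat.mul_lt_mul_of_pos_left hn hd.1
        omega
      exact (prodAbs_mono (erase_subset _ _)).trans (prodAbs_le_factorial hdn)
    unfold den
    calc prodAbs n (range N) ^ a * prodAbs n (range i)
          * prodAbs ((d * n : ℕ) : ℤ) ((range (d * N)).erase (d * n - b)) ^ 2
        ≤ N.factorial ^ a * (i.factorial * 2 ^ N) * (d * N).factorial ^ 2 :=
          Nat.mul_le_mul (Nat.mul_le_mul (Nat.pow_le_pow_left g1 a) g2) (Nat.pow_le_pow_left g3 2)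
      _ = N.factorial ^ a * i.factorial * (d * N).factorial ^ 2 * 2 ^ N := by ring
  have hfin : R ^ k * (F₁ ^ a * F₂ * F₃ ^ 2).coeff k ≤ den N d a i * (R ^ k * 2 ^ N) := by
    calc R ^ k * (F₁ ^ a * F₂ * F₃ ^ 2).coeff k ≤ R ^ k * (den N d a i * 2 ^ N) :=
          Nat.mul_le_mul_left _ (hc.trans hev)
      _ = den N d a i * (R ^ k * 2 ^ N) := by ring
  exact_mod_cast hfin

/-- `log DD = O(R N log T)`. -/
theorem log_DD_le (R N T : ℕ) :
    Real.log (DD R N T) ≤ 6 * (Real.log 4 + 4) * (R * N) * (1 + Real.log (T + 2)) := by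
  unfold DD
  push_cast
  rw [Real.log_prod (fun u _ => by exact_mod_cast Nat.lcmUpto_ne_zero _)]
  have h4 : 0 ≤ Real.log 4 := Real.log_nonneg (by norm_num)
  have h1 : ∀ u ∈ Icc 1 (T + 2), Real.log (Nat.lcmUpto (6 * R * N / u))
      ≤ 6 * (Real.log 4 + 4) * (R * N) * (u : ℝ)⁻¹ := by
    intro u hu
    have hu1 := (mem_Icc.1 hu).1
    have hu0 : (0 : ℝ) < u := by exact_mod_cast hu1
    rw [← Chebyshev.psi_eq_log_lcmUpto]
    refine (Chebyshev.psi_le_const_mul_self (by positivity)).trans ?_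
    have h2 : ((6 * R * N / u : ℕ) : ℝ) ≤ 6 * R * N / u := by
      have := @Nat.cast_div_le ℝ _ _ _ (6 * R * N) u
      push_cast at this
      exact this
    calc (Real.log 4 + 4) * ((6 * R * N / u : ℕ) : ℝ) ≤ (Real.log 4 + 4) * (6 * R * N / u) := by
          apply mul_le_mul_of_nonneg_left h2 (by positivity)
      _ = 6 * (Real.log 4 + 4) * (R * N) * (u : ℝ)⁻¹ := by rw [div_eq_mul_inv]; ring
  refine (sum_le_sum h1).trans ?_
  rw [← mul_sum]
  apply mul_le_mul_of_nonneg_left _ (by positivity)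
  have h2 := harmonic_le_one_add_log (T + 2)
  rw [harmonic_eq_sum_Icc] at h2
  push_cast at h2
  exact h2

end MP_a3a416_nt.BB
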