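import Pool.Agent.Lib.MP_a3a416_nt.BB.Denom
import Pool.Agent.Lib.MP_a3a416_nt.BB.Size

/-!
# The integer `DD * coeff / Q0` and its size
-/

open Finset Polynomial

namespace MP_a3a416_nt.BB

/-- one summand. -/
theorem basW_coeff_eq {R N n d a i b k T : ℕ} (hd : d ∈ Finset.Icc 1 R) (ha : a < 4 * R)
    (hi : i < N) (hn : n < N) (hb : b ∈ Finset.Icc 1 (d * n)) (hk : k < T) :
    ∃ w : ℤ, (DD R N T : ℤ) * (basW N n d a i b).coeff k = (den N d a i : ℤ) * w ∧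
      |w| ≤ ((DD R N T * (R ^ T * 2 ^ N) : ℕ) : ℤ) := by
  obtain ⟨w, hw⟩ := denom_dvd (T := T) hd ha hi hn hb hk
  refine ⟨w, hw, ?_⟩
  have hs := size_bound (k := k) hd hi hn hb (a := a)
  have hden : (0 : ℤ) < (den N d a i : ℤ) := by exact_mod_cast den_pos N d a i
  have hR1 : 1 ≤ R := by rw [mem_Icc] at hd; omega
  have h1 : (den N d a i : ℤ) * |w| ≤ (den N d a i : ℤ) * ((DD R N T * (R ^ T * 2 ^ N) : ℕ) : ℤ) := by
    have h2 : |(DD R N T : ℤ) * (basW N n d a i b).coeff k| = (den N d a i : ℤ) * |w| := by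
      rw [hw, abs_mul, abs_of_pos hden]
    rw [← h2, abs_mul, Nat.abs_cast]
    have h3 : R ^ k ≤ R ^ T := Nat.pow_le_pow_right hR1 hk.le
    have h4 : ((den N d a i * (R ^ k * 2 ^ N) : ℕ) : ℤ) ≤ ((den N d a i * (R ^ T * 2 ^ N) : ℕ) : ℤ) := by
      exact_mod_cast Nat.mul_le_mul_left _ (Nat.mul_le_mul_right _ h3)
    calc (DD R N T : ℤ) * |(basW N n d a i b).coeff k|
        ≤ (DD R N T : ℤ) * ((den N d a i * (R ^ T * 2 ^ N) : ℕ) : ℤ) :=
          mul_le_mul_of_nonneg_left (hs.trans h4) (by positivity)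
      _ = (den N d a i : ℤ) * ((DD R N T * (R ^ T * 2 ^ N) : ℕ) : ℤ) := by push_cast; ring
  exact le_of_mul_le_mul_left h1 hden

/-- size of the integer `DD * coeff / Q0`. -/
theorem coeff_rr_bound {R N T : ℕ} (c : ℕ × ℕ × ℕ → ℤ) (H : ℕ)
    (hc : ∀ x ∈ idx R N, |c x| ≤ (H : ℤ)) {n k : ℕ} (hn : n < N) (hk : k < T) :
    ∃ z : ℤ, (DD R N T : ℤ) * (rr R N c n).coeff k = (Q0 R N : ℤ) * z ∧
      |z| ≤ ((4 * R ^ 2 * N * (R * N) * (R * N) * H * DD R N T * (R ^ T * 2 ^ N) : ℕ) : ℤ) := by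
  classical
  have hex : ∀ d a i b : ℕ, ∃ w : ℤ, (d ∈ Finset.Icc 1 R → a < 4 * R → i < N →
      b ∈ Finset.Icc 1 (d * n) →
      (DD R N T : ℤ) * (basW N n d a i b).coeff k = (den N d a i : ℤ) * w ∧
      |w| ≤ ((DD R N T * (R ^ T * 2 ^ N) : ℕ) : ℤ)) := by
    intro d a i b
    by_cases h : d ∈ Finset.Icc 1 R ∧ a < 4 * R ∧ i < N ∧ b ∈ Finset.Icc 1 (d * n)
    · obtain ⟨w, hw⟩ := basW_coeff_eq h.1 h.2.1 h.2.2.1 hn h.2.2.2 hk
      exact ⟨w, fun _ _ _ _ => hw⟩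
    · exact ⟨0, fun h1 h2 h3 h4 => absurd ⟨h1, h2, h3, h4⟩ h⟩
  choose w hw using hex
  refine ⟨∑ d ∈ Finset.Icc 1 R, ∑ a ∈ Finset.range (4 * R), ∑ i ∈ Finset.range N,
    ∑ b ∈ Finset.Icc 1 (d * n), c (d, a, i) * (b : ℤ) * w d a i b, ?_, ?_⟩
  · unfold rr
    simp only [finsetSum_coeff, coeff_C_mul, mul_sum]
    apply sum_congr rfl; intro d hd
    apply sum_congr rfl; intro a ha
    apply sum_congr rfl; intro i hi
    apply sum_congr rfl; intro b hb
    have h1 := (hw d a i b hd (mem_range.1 ha) (mem_range.1 hi) hb).1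
    have h2 := den_dvd_Q0 hd (mem_range.1 ha) (mem_range.1 hi)
    have h3 : ((Q0 R N / den N d a i : ℕ) : ℤ) * (den N d a i : ℤ) = (Q0 R N : ℤ) := by
      exact_mod_cast Nat.div_mul_cancel h2
    calc (DD R N T : ℤ) * (c (d, a, i) * ((Q0 R N / den N d a i : ℕ) : ℤ) * (b : ℤ)
          * (basW N n d a i b).coeff k)
        = c (d, a, i) * ((Q0 R N / den N d a i : ℕ) : ℤ) * (b : ℤ)
          * ((DD R N T : ℤ) * (basW N n d a i b).coeff k) := by ring
      _ = c (d, a, i) * (b : ℤ) * w d a i b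
          * (((Q0 R N / den N d a i : ℕ) : ℤ) * (den N d a i : ℤ)) := by rw [h1]; ring
      _ = (Q0 R N : ℤ) * (c (d, a, i) * (b : ℤ) * w d a i b) := by rw [h3]; ring
  · set W : ℤ := ((DD R N T * (R ^ T * 2 ^ N) : ℕ) : ℤ) with hW
    have hW0 : 0 ≤ W := by positivity
    have hterm : ∀ d ∈ Finset.Icc 1 R, ∀ a ∈ Finset.range (4 * R), ∀ i ∈ Finset.range N,
        ∀ b ∈ Finset.Icc 1 (d * n), |c (d, a, i) * (b : ℤ) * w d a i b|
          ≤ (H : ℤ) * ((R * N : ℕ) : ℤ) * W := by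
      intro d hd a ha i hi b hb
      rw [abs_mul, abs_mul, Nat.abs_cast]
      have h1 := (hw d a i b hd (mem_range.1 ha) (mem_range.1 hi) hb).2
      have h2 : |c (d, a, i)| ≤ (H : ℤ) := hc _ (by
        unfold idx
        rw [mem_product, mem_product]
        exact ⟨hd, ha, hi⟩)
      have h3 : (b : ℤ) ≤ ((R * N : ℕ) : ℤ) := by
        have : b ≤ R * N := by
          rw [mem_Icc] at hb hd
          exact hb.2.trans (Nat.mul_le_mul hd.2 hn.le)
        exact_mod_cast this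
      exact mul_le_mul (mul_le_mul h2 h3 (by positivity) (by positivity)) h1 (abs_nonneg _)
        (by positivity)
    have hb4 : ∀ d ∈ Finset.Icc 1 R, ∀ a ∈ Finset.range (4 * R), ∀ i ∈ Finset.range N,
        |∑ b ∈ Finset.Icc 1 (d * n), c (d, a, i) * (b : ℤ) * w d a i b|
          ≤ ((R * N : ℕ) : ℤ) * ((H : ℤ) * ((R * N : ℕ) : ℤ) * W) := by
      intro d hd a ha i hi
      refine (abs_sum_le_sum_abs _ _).trans ?_
      refine (sum_le_sum (fun b hb => hterm d hd a ha i hi b hb)).trans ?_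
      rw [sum_const, nsmul_eq_mul, Nat.card_Icc, Nat.add_sub_cancel]
      apply mul_le_mul_of_nonneg_right _ (by positivity)
      have : d * n ≤ R * N := by
        rw [mem_Icc] at hd
        exact Nat.mul_le_mul hd.2 hn.le
      exact_mod_cast this
    have hb3 : ∀ d ∈ Finset.Icc 1 R, ∀ a ∈ Finset.range (4 * R),
        |∑ i ∈ Finset.range N, ∑ b ∈ Finset.Icc 1 (d * n), c (d, a, i) * (b : ℤ) * w d a i b|
          ≤ (N : ℤ) * (((R * N : ℕ) : ℤ) * ((H : ℤ) * ((R * N : ℕ) : ℤ) * W)) := by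
      intro d hd a ha
      refine (abs_sum_le_sum_abs _ _).trans ?_
      refine (sum_le_sum (fun i hi => hb4 d hd a ha i hi)).trans ?_
      rw [sum_const, nsmul_eq_mul, card_range]
    have hb2 : ∀ d ∈ Finset.Icc 1 R,
        |∑ a ∈ Finset.range (4 * R), ∑ i ∈ Finset.range N, ∑ b ∈ Finset.Icc 1 (d * n),
          c (d, a, i) * (b : ℤ) * w d a i b|
          ≤ ((4 * R : ℕ) : ℤ) * ((N : ℤ) * (((R * N : ℕ) : ℤ) * ((H : ℤ) * ((R * N : ℕ) : ℤ) * W))) := by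
      intro d hd
      refine (abs_sum_le_sum_abs _ _).trans ?_
      refine (sum_le_sum (fun a ha => hb3 d hd a ha)).trans ?_
      rw [sum_const, nsmul_eq_mul, card_range]
    refine (abs_sum_le_sum_abs _ _).trans ?_
    refine (sum_le_sum (fun d hd => hb2 d hd)).trans ?_
    rw [sum_const, nsmul_eq_mul, Nat.card_Icc, Nat.add_sub_cancel, hW]
    apply le_of_eq
    push_cast
    ring

end MP_a3a416_nt.BB
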