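import Mathlib

/-!
# MP_a3a416_nt, BB: definitions (see BB95_proof.md)
-/

namespace MP_a3a416_nt.BB

open Polynomial

/-- The indices `1 ≤ j ≤ K` with `2j+3 ≤ p` and `p ∤ num B_{p-1-2j}` (good indices). -/
def goodIdx (K p : ℕ) : Finset ℕ :=
  (Finset.Icc 1 K).filter (fun j => 2 * j + 3 ≤ p ∧ ¬ (p : ℤ) ∣ (_root_.bernoulli (p - 1 - 2 * j)).num)

/-- Index set of the unknown coefficients `(d, a, i)`: `1 ≤ d ≤ R`, `a < 4R`, `i < N`. -/
def idx (R N : ℕ) : Finset (ℕ × ℕ × ℕ) :=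
  Finset.Icc 1 R ×ˢ (Finset.range (4 * R) ×ˢ Finset.range N)

/-- `∏_{j ∈ s} (d X + z - j)`. -/
noncomputable def prodLin (d : ℕ) (z : ℤ) (s : Finset ℕ) : ℤ[X] :=
  ∏ j ∈ s, (C (d : ℤ) * X + C (z - (j : ℤ)))

/-- basis polynomial, global variable:
`(X(X-1)..(X-N+1))^a * X(X-1)..(X-i+1) * (dX(dX-1)...(dX-dN+1))^2`. -/
noncomputable def basG (N d a i : ℕ) : ℤ[X] :=
  prodLin 1 0 (Finset.range N) ^ a * prodLin 1 0 (Finset.range i) *
    prodLin d 0 (Finset.range (d * N)) ^ 2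

/-- the basis polynomial at `X = n + t` in the local variable `t`. -/
noncomputable def basL (N n d a i : ℕ) : ℤ[X] :=
  prodLin 1 n (Finset.range N) ^ a * prodLin 1 n (Finset.range i) *
    prodLin d ((d * n : ℕ) : ℤ) (Finset.range (d * N)) ^ 2

/-- the same divided by `(b + d t)^2`, `1 ≤ b ≤ dn` (the factor with `j = dn - b`). -/
noncomputable def basW (N n d a i b : ℕ) : ℤ[X] :=
  prodLin 1 n (Finset.range N) ^ a * prodLin 1 n (Finset.range i) *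
    prodLin d ((d * n : ℕ) : ℤ) ((Finset.range (d * N)).erase (d * n - b)) ^ 2

/-- the denominator of the basis polynomial `(d,a,i)`. -/
def den (N d a i : ℕ) : ℕ := Nat.factorial N ^ a * Nat.factorial i * Nat.factorial (d * N) ^ 2

/-- a common multiple of all `den N d a i`, `(d,a,i) ∈ idx R N`. -/
def Q0 (R N : ℕ) : ℕ := Nat.factorial N ^ (4 * R) * Nat.factorial (R * N) ^ 2

/-- `P_d` times `Q0`. -/
noncomputable def PP (R N : ℕ) (c : ℕ × ℕ × ℕ → ℤ) (d : ℕ) : ℤ[X] :=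
  ∑ a ∈ Finset.range (4 * R), ∑ i ∈ Finset.range N,
    C (c (d, a, i) * ((Q0 R N / den N d a i : ℕ) : ℤ)) * basG N d a i

/-- `r_n(t)` times `Q0`: `∑_d P_d(n+t) v_{d,n}(t)`, `v_{d,n} = ∑_{b=1}^{dn} b/(b+dt)^2`. -/
noncomputable def rr (R N : ℕ) (c : ℕ × ℕ × ℕ → ℤ) (n : ℕ) : ℤ[X] :=
  ∑ d ∈ Finset.Icc 1 R, ∑ a ∈ Finset.range (4 * R), ∑ i ∈ Finset.range N,
    ∑ b ∈ Finset.Icc 1 (d * n),
      C (c (d, a, i) * ((Q0 R N / den N d a i : ℕ) : ℤ) * (b : ℤ)) * basW N n d a i b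

/-- the common denominator of the jets of order `< T`. -/
def DD (R N T : ℕ) : ℕ := ∏ u ∈ Finset.Icc 1 (T + 2), Nat.lcmUpto (6 * R * N / u)

/-- `b/(b+dt)^2` as a power series over `ℚ` (helper94's `jet`). -/
noncomputable def jet (d b : ℕ) : PowerSeries ℚ :=
  PowerSeries.mk (fun k => (-1 : ℚ) ^ k * ((k : ℚ) + 1) * (d : ℚ) ^ k / (b : ℚ) ^ (k + 1))

/-- `v_{d,n}(t) = ∑_{b=1}^{dn} b/(b+dt)^2` as a power series over `ℚ`. -/
noncomputable def vser (d n : ℕ) : PowerSeries ℚ := ∑ b ∈ Finset.Icc 1 (d * n), jet d b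

end MP_a3a416_nt.BB
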