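import Pool.Agent.Lib.MP_a3a416_nt.BB.Defs
import Pool.Agent.Lib.MP_a3a416_nt.Gap

namespace MP_a3a416_nt.BB

open Polynomial
open Pool.Agent.Lib.MP_a3a416_nt

/-- integral form of the Bernoulli polynomials below the prime `p`. -/
theorem exists_FZ {p : ℕ} (hp5 : 5 ≤ p) {q : ℕ} (hq : q + 2 ≤ p) :
    ∃ F : ℤ[X], F.natDegree ≤ q + 1 ∧
      F.comp (X + 1) = F + C ((primorial (p-1) : ℤ) * ((q : ℤ) + 1)) * X ^ q ∧
      F.coeff 0 = 0 ∧
      ∀ k, 1 ≤ k → k ≤ q + 1 → F.coeff k =
        ((q+1).choose k : ℤ) * cB p (q+1-k) := by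
  classical
  set F : ℤ[X] := ∑ i ∈ Finset.range (q+1), C (((q+1).choose i : ℤ) * cB p i) * X ^ (q+1-i) with hF
  have hcoeff : ∀ k, F.coeff k = if 1 ≤ k ∧ k ≤ q + 1 then ((q+1).choose k : ℤ) * cB p (q+1-k) else 0 := by
    intro k
    rw [hF, finsetSum_coeff]
    simp only [coeff_C_mul, coeff_X_pow]
    by_cases hk : 1 ≤ k ∧ k ≤ q + 1
    · rw [if_pos hk]
      rw [Finset.sum_eq_single (q+1-k)]
      · rw [if_pos (by omega), mul_one, Nat.choose_symm hk.2]
      · intro i hi hne
        rw [Finset.mem_range] at hi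
        rw [if_neg (by omega), mul_zero]
      · intro h
        exact absurd (Finset.mem_range.2 (by omega)) h
    · rw [if_neg hk]
      apply Finset.sum_eq_zero
      intro i hi
      rw [Finset.mem_range] at hi
      rw [if_neg (by omega), mul_zero]
  refine ⟨F, ?_, ?_, ?_, ?_⟩
  · rw [natDegree_le_iff_coeff_eq_zero]
    intro k hk
    rw [hcoeff, if_neg (by omega)]
  · -- the functional equation, over `ℚ`
    have hinj : Function.Injective (Polynomial.map (Int.castRingHom ℚ)) :=
      Polynomial.map_injective _ (RingHom.injective_int _)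
    apply hinj
    have hFQ : F.map (Int.castRingHom ℚ) = C ((primorial (p-1) : ℕ) : ℚ) *
        (Polynomial.bernoulli (q+1) - C (_root_.bernoulli (q+1))) := by
      ext k
      rw [coeff_map, hcoeff, coeff_C_mul, coeff_sub, coeff_C]
      rw [Polynomial.bernoulli]
      rw [finsetSum_coeff]
      simp only [coeff_monomial]
      by_cases hk : 1 ≤ k ∧ k ≤ q + 1
      · rw [if_pos hk, if_neg (by omega)]
        rw [Finset.sum_eq_single (q+1-k)]
        · rw [if_pos (by omega)]
          simp only [eq_intCast, Int.cast_mul, Int.cast_natCast]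
          rw [cB_spec hp5 (by omega), Nat.choose_symm hk.2]
          ring
        · intro i hi hne
          rw [Finset.mem_range] at hi
          rw [if_neg (by omega)]
        · intro h
          exact absurd (Finset.mem_range.2 (by omega)) h
      · rw [if_neg hk]
        by_cases hk0 : k = 0
        · subst hk0
          rw [if_pos rfl, Finset.sum_eq_single (q+1)]
          · simp
          · intro i hi hne
            rw [Finset.mem_range] at hi
            rw [if_neg (by omega)]
          · intro h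
            exact absurd (Finset.mem_range.2 (by omega)) h
        · rw [if_neg hk0, Finset.sum_eq_zero]
          · simp
          · intro i hi
            rw [Finset.mem_range] at hi
            rw [if_neg (by omega)]
    simp only [Polynomial.map_comp, Polynomial.map_mul, Polynomial.map_pow, Polynomial.map_add, Polynomial.map_X,
      Polynomial.map_one, Polynomial.map_C, hFQ, mul_comp, sub_comp, C_comp]
    have hB : (Polynomial.bernoulli (q+1)).comp (X + 1) =
        Polynomial.bernoulli (q+1) + C ((q:ℚ)+1) * X ^ q := by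
      apply Polynomial.funext
      intro x
      have := Polynomial.bernoulli_eval_one_add (q+1) x
      rw [eval_comp, eval_add, eval_X, eval_one, add_comm x 1, this]
      simp
    rw [hB]
    simp only [eq_intCast, Int.cast_mul, Int.cast_natCast, Int.cast_add, Int.cast_one, C_mul, C_add]
    ring
  · rw [hcoeff, if_neg (by omega)]
  · intro k h1 h2
    rw [hcoeff, if_pos ⟨h1, h2⟩]

/-- The polynomial `E` over `F_p`: `E(X+1) - E(X) = (X+1)^(p-2)`, `E(0) = 0`, degree `< p`; the coefficient
of `X^k` vanishes for odd `k ≤ p-4` and for `k = 2g` if `p ∣ num B_{p-1-2g}`. -/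
theorem exists_E (p : ℕ) [Fact p.Prime] (hp5 : 5 ≤ p) :
    ∃ E : (ZMod p)[X], E.natDegree < p ∧ E.coeff 0 = 0 ∧
      E.comp (X + 1) - E = (X + 1) ^ (p - 2) ∧
      (∀ k, Odd k → k + 4 ≤ p → E.coeff k = 0) ∧
      (∀ g, 1 ≤ g → 2 * g + 3 ≤ p → (p : ℤ) ∣ (_root_.bernoulli (p - 1 - 2 * g)).num → E.coeff (2 * g) = 0) := by
  have hp : p.Prime := Fact.out
  have hodd : Odd p := hp.odd_of_ne_two (by omega)
  obtain ⟨F, hdeg, hcomp, h0, hk⟩ := exists_FZ hp5 (q := p - 2) (by omega)
  set f := Int.castRingHom (ZMod p) with hf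
  set a : ZMod p := (((primorial (p-1) : ℤ) * (((p-2 : ℕ) : ℤ) + 1) : ℤ) : ZMod p) with ha
  have ha0 : a ≠ 0 := by
    rw [ha]
    intro h
    rw [ZMod.intCast_zmod_eq_zero_iff_dvd] at h
    have h' : (p : ℤ) ∣ ((primorial (p-1) * (p - 2 + 1) : ℕ) : ℤ) := by
      push_cast at h ⊢
      exact h
    rw [Int.natCast_dvd_natCast, hp.dvd_mul] at h'
    rcases h' with h' | h'
    · exact not_dvd_primorial hp h'
    · have := Nat.le_of_dvd (by omega) h'
      omega
  refine ⟨C a⁻¹ * F.map f + X ^ (p-2), ?_, ?_, ?_, ?_, ?_⟩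
  · have h1 : (C a⁻¹ * F.map f + X ^ (p-2)).natDegree ≤ p - 1 := by
      refine (natDegree_add_le _ _).trans (max_le ?_ ?_)
      · refine (natDegree_C_mul_le _ _).trans ((natDegree_map_le).trans ?_)
        omega
      · rw [natDegree_X_pow]; omega
    omega
  · rw [coeff_add, coeff_C_mul, coeff_map, h0, coeff_X_pow, if_neg (by omega)]
    simp
  · have h2 : (F.map f).comp (X + 1) = F.map f + C a * X ^ (p-2) := by
      have := congrArg (Polynomial.map f) hcomp
      simp only [Polynomial.map_comp, Polynomial.map_mul, Polynomial.map_pow, Polynomial.map_add, Polynomial.map_X,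
        Polynomial.map_one, Polynomial.map_C] at this
      rw [this, ha]
      simp [hf]
    rw [add_comp, mul_comp, C_comp, h2, pow_comp, X_comp]
    have h3 : C a⁻¹ * C a = (1 : (ZMod p)[X]) := by
      rw [← C_mul, inv_mul_cancel₀ ha0, C_1]
    linear_combination X ^ (p-2) * h3
  · intro k hko hk4
    have hk1 : 1 ≤ k := hko.pos
    rw [coeff_add, coeff_C_mul, coeff_map, hk k hk1 (by omega), coeff_X_pow, if_neg (by omega)]
    have : cB p (p - 2 + 1 - k) = 0 := by
      apply cB_odd hp5 (by omega)
      · rw [Nat.odd_iff] at hodd hko ⊢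
        omega
      · omega
    rw [this]
    simp
  · intro g hg1 hg3 hdvd
    rw [coeff_add, coeff_C_mul, coeff_map, hk (2*g) (by omega) (by omega), coeff_X_pow]
    have hne : ¬ (2 * g = p - 2) := by
      rw [Nat.odd_iff] at hodd
      omega
    rw [if_neg hne]
    have h4 : (p : ℤ) ∣ cB p (p - 2 + 1 - 2 * g) := by
      rw [dvd_cB_iff hp hp5 (by omega)]
      have : p - 2 + 1 - 2 * g = p - 1 - 2 * g := by omega
      rw [this]
      exact hdvd
    have h5 : f (((p - 2 + 1).choose (2*g) : ℤ) * cB p (p - 2 + 1 - 2 * g)) = 0 := by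
      rw [map_mul]
      have : f (cB p (p - 2 + 1 - 2 * g)) = 0 := by
        rw [hf, eq_intCast, ZMod.intCast_zmod_eq_zero_iff_dvd]
        exact h4
      rw [this, mul_zero]
    rw [h5]
    simp

end MP_a3a416_nt.BB
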