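import Pool.Agent.Lib.MP_a3a416_nt.BB.FinalAux

/-!
# From the estimate for fixed parameters `(R, N)` to the main proposition
-/

open Finset

namespace MP_a3a416_nt.BB

/-- The raw estimate: `R` dilations, `N` points, primes `RN < p ≤ x ≤ R²N` with at most `R/6 - 1`
good indices `g ≤ 4R²`. -/
def ThetaProp : Prop :=
  ∃ C : ℕ, 1 ≤ C ∧ ∀ R N x : ℕ, C ≤ R → C * R ^ 2 ≤ N → x ≤ R ^ 2 * N →
    ∑ p ∈ (Ioc (R * N) x).filter (fun p => p.Prime ∧ 6 * ((goodIdx (4 * R ^ 2) p).card + 1) ≤ R),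
      Real.log p ≤ C * (R * N * (1 + Real.log R))

theorem sum_log_primes_le (y : ℕ) (A : Finset ℕ) (hA : A ⊆ (Icc 1 y).filter Nat.Prime) :
    ∑ p ∈ A, Real.log p ≤ Real.log 4 * y := by
  refine le_trans ?_ (Chebyshev.theta_le_log4_mul_x (x := (y : ℝ)) (by positivity))
  rw [Chebyshev.theta_eq_sum_primesLE_log]
  apply sum_le_sum_of_subset_of_nonneg
  · intro p hp
    have := hA hp
    rw [mem_filter, mem_Icc] at this
    rw [Nat.mem_primesLE]
    exact ⟨this.1.2, this.2⟩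
  · intro p hp _
    rw [Nat.mem_primesLE] at hp
    exact Real.log_nonneg (by exact_mod_cast hp.2.one_lt.le)

theorem mainProp_of_thetaProp (h : ThetaProp) : MainProp := by
  obtain ⟨C₁, hC₁, hth⟩ := h
  have hC₁' : (1 : ℝ) ≤ C₁ := by exact_mod_cast hC₁
  refine ⟨20736 * C₁ ^ 5, by have := Nat.one_le_pow 5 C₁ hC₁; omega, ?_⟩
  intro R x hR hx
  have hR' : (2 : ℝ) ≤ R := by exact_mod_cast hR
  set Q := 12 * C₁ * R with hQ
  set N := x / Q ^ 2 + 1 with hN
  have hQpos : 0 < Q := by rw [hQ]; positivity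
  have hQR : (Q : ℝ) = 12 * C₁ * R := by rw [hQ]; push_cast; ring
  have hxN : x ≤ Q ^ 2 * N := by
    rw [hN]
    have h1 := Nat.div_add_mod x (Q ^ 2)
    have h2 := Nat.mod_lt x (show 0 < Q ^ 2 by positivity)
    nlinarith
  have hQ4 : C₁ * Q ^ 4 ≤ x := by
    calc C₁ * Q ^ 4 = 20736 * C₁ ^ 5 * R ^ 4 := by rw [hQ]; ring
      _ ≤ x := hx
  have hNge : C₁ * Q ^ 2 ≤ N := by
    rw [hN]
    have : C₁ * Q ^ 2 ≤ x / Q ^ 2 := by
      rw [Nat.le_div_iff_mul_le (by positivity)]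
      calc C₁ * Q ^ 2 * Q ^ 2 = C₁ * Q ^ 4 := by ring
        _ ≤ x := hQ4
    omega
  have hNle : (Q : ℝ) ^ 2 * N ≤ 2 * x := by
    have h1 : Q ^ 2 * N ≤ 2 * x := by
      rw [hN]
      have h2 := Nat.div_mul_le_self x (Q ^ 2)
      have h3 : Q ^ 2 ≤ x := by
        calc Q ^ 2 ≤ Q ^ 4 := Nat.pow_le_pow_right hQpos (by norm_num)
          _ ≤ C₁ * Q ^ 4 := Nat.le_mul_of_pos_left _ (by omega)
          _ ≤ x := hQ4
      nlinarith
    exact_mod_cast h1
  have hC₁Q : C₁ ≤ Q := by rw [hQ]; nlinarith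
  have hmain := hth Q N x hC₁Q hNge hxN
  -- split the set
  set A := (Icc 1 x).filter (fun p => p.Prime ∧
    4 * (goodIdx (20736 * C₁ ^ 5 * R ^ 2) p).card ≤ R) with hA
  have hsplit : A ⊆ (Icc 1 (Q * N)).filter Nat.Prime ∪ (Ioc (Q * N) x).filter
      (fun p => p.Prime ∧ 6 * ((goodIdx (4 * Q ^ 2) p).card + 1) ≤ Q) := by
    intro p hp
    rw [hA, mem_filter, mem_Icc] at hp
    obtain ⟨⟨hp1, hpx⟩, hpp, hg⟩ := hp
    rw [mem_union, mem_filter, mem_filter, mem_Icc, mem_Ioc]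
    rcases Nat.lt_or_ge (Q * N) p with hlt | hge
    · right
      refine ⟨⟨hlt, hpx⟩, hpp, ?_⟩
      have h1 : 4 * Q ^ 2 ≤ 20736 * C₁ ^ 5 * R ^ 2 := by
        have h2 : 4 * Q ^ 2 = 576 * C₁ ^ 2 * R ^ 2 := by rw [hQ]; ring
        rw [h2]
        apply Nat.mul_le_mul_right
        have h3 : C₁ ^ 2 ≤ C₁ ^ 5 := Nat.pow_le_pow_right hC₁ (by norm_num)
        omega
      have h2 := card_le_card (goodIdx_mono (p := p) h1)
      have h3 : 12 * R ≤ Q := by rw [hQ]; nlinarith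
      omega
    · left
      exact ⟨⟨hp1, hge⟩, hpp⟩
  have hnonneg : ∀ p ∈ (Icc 1 (Q * N)).filter Nat.Prime ∪ (Ioc (Q * N) x).filter
      (fun p => p.Prime ∧ 6 * ((goodIdx (4 * Q ^ 2) p).card + 1) ≤ Q), 0 ≤ Real.log (p : ℝ) := by
    intro p hp
    rw [mem_union, mem_filter, mem_filter] at hp
    have hpp : p.Prime := by rcases hp with h | h; exacts [h.2, h.2.1]
    exact Real.log_nonneg (by exact_mod_cast hpp.one_lt.le)
  have h1 : ∑ p ∈ A, Real.log p ≤ ∑ p ∈ (Icc 1 (Q * N)).filter Nat.Prime, Real.log p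
      + ∑ p ∈ (Ioc (Q * N) x).filter
        (fun p => p.Prime ∧ 6 * ((goodIdx (4 * Q ^ 2) p).card + 1) ≤ Q), Real.log p := by
    refine (sum_le_sum_of_subset_of_nonneg hsplit (fun p hp _ => hnonneg p hp)).trans ?_
    rw [← sum_union_inter]
    have : 0 ≤ ∑ p ∈ (Icc 1 (Q * N)).filter Nat.Prime ∩ (Ioc (Q * N) x).filter
        (fun p => p.Prime ∧ 6 * ((goodIdx (4 * Q ^ 2) p).card + 1) ≤ Q), Real.log (p : ℝ) := by
      apply sum_nonneg
      intro p hp
      exact hnonneg p (mem_union_left _ (mem_inter.1 hp).1)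
    linarith
  have h2 := sum_log_primes_le (Q * N) _ (subset_refl ((Icc 1 (Q * N)).filter Nat.Prime))
  -- numerical estimates
  have hlR : 1 / 2 ≤ Real.log R := by
    have h1 := Real.log_two_gt_d9
    have h2 : Real.log 2 ≤ Real.log R := Real.log_le_log (by norm_num) hR'
    linarith
  have hlQ : 1 + Real.log Q ≤ 25 * C₁ * Real.log R := by
    have h3 : Real.log Q = Real.log (12 * C₁) + Real.log R := by
      rw [hQR, Real.log_mul (by positivity) (by positivity)]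
    have h4 : Real.log (12 * C₁) ≤ 12 * C₁ - 1 := Real.log_le_sub_one_of_pos (by positivity)
    rw [h3]
    nlinarith
  have hQN : (Q : ℝ) * N ≤ x / (6 * C₁ * R) := by
    rw [le_div_iff₀ (by positivity)]
    have h5 : (Q : ℝ) * N * (6 * C₁ * R) = Q ^ 2 * N / 2 := by rw [hQR]; ring
    rw [h5]
    linarith
  have hl4 : Real.log 4 ≤ 3 := by
    have := Real.log_le_sub_one_of_pos (x := (4 : ℝ)) (by norm_num)
    linarith
  have hx0 : (0 : ℝ) ≤ x := by positivity
  have hfin1 : Real.log 4 * ((Q * N : ℕ) : ℝ) ≤ 1 * (Real.log R / R) * x := by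
    push_cast
    calc Real.log 4 * ((Q : ℝ) * N) ≤ 3 * (x / (6 * C₁ * R)) :=
          mul_le_mul hl4 hQN (by positivity) (by norm_num)
      _ = (x / R) * (1 / (2 * C₁)) := by field_simp; ring
      _ ≤ (x / R) * Real.log R := by
          apply mul_le_mul_of_nonneg_left _ (by positivity)
          have : 1 / (2 * (C₁ : ℝ)) ≤ 1 / 2 := by
            apply one_div_le_one_div_of_le (by norm_num); linarith
          linarith
      _ = 1 * (Real.log R / R) * x := by ring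
  have hfin2 : C₁ * (Q * N * (1 + Real.log Q)) ≤ 5 * C₁ * (Real.log R / R) * x := by
    have h6 : 0 ≤ 1 + Real.log Q := by
      have : 0 ≤ Real.log Q := Real.log_nonneg (by exact_mod_cast hQpos)
      linarith
    calc (C₁ : ℝ) * (Q * N * (1 + Real.log Q))
        ≤ C₁ * (x / (6 * C₁ * R) * (25 * C₁ * Real.log R)) := by
          apply mul_le_mul_of_nonneg_left _ (by positivity)
          exact mul_le_mul hQN hlQ h6 (by positivity)
      _ = 25 / 6 * C₁ * (Real.log R / R) * x := by field_simp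
      _ ≤ 5 * C₁ * (Real.log R / R) * x := by
          apply mul_le_mul_of_nonneg_right _ hx0
          apply mul_le_mul_of_nonneg_right _ (by positivity)
          nlinarith
  have hfin3 : (1 : ℝ) + 5 * C₁ ≤ (20736 * C₁ ^ 5 : ℕ) := by
    have h7 : 1 + 5 * C₁ ≤ 20736 * C₁ ^ 5 := by
      have : C₁ ≤ C₁ ^ 5 := Nat.le_self_pow (by norm_num) C₁
      omega
    exact_mod_cast h7
  calc ∑ p ∈ A, Real.log p ≤ 1 * (Real.log R / R) * x + 5 * C₁ * (Real.log R / R) * x := by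
        linarith
    _ = (1 + 5 * C₁) * ((Real.log R / R) * x) := by ring
    _ ≤ (20736 * C₁ ^ 5 : ℕ) * ((Real.log R / R) * x) := by
        apply mul_le_mul_of_nonneg_right hfin3 (by positivity)
    _ = (20736 * C₁ ^ 5 : ℕ) * (Real.log R / R) * x := by ring

/-- The form of the main proposition proved in `Main.lean`. -/
def MainPropRN : Prop := ∃ C : ℝ, 1 ≤ C ∧ ∀ R N : ℕ, 12 ≤ R → 10 * R ^ 2 ≤ N →
    ∑ p ∈ (Finset.Icc (R * N + 1) (R ^ 2 * N)).filter
      (fun p => p.Prime ∧ 6 * ((goodIdx (4 * R ^ 2) p).card + 1) ≤ R), Real.log p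
      ≤ C * (R * N * Real.log R)

theorem thetaProp_of_mainPropRN (h : MainPropRN) : ThetaProp := by
  obtain ⟨C, hC, hm⟩ := h
  refine ⟨⌈C⌉₊ + 12, by omega, ?_⟩
  intro R N x hR hN hx
  have hR12 : 12 ≤ R := by omega
  have hN10 : 10 * R ^ 2 ≤ N := le_trans (Nat.mul_le_mul_right _ (by omega)) hN
  have h1 := hm R N hR12 hN10
  have hR' : (12 : ℝ) ≤ R := by exact_mod_cast hR12
  have hlR : 0 ≤ Real.log R := Real.log_nonneg (by linarith)
  have hsub : (Ioc (R * N) x).filter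
      (fun p => p.Prime ∧ 6 * ((goodIdx (4 * R ^ 2) p).card + 1) ≤ R)
      ⊆ (Finset.Icc (R * N + 1) (R ^ 2 * N)).filter
      (fun p => p.Prime ∧ 6 * ((goodIdx (4 * R ^ 2) p).card + 1) ≤ R) := by
    apply filter_subset_filter
    intro p hp
    rw [mem_Ioc] at hp
    rw [mem_Icc]
    omega
  refine (sum_le_sum_of_subset_of_nonneg hsub ?_).trans (h1.trans ?_)
  · intro p hp _
    have hp1 := (mem_filter.1 hp).2.1.one_lt.le
    exact Real.log_nonneg (by exact_mod_cast hp1)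
  · have h2 : C ≤ ((⌈C⌉₊ + 12 : ℕ) : ℝ) := by
      push_cast
      have := Nat.le_ceil C
      linarith
    calc C * (R * N * Real.log R) ≤ ((⌈C⌉₊ + 12 : ℕ) : ℝ) * (R * N * Real.log R) := by
          apply mul_le_mul_of_nonneg_right h2 (by positivity)
      _ ≤ ((⌈C⌉₊ + 12 : ℕ) : ℝ) * (R * N * (1 + Real.log R)) := by
          apply mul_le_mul_of_nonneg_left _ (by positivity)
          apply mul_le_mul_of_nonneg_left _ (by positivity)
          linarith

end MP_a3a416_nt.BB
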