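import Pool.Agent.Lib.MP_a3a416_nt.BB.Main
import Pool.Agent.Lib.MP_a3a416_nt.BB.MainAux

/-!
# The final statement
-/

namespace MP_a3a416_nt.BB

open Classical in
/-- For all `K₀ ≥ 2` and `x`: all but `C (log K₀/√K₀) π(x)` of the primes `p ≤ x` have, for all
`K₀ ≤ K ≤ √x`, at least `c √K` indices `1 ≤ j ≤ K` with `p ∤ num B_{p-1-2j}`. -/
theorem almost_all : ∃ c C : ℝ, 0 < c ∧ 0 < C ∧ ∀ K₀ x : ℕ, 2 ≤ K₀ →
    (((Finset.Icc 1 x).filter (fun p => p.Prime ∧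
      ∃ K : ℕ, K₀ ≤ K ∧ K ^ 2 ≤ x ∧ ((goodIdx K p).card : ℝ) < c * √K)).card : ℝ)
      ≤ C * (Real.log K₀ / √K₀) * Nat.primeCounting x :=
  final_all (mainProp_of_thetaProp (thetaProp_of_mainPropRN main_prop))

end MP_a3a416_nt.BB
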