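import Pool.Agent.Lib.MP_a3a416_nt.BB.Defs

/-!
# From the main proposition to the final statement

Part of the proof that almost all primes have many regular indices at the top end
(`B_{p-1-2j}`, `j` small).
-/

open Finset

namespace MP_a3a416_nt.BB

/-- The main proposition. -/
def MainProp : Prop :=
  ∃ C : ℕ, 1 ≤ C ∧ ∀ R x : ℕ, 2 ≤ R → C * R ^ 4 ≤ x →
    ∑ p ∈ (Icc 1 x).filter (fun p => p.Prime ∧ 4 * (goodIdx (C * R ^ 2) p).card ≤ R), Real.log p
      ≤ C * (Real.log R / R) * x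

theorem goodIdx_mono {K K' p : ℕ} (h : K ≤ K') : goodIdx K p ⊆ goodIdx K' p := by
  unfold goodIdx
  apply filter_subset_filter
  exact Icc_subset_Icc_right h

/-! ### Counting primes by logarithms -/

theorem count_le_of_sum_log {x : ℕ} (hx : 2 ≤ x) (A : Finset ℕ) (hA : A ⊆ Icc 1 x) {T : ℝ}
    (hT : ∑ p ∈ A, Real.log p ≤ T) : (A.card : ℝ) ≤ √x + 2 * T / Real.log x := by
  have hlx : 0 < Real.log x := Real.log_pos (by exact_mod_cast (by omega : 1 < x))
  have hsplit : A.card = (A.filter (fun p => p * p ≤ x)).card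
      + (A.filter (fun p => ¬ p * p ≤ x)).card := by
    rw [Finset.card_filter_add_card_filter_not]
  have h1 : ((A.filter (fun p => p * p ≤ x)).card : ℝ) ≤ √x := by
    have : (A.filter (fun p => p * p ≤ x)) ⊆ Icc 1 (Nat.sqrt x) := by
      intro p hp
      rw [mem_filter] at hp
      have := mem_Icc.1 (hA hp.1)
      exact mem_Icc.2 ⟨this.1, Nat.le_sqrt.2 hp.2⟩
    have h := Finset.card_le_card this
    rw [Nat.card_Icc] at h
    have h2 : ((A.filter (fun p => p * p ≤ x)).card : ℝ) ≤ (Nat.sqrt x : ℝ) := by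
      exact_mod_cast (by omega : (A.filter (fun p => p * p ≤ x)).card ≤ Nat.sqrt x)
    exact h2.trans Real.nat_sqrt_le_real_sqrt
  have h2 : ((A.filter (fun p => ¬ p * p ≤ x)).card : ℝ) ≤ 2 * T / Real.log x := by
    rw [le_div_iff₀ hlx]
    have h3 : ∀ p ∈ A.filter (fun p => ¬ p * p ≤ x), Real.log x ≤ 2 * Real.log p := by
      intro p hp
      rw [mem_filter] at hp
      have hp1 := (mem_Icc.1 (hA hp.1)).1
      have hlt : (x : ℝ) ≤ (p : ℝ) * p := by
        exact_mod_cast (by omega : x ≤ p * p)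
      have hp0 : (0 : ℝ) < p := by exact_mod_cast hp1
      calc Real.log x ≤ Real.log ((p : ℝ) * p) :=
            Real.log_le_log (by exact_mod_cast (by omega : 0 < x)) hlt
        _ = 2 * Real.log p := by rw [Real.log_mul hp0.ne' hp0.ne']; ring
    calc ((A.filter (fun p => ¬ p * p ≤ x)).card : ℝ) * Real.log x
        = ∑ p ∈ A.filter (fun p => ¬ p * p ≤ x), Real.log x := by
          rw [sum_const, nsmul_eq_mul]
      _ ≤ ∑ p ∈ A.filter (fun p => ¬ p * p ≤ x), 2 * Real.log p := sum_le_sum h3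
      _ ≤ ∑ p ∈ A, 2 * Real.log p := by
          apply sum_le_sum_of_subset_of_nonneg (filter_subset _ _)
          intro p hp _
          have hp1 := (mem_Icc.1 (hA hp)).1
          have : 0 ≤ Real.log p := Real.log_nonneg (by exact_mod_cast hp1)
          linarith
      _ ≤ 2 * T := by rw [← mul_sum]; linarith
  rw [hsplit]
  push_cast
  linarith

/-- Chebyshev's lower bound, `x ≥ 16`. -/
theorem primeCounting_ge {x : ℕ} (hx : 16 ≤ x) :
    (x : ℝ) / Real.log x ≤ 4 * Nat.primeCounting x := by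
  have hlx : 0 < Real.log x := Real.log_pos (by exact_mod_cast (by omega : 1 < x))
  have h := Chebyshev.pi_ge x
  have hx' : (16 : ℝ) ≤ x := by exact_mod_cast hx
  have h2 : Real.log (x + 1) ≤ 2 * (√(x + 1) - 1) := by
    have h3 : Real.log (x + 1) = 2 * Real.log (√((x : ℝ) + 1)) := by
      rw [Real.log_sqrt (by positivity)]; ring
    rw [h3]
    have := Real.log_le_sub_one_of_pos (x := √((x : ℝ) + 1)) (Real.sqrt_pos.2 (by positivity))
    linarith
  have h4 : (x : ℝ) / 4 ≤ x * Real.log 2 - Real.log (x + 1) := by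
    have hl2 := Real.log_two_gt_d9
    have h5 : √((x : ℝ) + 1) ≤ x / 8 + 17 / 8 := by
      rw [Real.sqrt_le_left (by positivity)]
      nlinarith
    nlinarith
  have h6 : (x : ℝ) / 4 / Real.log x ≤ Nat.primeCounting x :=
    (div_le_div_of_nonneg_right h4 hlx.le).trans h
  have h7 : (x : ℝ) / Real.log x = 4 * ((x : ℝ) / 4 / Real.log x) := by ring
  rw [h7]
  linarith

theorem card_primes_le (x : ℕ) (P : ℕ → Prop) [DecidablePred P] :
    (((Icc 1 x).filter (fun p => p.Prime ∧ P p)).card : ℝ) ≤ Nat.primeCounting x := by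
  have h1 : ((Icc 1 x).filter (fun p => p.Prime ∧ P p)) ⊆ (range (x + 1)).filter Nat.Prime := by
    intro p hp
    rw [mem_filter, mem_Icc] at hp
    rw [mem_filter, mem_range]
    exact ⟨by omega, hp.2.1⟩
  have h2 := card_le_card h1
  have h3 : ((range (x + 1)).filter Nat.Prime).card = Nat.primeCounting x := by
    rw [Nat.primeCounting, Nat.primeCounting', Nat.count_eq_card_filter_range]
  rw [h3] at h2
  exact_mod_cast h2

theorem final (h : MainProp) : ∃ c C : ℝ, 0 < c ∧ 0 < C ∧ ∀ K x : ℕ, 2 ≤ K → K ^ 2 ≤ x →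
    (((Icc 1 x).filter (fun p => p.Prime ∧ ((goodIdx K p).card : ℝ) < c * √K)).card : ℝ)
      ≤ C * (Real.log K / √K) * Nat.primeCounting x := by
  obtain ⟨C₀, hC₀, hmain⟩ := h
  have hC₀' : (1 : ℝ) ≤ C₀ := by exact_mod_cast hC₀
  have hs1 : 1 ≤ √(C₀ : ℝ) := Real.one_le_sqrt.2 hC₀'
  have hsq : √(C₀ : ℝ) * √(C₀ : ℝ) = C₀ := Real.mul_self_sqrt (by positivity)
  refine ⟨1 / (8 * √(C₀ : ℝ)), 32 + 16 * C₀ * √(C₀ : ℝ) + 4 * √(C₀ : ℝ), by positivity,
    by positivity, ?_⟩
  intro K x hK hx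
  have hK' : (2 : ℝ) ≤ K := by exact_mod_cast hK
  have hsK : 0 < √(K : ℝ) := Real.sqrt_pos.2 (by linarith)
  have hsKsq : √(K : ℝ) * √(K : ℝ) = K := Real.mul_self_sqrt (by positivity)
  have hlK : 1 / 2 ≤ Real.log K := by
    have h1 := Real.log_two_gt_d9
    have h2 : Real.log 2 ≤ Real.log K := Real.log_le_log (by norm_num) hK'
    linarith
  have hπ : (0 : ℝ) ≤ Nat.primeCounting x := by positivity
  set R := Nat.sqrt (K / C₀) with hR
  rcases Nat.lt_or_ge R 2 with hR2 | hR2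
  · -- small `K`: trivial bound
    have h1 : K < 4 * C₀ := by
      by_contra hcon
      push Not at hcon
      have h4 : 4 ≤ K / C₀ := (Nat.le_div_iff_mul_le (by omega)).2 hcon
      have : 2 ≤ Nat.sqrt (K / C₀) := Nat.le_sqrt.2 (by omega)
      omega
    have h2 : √(K : ℝ) ≤ 2 * √(C₀ : ℝ) := by
      have h1' : (K : ℝ) ≤ 4 * C₀ := by exact_mod_cast h1.le
      rw [Real.sqrt_le_left (by positivity)]
      nlinarith
    refine (card_primes_le x _).trans ?_
    have h3 : 1 ≤ 4 * √(C₀ : ℝ) * (Real.log K / √K) := by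
      rw [mul_div_assoc', le_div_iff₀ hsK]
      nlinarith
    have h4 : 0 ≤ Real.log K / √K := by positivity
    have h5 : 1 ≤ (32 + 16 * C₀ * √(C₀ : ℝ) + 4 * √(C₀ : ℝ)) * (Real.log K / √K) := by
      have : 0 ≤ (32 + 16 * C₀ * √(C₀ : ℝ)) * (Real.log K / √K) := by positivity
      nlinarith
    nlinarith
  · -- the main case
    have hRsq : C₀ * R ^ 2 ≤ K := by
      have h1 : R * R ≤ K / C₀ := Nat.sqrt_le (K / C₀)
      have h2 : R * R * C₀ ≤ K := (Nat.le_div_iff_mul_le (by omega)).1 h1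
      nlinarith
    have hRlt : K < C₀ * (R + 1) ^ 2 := by
      have h1 : K / C₀ < (R + 1) * (R + 1) := Nat.lt_succ_sqrt (K / C₀)
      have h2 := (Nat.div_lt_iff_lt_mul (by omega : 0 < C₀)).1 h1
      nlinarith
    have hR' : (2 : ℝ) ≤ R := by exact_mod_cast hR2
    have hsR : √(K : ℝ) ≤ 2 * √(C₀ : ℝ) * R := by
      have h1 : (K : ℝ) ≤ C₀ * (R + 1) ^ 2 := by exact_mod_cast hRlt.le
      rw [Real.sqrt_le_left (by positivity)]
      have h2 : ((R : ℝ) + 1) ^ 2 ≤ (2 * R) ^ 2 := by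
        apply pow_le_pow_left₀ (by positivity); linarith
      calc (K : ℝ) ≤ C₀ * (R + 1) ^ 2 := h1
        _ ≤ C₀ * (2 * R) ^ 2 := by apply mul_le_mul_of_nonneg_left h2 (by positivity)
        _ = (√(C₀ : ℝ) * √(C₀ : ℝ)) * (2 * R) ^ 2 := by rw [hsq]
        _ = (2 * √(C₀ : ℝ) * R) ^ 2 := by ring
    have hRK : R ≤ K := by nlinarith
    have hx4 : C₀ * R ^ 4 ≤ x := by
      have h1 : (C₀ * R ^ 2) ^ 2 ≤ K ^ 2 := Nat.pow_le_pow_left hRsq 2
      have h2 : C₀ * R ^ 4 ≤ (C₀ * R ^ 2) ^ 2 := by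
        have : (C₀ * R ^ 2) ^ 2 = C₀ ^ 2 * R ^ 4 := by ring
        rw [this]
        apply Nat.mul_le_mul_right
        exact Nat.le_self_pow (by omega) C₀
      omega
    have hm := hmain R x hR2 hx4
    have hx16 : 16 ≤ x := by
      calc 16 = 1 * 2 ^ 4 := by norm_num
        _ ≤ C₀ * R ^ 4 := Nat.mul_le_mul hC₀ (Nat.pow_le_pow_left hR2 4)
        _ ≤ x := hx4
    have hx16' : (16 : ℝ) ≤ x := by exact_mod_cast hx16
    have hlx : 0 < Real.log x := Real.log_pos (by linarith)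
    set A := (Icc 1 x).filter (fun p => p.Prime ∧
      ((goodIdx K p).card : ℝ) < 1 / (8 * √(C₀ : ℝ)) * √K) with hA
    have hAsub : A ⊆ (Icc 1 x).filter
        (fun p => p.Prime ∧ 4 * (goodIdx (C₀ * R ^ 2) p).card ≤ R) := by
      intro p hp
      rw [hA, mem_filter] at hp
      rw [mem_filter]
      refine ⟨hp.1, hp.2.1, ?_⟩
      have h1 := card_le_card (goodIdx_mono (p := p) hRsq)
      have h1' : ((goodIdx (C₀ * R ^ 2) p).card : ℝ) ≤ (goodIdx K p).card := by exact_mod_cast h1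
      have h2 := hp.2.2
      have h3 : 1 / (8 * √(C₀ : ℝ)) * √K ≤ R / 4 := by
        rw [one_div, inv_mul_eq_div, div_le_iff₀ (by positivity)]
        nlinarith
      have h4 : 4 * ((goodIdx (C₀ * R ^ 2) p).card : ℝ) ≤ R := by linarith
      exact_mod_cast h4
    have hAsum : ∑ p ∈ A, Real.log p ≤ C₀ * (Real.log R / R) * x := by
      refine (sum_le_sum_of_subset_of_nonneg hAsub ?_).trans hm
      intro p hp _
      have hp1 := (mem_Icc.1 (mem_filter.1 hp).1).1
      exact Real.log_nonneg (by exact_mod_cast hp1)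
    have hcount := count_le_of_sum_log (by omega) A (filter_subset _ _) hAsum
    have hcheb := primeCounting_ge hx16
    -- `√x` term
    have h1 : √(x : ℝ) ≤ 8 * (Real.log K / √K) * (x / Real.log x) := by
      -- `√K ≤ x^{1/4}`, `log x ≤ 4 x^{1/4}`
      set v := √(√(x : ℝ)) with hv
      have hv0 : 0 < v := Real.sqrt_pos.2 (Real.sqrt_pos.2 (by linarith))
      have hv2 : v * v = √(x : ℝ) := Real.mul_self_sqrt (Real.sqrt_nonneg _)
      have hv4 : √(x : ℝ) * √(x : ℝ) = x := Real.mul_self_sqrt (by linarith)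
      have hlogx : Real.log x ≤ 4 * v := by
        have h2 : Real.log v = Real.log x / 4 := by
          rw [hv, Real.log_sqrt (Real.sqrt_nonneg _), Real.log_sqrt (by linarith)]; ring
        have h3 := Real.log_le_sub_one_of_pos hv0
        linarith
      have hKv : √(K : ℝ) ≤ v := by
        rw [hv]
        apply Real.sqrt_le_sqrt
        apply Real.le_sqrt_of_sq_le
        exact_mod_cast hx
      have h5 : √(x : ℝ) * (√(K : ℝ) * Real.log x) ≤ 8 * Real.log K * x := by
        calc √(x : ℝ) * (√(K : ℝ) * Real.log x) ≤ √(x : ℝ) * (v * (4 * v)) := by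
              apply mul_le_mul_of_nonneg_left _ (Real.sqrt_nonneg _)
              exact mul_le_mul hKv hlogx hlx.le hv0.le
          _ = 4 * x := by rw [show v * (4 * v) = 4 * (v * v) by ring, hv2]; linarith
          _ ≤ 8 * Real.log K * x := by nlinarith
      have h6 : 8 * (Real.log K / √K) * (x / Real.log x)
          = 8 * Real.log K * x / (√(K : ℝ) * Real.log x) := by
        field_simp
      rw [h6, le_div_iff₀ (by positivity)]
      exact h5
    -- main term
    have h2 : 2 * (C₀ * (Real.log R / R) * x) / Real.log x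
        ≤ 4 * C₀ * √(C₀ : ℝ) * (Real.log K / √K) * (x / Real.log x) := by
      have h3 : Real.log R / R ≤ 2 * √(C₀ : ℝ) * (Real.log K / √K) := by
        have h4 : Real.log R ≤ Real.log K :=
          Real.log_le_log (by linarith) (by exact_mod_cast hRK)
        have hlR : 0 ≤ Real.log R := Real.log_nonneg (by linarith)
        rw [mul_div_assoc', div_le_div_iff₀ (by linarith) hsK]
        calc Real.log R * √(K : ℝ) ≤ Real.log K * (2 * √(C₀ : ℝ) * R) :=
              mul_le_mul h4 hsR hsK.le (by linarith)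
          _ = 2 * √(C₀ : ℝ) * Real.log K * R := by ring
      have h5 : 2 * (C₀ * (Real.log R / R) * x) / Real.log x
          = (2 * C₀ * (x / Real.log x)) * (Real.log R / R) := by ring
      rw [h5]
      calc (2 * C₀ * ((x : ℝ) / Real.log x)) * (Real.log R / R)
          ≤ (2 * C₀ * (x / Real.log x)) * (2 * √(C₀ : ℝ) * (Real.log K / √K)) := by
            apply mul_le_mul_of_nonneg_left h3 (by positivity)
        _ = 4 * C₀ * √(C₀ : ℝ) * (Real.log K / √K) * (x / Real.log x) := by ring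
    have hL : 0 ≤ Real.log K / √K := by positivity
    calc (A.card : ℝ) ≤ √x + 2 * (C₀ * (Real.log R / R) * x) / Real.log x := hcount
      _ ≤ 8 * (Real.log K / √K) * (x / Real.log x)
          + 4 * C₀ * √(C₀ : ℝ) * (Real.log K / √K) * (x / Real.log x) := add_le_add h1 h2
      _ = (8 + 4 * C₀ * √(C₀ : ℝ)) * (Real.log K / √K) * (x / Real.log x) := by ring
      _ ≤ (8 + 4 * C₀ * √(C₀ : ℝ)) * (Real.log K / √K) * (4 * Nat.primeCounting x) := by
          apply mul_le_mul_of_nonneg_left hcheb (by positivity)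
      _ ≤ (32 + 16 * C₀ * √(C₀ : ℝ) + 4 * √(C₀ : ℝ)) * (Real.log K / √K)
            * Nat.primeCounting x := by
          have : 0 ≤ 4 * √(C₀ : ℝ) * (Real.log K / √K) * Nat.primeCounting x := by positivity
          nlinarith

theorem sum_aux (n : ℕ) : ∑ i ∈ range n, (1 + 2 * (i : ℝ)) / 2 ^ i = 6 - (4 * n + 6) / 2 ^ n := by
  induction n with
  | zero => norm_num
  | succ n ih =>
    rw [sum_range_succ, ih]
    field_simp
    push_cast
    ring

open Classical in
/-- The final statement, simultaneous in all `K ≥ K₀`. -/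
theorem final_all (h : MainProp) : ∃ c C : ℝ, 0 < c ∧ 0 < C ∧ ∀ K₀ x : ℕ, 2 ≤ K₀ →
    (((Icc 1 x).filter (fun p => p.Prime ∧
      ∃ K : ℕ, K₀ ≤ K ∧ K ^ 2 ≤ x ∧ ((goodIdx K p).card : ℝ) < c * √K)).card : ℝ)
      ≤ C * (Real.log K₀ / √K₀) * Nat.primeCounting x := by
  obtain ⟨c, C, hc, hC, hfin⟩ := final h
  refine ⟨c / 2, 6 * C, by positivity, by positivity, ?_⟩
  intro K₀ x hK₀
  have hK' : (2 : ℝ) ≤ K₀ := by exact_mod_cast hK₀
  have hsK : 0 < √(K₀ : ℝ) := Real.sqrt_pos.2 (by linarith)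
  have hl2 : Real.log 2 ≤ Real.log K₀ := Real.log_le_log (by norm_num) hK'
  have hl20 : 0 < Real.log 2 := Real.log_pos (by norm_num)
  have hπ : (0 : ℝ) ≤ Nat.primeCounting x := by positivity
  set B : ℕ → Finset ℕ := fun i => if (K₀ * 4 ^ i) ^ 2 ≤ x then
    (Icc 1 x).filter (fun p => p.Prime ∧
      ((goodIdx (K₀ * 4 ^ i) p).card : ℝ) < c * √((K₀ * 4 ^ i : ℕ) : ℝ)) else ∅ with hB
  have hBcard : ∀ i, ((B i).card : ℝ)
      ≤ C * (Real.log K₀ / √K₀) * Nat.primeCounting x * ((1 + 2 * (i : ℝ)) / 2 ^ i) := by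
    intro i
    have h0 : 0 ≤ C * (Real.log K₀ / √K₀) * Nat.primeCounting x * ((1 + 2 * (i : ℝ)) / 2 ^ i) := by
      have : 0 ≤ Real.log K₀ := by linarith
      positivity
    by_cases hx : (K₀ * 4 ^ i) ^ 2 ≤ x
    · have h4 : 1 ≤ 4 ^ i := Nat.one_le_pow _ _ (by norm_num)
      have h1 := hfin (K₀ * 4 ^ i) x (by nlinarith) hx
      have h2 : (B i).card = ((Icc 1 x).filter (fun p => p.Prime ∧
        ((goodIdx (K₀ * 4 ^ i) p).card : ℝ) < c * √((K₀ * 4 ^ i : ℕ) : ℝ))).card := by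
        rw [hB]; simp only [if_pos hx]
      rw [h2]
      refine h1.trans ?_
      have h3 : Real.log ((K₀ * 4 ^ i : ℕ) : ℝ) / √((K₀ * 4 ^ i : ℕ) : ℝ)
          ≤ (Real.log K₀ / √K₀) * ((1 + 2 * (i : ℝ)) / 2 ^ i) := by
        have h5 : √((K₀ * 4 ^ i : ℕ) : ℝ) = √K₀ * 2 ^ i := by
          push_cast
          rw [Real.sqrt_mul (by positivity)]
          congr 1
          rw [show (4 : ℝ) ^ i = (2 ^ i) ^ 2 by rw [← pow_mul, mul_comm, pow_mul]; norm_num]
          exact Real.sqrt_sq (by positivity)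
        have h6 : Real.log ((K₀ * 4 ^ i : ℕ) : ℝ) = Real.log K₀ + i * (2 * Real.log 2) := by
          push_cast
          rw [Real.log_mul (by positivity) (by positivity), Real.log_pow,
            show (4 : ℝ) = 2 ^ 2 by norm_num, Real.log_pow]
          push_cast; ring
        rw [h5, h6, div_mul_div_comm]
        apply div_le_div_of_nonneg_right _ (by positivity)
        have : (0 : ℝ) ≤ i := by positivity
        nlinarith
      calc C * (Real.log ((K₀ * 4 ^ i : ℕ) : ℝ) / √((K₀ * 4 ^ i : ℕ) : ℝ)) * Nat.primeCounting x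
          ≤ C * ((Real.log K₀ / √K₀) * ((1 + 2 * (i : ℝ)) / 2 ^ i)) * Nat.primeCounting x := by
            apply mul_le_mul_of_nonneg_right _ hπ
            exact mul_le_mul_of_nonneg_left h3 hC.le
        _ = C * (Real.log K₀ / √K₀) * Nat.primeCounting x * ((1 + 2 * (i : ℝ)) / 2 ^ i) := by ring
    · have h2 : (B i).card = 0 := by
        rw [hB]; simp only [if_neg hx, card_empty]
      rw [h2]
      exact_mod_cast h0
  have hsub : (Icc 1 x).filter (fun p => p.Prime ∧
      ∃ K : ℕ, K₀ ≤ K ∧ K ^ 2 ≤ x ∧ ((goodIdx K p).card : ℝ) < c / 2 * √K)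
      ⊆ (range x).biUnion B := by
    intro p hp
    rw [mem_filter] at hp
    obtain ⟨hpI, hpp, K, hK0K, hKx, hgood⟩ := hp
    -- choose `i` with `K₀ 4^i ≤ K < K₀ 4^(i+1)`
    set i := Nat.log 4 (K / K₀) with hi
    have hKK : 1 ≤ K / K₀ := (Nat.le_div_iff_mul_le (by omega)).2 (by omega)
    have h1 : 4 ^ i ≤ K / K₀ := Nat.pow_log_le_self 4 (by omega)
    have h1' : K₀ * 4 ^ i ≤ K := by
      have := (Nat.le_div_iff_mul_le (by omega : 0 < K₀)).1 h1
      linarith
    have h2 : K / K₀ < 4 ^ (i + 1) := Nat.lt_pow_succ_log_self (by norm_num) _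
    have h2' : K < K₀ * 4 ^ (i + 1) := by
      have := (Nat.div_lt_iff_lt_mul (by omega : 0 < K₀)).1 h2
      linarith
    have hix : i < x := by
      have h3 : i < 4 ^ i := Nat.lt_pow_self (by norm_num)
      have h4 : K ≤ K ^ 2 := Nat.le_self_pow (by norm_num) K
      have h5 : 4 ^ i ≤ K₀ * 4 ^ i := Nat.le_mul_of_pos_left _ (by omega)
      omega
    have hx : (K₀ * 4 ^ i) ^ 2 ≤ x := (Nat.pow_le_pow_left h1' 2).trans hKx
    rw [mem_biUnion]
    refine ⟨i, mem_range.2 hix, ?_⟩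
    rw [hB]
    simp only [if_pos hx]
    rw [mem_filter]
    refine ⟨hpI, hpp, ?_⟩
    have h6 : ((goodIdx (K₀ * 4 ^ i) p).card : ℝ) ≤ (goodIdx K p).card := by
      exact_mod_cast card_le_card (goodIdx_mono h1')
    have h7 : √(K : ℝ) ≤ 2 * √((K₀ * 4 ^ i : ℕ) : ℝ) := by
      rw [Real.sqrt_le_left (by positivity), mul_pow, Real.sq_sqrt (by positivity)]
      have h8 : (K : ℝ) ≤ ((K₀ * 4 ^ (i + 1) : ℕ) : ℝ) := by exact_mod_cast h2'.le
      refine h8.trans (le_of_eq ?_)
      push_cast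
      rw [pow_succ]
      ring
    calc ((goodIdx (K₀ * 4 ^ i) p).card : ℝ) ≤ (goodIdx K p).card := h6
      _ < c / 2 * √K := hgood
      _ ≤ c / 2 * (2 * √((K₀ * 4 ^ i : ℕ) : ℝ)) := by
          apply mul_le_mul_of_nonneg_left h7 (by positivity)
      _ = c * √((K₀ * 4 ^ i : ℕ) : ℝ) := by ring
  have hcard : (((Icc 1 x).filter (fun p => p.Prime ∧
      ∃ K : ℕ, K₀ ≤ K ∧ K ^ 2 ≤ x ∧ ((goodIdx K p).card : ℝ) < c / 2 * √K)).card : ℝ)
      ≤ ∑ i ∈ range x, ((B i).card : ℝ) := by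
    have h1 := (card_le_card hsub).trans card_biUnion_le
    exact_mod_cast h1
  have hL : 0 ≤ C * (Real.log K₀ / √K₀) * Nat.primeCounting x := by
    have : 0 ≤ Real.log K₀ := by linarith
    positivity
  calc _ ≤ ∑ i ∈ range x, ((B i).card : ℝ) := hcard
    _ ≤ ∑ i ∈ range x, C * (Real.log K₀ / √K₀) * Nat.primeCounting x
          * ((1 + 2 * (i : ℝ)) / 2 ^ i) := sum_le_sum (fun i _ => hBcard i)
    _ = C * (Real.log K₀ / √K₀) * Nat.primeCounting x * (6 - (4 * x + 6) / 2 ^ x) := by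
        rw [← mul_sum, sum_aux]
    _ ≤ C * (Real.log K₀ / √K₀) * Nat.primeCounting x * 6 := by
        apply mul_le_mul_of_nonneg_left _ hL
        have : (0 : ℝ) ≤ (4 * x + 6) / 2 ^ x := by positivity
        linarith
    _ = 6 * C * (Real.log K₀ / √K₀) * Nat.primeCounting x := by ring

end MP_a3a416_nt.BB
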