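import Pool.Agent.Lib.MP_a3a416_nt.BB.EPoly

namespace MP_a3a416_nt.BB

open Polynomial

section aux

variable {p : ℕ} [hp : Fact p.Prime]

/-- The shifted functional equation, iterated. -/
theorem E_comp_nat (E : (ZMod p)[X]) (hE : E.comp (X + 1) - E = (X + 1) ^ (p - 2)) (m : ℕ) :
    E.comp (X + C (m : ZMod p)) = E + ∑ b ∈ Finset.Icc 1 m, (X + C (b : ZMod p)) ^ (p - 2) := by
  induction m with
  | zero => simp
  | succ m ih =>
    rw [Finset.sum_Icc_succ_top (by omega), ← add_assoc, ← ih]
    have h1 : E.comp (X + 1) = E + (X + 1) ^ (p - 2) := by rw [← hE]; ring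
    have h2 : (X + C ((m + 1 : ℕ) : ZMod p)) = (X + 1 : (ZMod p)[X]).comp (X + C (m : ZMod p)) := by
      simp [add_assoc]
    rw [h2, ← comp_assoc, h1, add_comp, pow_comp]

/-- `(b + dX)^p = b + d X^p`. -/
theorem lin_pow_p (b d : ZMod p) : (C d * X + C b) ^ p = C d * X ^ p + C b := by
  have : CharP (ZMod p)[X] p := Polynomial.charP
  rw [add_pow_char, mul_pow, ← C_pow, ← C_pow, ZMod.pow_card, ZMod.pow_card]

/-- `E(d(n+X)) - E(dX)`. -/
theorem E_comp_dn (E : (ZMod p)[X]) (hE : E.comp (X + 1) - E = (X + 1) ^ (p - 2)) (d n : ℕ) :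
    (E.comp (C (d : ZMod p) * X)).comp (X + C (n : ZMod p)) =
      E.comp (C (d : ZMod p) * X) +
        ∑ b ∈ Finset.Icc 1 (d * n), (C (d : ZMod p) * X + C (b : ZMod p)) ^ (p - 2) := by
  have h1 : (C (d : ZMod p) * X).comp (X + C (n : ZMod p)) =
      (X + C ((d * n : ℕ) : ZMod p)).comp (C (d : ZMod p) * X) := by
    simp [mul_add]
  rw [comp_assoc, h1, ← comp_assoc, E_comp_nat E hE, add_comp]
  congr 1
  rw [← Polynomial.coe_compRingHom_apply, map_sum]
  apply Finset.sum_congr rfl
  intro b _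
  simp

/-- The basis polynomials at `n + X` and the division by `(b+dX)^2`. -/
theorem prodLin_comp (d : ℕ) (s : Finset ℕ) (n : ℕ) :
    (prodLin d 0 s).comp (X + C (n : ℤ)) = prodLin d ((d * n : ℕ) : ℤ) s := by
  unfold prodLin
  rw [prod_comp]
  apply Finset.prod_congr rfl
  intro j _
  simp only [add_comp, mul_comp, C_comp, X_comp, zero_sub]
  push_cast
  simp only [C_sub, C_mul, C_neg]
  ring

theorem basG_comp (N d a i n : ℕ) : (basG N d a i).comp (X + C (n : ℤ)) = basL N n d a i := by
  unfold basG basL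
  rw [mul_comp, mul_comp, pow_comp, pow_comp, prodLin_comp, prodLin_comp, prodLin_comp]
  simp

theorem basL_eq_mul {N n d a i b : ℕ} (hn : n < N) (hb : b ∈ Finset.Icc 1 (d * n)) :
    basL N n d a i = basW N n d a i b * (C (d : ℤ) * X + C (b : ℤ)) ^ 2 := by
  rw [Finset.mem_Icc] at hb
  have hd : 0 < d := by
    rcases Nat.eq_zero_or_pos d with h | h
    · rw [h] at hb; omega
    · exact h
  have hmem : d * n - b ∈ Finset.range (d * N) := by
    rw [Finset.mem_range]
    have : d * n < d * N := Nat.mul_lt_mul_of_pos_left hn hd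
    omega
  have h1 : prodLin d ((d * n : ℕ) : ℤ) (Finset.range (d * N)) =
      (C (d : ℤ) * X + C (b : ℤ)) * prodLin d ((d * n : ℕ) : ℤ) ((Finset.range (d * N)).erase (d * n - b)) := by
    unfold prodLin
    rw [← Finset.mul_prod_erase _ _ hmem]
    congr 3
    have : ((d * n - b : ℕ) : ℤ) = ((d * n : ℕ) : ℤ) - (b : ℤ) := by
      rw [Nat.cast_sub hb.2]
    rw [this]
    ring
  unfold basL basW
  rw [h1]
  ring

end aux

/-- The jets of order `< T` of `rr` vanish mod `p`. -/
theorem rr_modp (p : ℕ) [Fact p.Prime] (R N K T : ℕ) (c : ℕ × ℕ × ℕ → ℤ)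
    (hp : R * N < p) (hK : 2 * K + 4 ≤ p) (hT : T ≤ 2 * K + 1)
    (E : (ZMod p)[X]) (hdeg : E.natDegree < p) (h0 : E.coeff 0 = 0)
    (hE : E.comp (X + 1) - E = (X + 1) ^ (p - 2))
    (hodd : ∀ k, Odd k → k + 4 ≤ p → E.coeff k = 0)
    (heven : ∀ g, 1 ≤ g → 2 * g + 3 ≤ p → (p : ℤ) ∣ (_root_.bernoulli (p - 1 - 2 * g)).num →
      E.coeff (2 * g) = 0)
    (h1 : ∀ g ∈ goodIdx K p, ∑ d ∈ Finset.Icc 1 R,
      C ((d : ZMod p) ^ (2 * g)) * (PP R N c d).map (Int.castRingHom (ZMod p)) = 0)
    (h2 : ∑ d ∈ Finset.Icc 1 R,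
      (PP R N c d).map (Int.castRingHom (ZMod p)) * E.comp (C (d : ZMod p) * X) = 0)
    {n k : ℕ} (hn : n < N) (hk : k < T) : (p : ℤ) ∣ (rr R N c n).coeff k := by
  classical
  have hp2 : 2 ≤ p := (Fact.out : p.Prime).two_le
  set f := Int.castRingHom (ZMod p) with hf
  -- it suffices to show divisibility by `X^T`
  suffices hX : (X : (ZMod p)[X]) ^ T ∣ (rr R N c n).map f by
    rw [X_pow_dvd_iff] at hX
    have := hX k hk
    rw [coeff_map, hf, eq_intCast, ZMod.intCast_zmod_eq_zero_iff_dvd] at this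
    exact this
  -- `Q d = P_d(n + X)` mod `p`
  set Q : ℕ → (ZMod p)[X] := fun d => ((PP R N c d).map f).comp (X + C (n : ZMod p)) with hQ
  have hTp : T ≤ p := by omega
  -- (A) the part with `E(dX)`
  have hA : (X : (ZMod p)[X]) ^ T ∣ ∑ d ∈ Finset.Icc 1 R, Q d * E.comp (C (d : ZMod p) * X) := by
    have hEexp : ∀ d : ℕ, E.comp (C (d : ZMod p) * X) =
        ∑ j ∈ Finset.range (E.natDegree + 1), C (E.coeff j * (d : ZMod p) ^ j) * X ^ j := by
      intro d
      conv_lhs => rw [E.as_sum_range]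
      rw [← Polynomial.coe_compRingHom_apply, map_sum]
      apply Finset.sum_congr rfl
      intro j _
      rw [Polynomial.coe_compRingHom_apply, monomial_comp, mul_pow, C_mul, C_pow]
      ring
    have hswap : ∑ d ∈ Finset.Icc 1 R, Q d * E.comp (C (d : ZMod p) * X) =
        ∑ j ∈ Finset.range (E.natDegree + 1),
          C (E.coeff j) * X ^ j * ∑ d ∈ Finset.Icc 1 R, C ((d : ZMod p) ^ j) * Q d := by
      simp_rw [hEexp, Finset.mul_sum]
      rw [Finset.sum_comm]
      apply Finset.sum_congr rfl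
      intro j _
      apply Finset.sum_congr rfl
      intro d _
      rw [C_mul]
      ring
    rw [hswap]
    apply Finset.dvd_sum
    intro j _
    rcases Nat.lt_or_ge j T with hj | hj
    · -- the term vanishes
      have hz : C (E.coeff j) * X ^ j * ∑ d ∈ Finset.Icc 1 R, C ((d : ZMod p) ^ j) * Q d = 0 := by
        by_cases hEj : E.coeff j = 0
        · rw [hEj]; simp
        · have heven' : Even j := by
            by_contra ho
            rw [Nat.not_even_iff_odd] at ho
            exact hEj (hodd j ho (by omega))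
          obtain ⟨g, hg⟩ := heven'
          have hg2 : j = 2 * g := by omega
          have hg1 : 1 ≤ g := by
            rcases Nat.eq_zero_or_pos g with h | h
            · exfalso
              apply hEj
              rw [hg2, h]
              exact h0
            · exact h
          have hgood : g ∈ goodIdx K p := by
            unfold goodIdx
            rw [Finset.mem_filter, Finset.mem_Icc]
            refine ⟨⟨hg1, by omega⟩, by omega, ?_⟩
            intro hdvd
            apply hEj
            rw [hg2]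
            exact heven g hg1 (by omega) hdvd
          have h3 := congrArg (fun P : (ZMod p)[X] => P.comp (X + C (n : ZMod p))) (h1 g hgood)
          simp only [zero_comp] at h3
          rw [← Polynomial.coe_compRingHom_apply, map_sum] at h3
          have h4 : ∑ d ∈ Finset.Icc 1 R, C ((d : ZMod p) ^ j) * Q d = 0 := by
            rw [← h3]
            apply Finset.sum_congr rfl
            intro d _
            rw [Polynomial.coe_compRingHom_apply, mul_comp, C_comp, hg2]
          rw [h4, mul_zero]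
      rw [hz]
      exact dvd_zero _
    · exact Dvd.dvd.mul_right (Dvd.dvd.mul_left (pow_dvd_pow _ hj) _) _
  -- (B) everything
  have hB : ∑ d ∈ Finset.Icc 1 R, Q d * (E.comp (C (d : ZMod p) * X) +
      ∑ b ∈ Finset.Icc 1 (d * n), (C (d : ZMod p) * X + C (b : ZMod p)) ^ (p - 2)) = 0 := by
    have h3 := congrArg (fun P : (ZMod p)[X] => P.comp (X + C (n : ZMod p))) h2
    simp only [zero_comp] at h3
    rw [← Polynomial.coe_compRingHom_apply, map_sum] at h3
    rw [← h3]
    apply Finset.sum_congr rfl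
    intro d _
    rw [Polynomial.coe_compRingHom_apply, mul_comp, E_comp_dn E hE]
  -- (C) `Q d (b+dX)^(p-2)` against the terms of `rr`
  have hC : ∀ d ∈ Finset.Icc 1 R, ∀ b ∈ Finset.Icc 1 (d * n),
      (X : (ZMod p)[X]) ^ T ∣ Q d * (C (d : ZMod p) * X + C (b : ZMod p)) ^ (p - 2) -
        ∑ a ∈ Finset.range (4 * R), ∑ i ∈ Finset.range N,
          (C (c (d, a, i) * ((Q0 R N / den N d a i : ℕ) : ℤ) * (b : ℤ)) * basW N n d a i b).map f := by
    intro d hd b hb
    have hQd : Q d = ∑ a ∈ Finset.range (4 * R), ∑ i ∈ Finset.range N,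
        (C (c (d, a, i) * ((Q0 R N / den N d a i : ℕ) : ℤ)) *
          (basW N n d a i b * (C (d : ℤ) * X + C (b : ℤ)) ^ 2)).map f := by
      have h5 : Q d = ((PP R N c d).comp (X + C (n : ℤ))).map f := by
        rw [hQ]
        simp only [Polynomial.map_comp, Polynomial.map_add, map_X, map_C]
        simp [hf]
      rw [h5]
      unfold PP
      rw [← Polynomial.coe_compRingHom_apply, map_sum, Polynomial.map_sum]
      apply Finset.sum_congr rfl
      intro a _
      rw [map_sum, Polynomial.map_sum]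
      apply Finset.sum_congr rfl
      intro i _
      rw [Polynomial.coe_compRingHom_apply, mul_comp, C_comp, basG_comp, basL_eq_mul hn hb]
    rw [hQd, Finset.sum_mul, ← Finset.sum_sub_distrib]
    apply Finset.dvd_sum
    intro a _
    rw [Finset.sum_mul, ← Finset.sum_sub_distrib]
    apply Finset.dvd_sum
    intro i _
    have hpow : (C (d : ZMod p) * X + C (b : ZMod p)) ^ 2 * (C (d : ZMod p) * X + C (b : ZMod p)) ^ (p - 2) =
        C (d : ZMod p) * X ^ p + C (b : ZMod p) := by
      rw [← pow_add, ← lin_pow_p]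
      congr 1
      omega
    have key : (C (c (d, a, i) * ((Q0 R N / den N d a i : ℕ) : ℤ)) *
          (basW N n d a i b * (C (d : ℤ) * X + C (b : ℤ)) ^ 2)).map f *
          (C (d : ZMod p) * X + C (b : ZMod p)) ^ (p - 2) -
        (C (c (d, a, i) * ((Q0 R N / den N d a i : ℕ) : ℤ) * (b : ℤ)) * basW N n d a i b).map f =
        X ^ p * ((C (c (d, a, i) * ((Q0 R N / den N d a i : ℕ) : ℤ))).map f *
          (basW N n d a i b).map f * C (d : ZMod p)) := by
      simp only [Polynomial.map_mul, Polynomial.map_pow, Polynomial.map_add, map_X, map_C, map_mul]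
      have hfd : f (d : ℤ) = (d : ZMod p) := by simp [hf]
      have hfb : f (b : ℤ) = (b : ZMod p) := by simp [hf]
      rw [hfd, hfb]
      linear_combination (C (f (c (d, a, i))) * C (f ((Q0 R N / den N d a i : ℕ) : ℤ)) *
        (basW N n d a i b).map f) * hpow
    rw [key]
    exact Dvd.dvd.mul_right (pow_dvd_pow _ hTp) _
  -- conclusion
  have hrr : (rr R N c n).map f = ∑ d ∈ Finset.Icc 1 R, ∑ b ∈ Finset.Icc 1 (d * n),
      ∑ a ∈ Finset.range (4 * R), ∑ i ∈ Finset.range N,
        (C (c (d, a, i) * ((Q0 R N / den N d a i : ℕ) : ℤ) * (b : ℤ)) * basW N n d a i b).map f := by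
    unfold rr
    rw [Polynomial.map_sum]
    apply Finset.sum_congr rfl
    intro d _
    simp only [Polynomial.map_sum]
    rw [Finset.sum_comm]
    have : ∀ a ∈ Finset.range (4 * R), ∑ i ∈ Finset.range N, ∑ b ∈ Finset.Icc 1 (d * n),
        (C (c (d, a, i) * ((Q0 R N / den N d a i : ℕ) : ℤ) * (b : ℤ)) * basW N n d a i b).map f =
        ∑ b ∈ Finset.Icc 1 (d * n), ∑ i ∈ Finset.range N,
        (C (c (d, a, i) * ((Q0 R N / den N d a i : ℕ) : ℤ) * (b : ℤ)) * basW N n d a i b).map f :=
      fun a _ => Finset.sum_comm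
    rw [Finset.sum_comm, Finset.sum_congr rfl this, Finset.sum_comm]
  have hfin : (rr R N c n).map f =
      -(∑ d ∈ Finset.Icc 1 R, Q d * E.comp (C (d : ZMod p) * X)) -
      ∑ d ∈ Finset.Icc 1 R, ∑ b ∈ Finset.Icc 1 (d * n),
        (Q d * (C (d : ZMod p) * X + C (b : ZMod p)) ^ (p - 2) -
          ∑ a ∈ Finset.range (4 * R), ∑ i ∈ Finset.range N,
            (C (c (d, a, i) * ((Q0 R N / den N d a i : ℕ) : ℤ) * (b : ℤ)) * basW N n d a i b).map f) := by
    rw [hrr]
    simp only [Finset.sum_sub_distrib]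
    have h6 : ∑ d ∈ Finset.Icc 1 R, Q d * E.comp (C (d : ZMod p) * X) +
        ∑ d ∈ Finset.Icc 1 R, ∑ b ∈ Finset.Icc 1 (d * n),
          Q d * (C (d : ZMod p) * X + C (b : ZMod p)) ^ (p - 2) = 0 := by
      rw [← hB, ← Finset.sum_add_distrib]
      apply Finset.sum_congr rfl
      intro d _
      rw [mul_add, Finset.mul_sum]
    linear_combination h6
  rw [hfin]
  apply dvd_sub
  · rw [dvd_neg]
    exact hA
  · apply Finset.dvd_sum
    intro d hd
    apply Finset.dvd_sum
    intro b hb
    exact hC d hd b hb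

end MP_a3a416_nt.BB
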