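import Pool.Agent.Lib.MP_a3a416_nt.BB.Size

/-!
# From the product bound to the main proposition
-/

open Finset

namespace MP_a3a416_nt.BB

theorem main_prop_of_prod_bad_le
    (hprod : ∀ R N : ℕ, 12 ≤ R → 10 * R ^ 2 ≤ N → ∀ S : Finset ℕ,
      (∀ p ∈ S, p.Prime ∧ R * N < p ∧ p ≤ R ^ 2 * N ∧ 6 * ((goodIdx (4 * R ^ 2) p).card + 1) ≤ R) →
      ∏ p ∈ S, p ≤ (4 * R ^ 2 * N * (R * N) * (R * N) * DD R N (8 * R ^ 2) *
        (R ^ (8 * R ^ 2) * 2 ^ N)) ^ 2) :
    ∃ C : ℝ, 1 ≤ C ∧ ∀ R N : ℕ, 12 ≤ R → 10 * R ^ 2 ≤ N →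
    ∑ p ∈ (Finset.Icc (R * N + 1) (R ^ 2 * N)).filter
      (fun p => p.Prime ∧ 6 * ((goodIdx (4 * R ^ 2) p).card + 1) ≤ R), Real.log p
      ≤ C * (R * N * Real.log R) := by
  have hl4 : 0 ≤ Real.log 4 := Real.log_nonneg (by norm_num)
  refine ⟨2 * (24 * (Real.log 4 + 4) + 5), by linarith, ?_⟩
  intro R N hR hN
  set S := (Finset.Icc (R * N + 1) (R ^ 2 * N)).filter
      (fun p => p.Prime ∧ 6 * ((goodIdx (4 * R ^ 2) p).card + 1) ≤ R) with hS
  have h1 := hprod R N hR hN S (by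
    intro p hp
    rw [hS, mem_filter, mem_Icc] at hp
    exact ⟨hp.2.1, by omega, hp.1.2, hp.2.2⟩)
  have hR' : (12 : ℝ) ≤ R := by exact_mod_cast hR
  have hN' : (10 : ℝ) * R ^ 2 ≤ N := by exact_mod_cast hN
  have hR0 : (0 : ℝ) < R := by linarith
  have hN0 : (0 : ℝ) < N := by
    have : (0 : ℝ) < R ^ 2 := by positivity
    linarith
  have hlR : 1 ≤ Real.log R := by
    rw [Real.le_log_iff_exp_le hR0]
    have := Real.exp_one_lt_d9
    linarith
  have hpos : ∀ p ∈ S, (p : ℝ) ≠ 0 := by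
    intro p hp
    rw [hS, mem_filter] at hp
    exact_mod_cast hp.2.1.ne_zero
  have h2 : ∑ p ∈ S, Real.log p = Real.log ((∏ p ∈ S, p : ℕ) : ℝ) := by
    push_cast
    rw [Real.log_prod hpos]
  rw [h2]
  have hDD : (0 : ℝ) < DD R N (8 * R ^ 2) := by
    have : 0 < DD R N (8 * R ^ 2) := by
      unfold DD
      exact prod_pos fun _ _ => Nat.lcmUpto_pos _
    exact_mod_cast this
  have h3 : ((∏ p ∈ S, p : ℕ) : ℝ) ≤ (4 * R ^ 2 * N * (R * N) * (R * N) * DD R N (8 * R ^ 2) *
        (R ^ (8 * R ^ 2) * 2 ^ N)) ^ 2 := by exact_mod_cast h1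
  have hprodpos : (0 : ℝ) < ((∏ p ∈ S, p : ℕ) : ℝ) := by
    push_cast
    apply prod_pos
    intro p hp
    rw [hS, mem_filter] at hp
    exact_mod_cast hp.2.1.pos
  have h4 := Real.log_le_log hprodpos h3
  refine h4.trans ?_
  rw [Real.log_pow, Real.log_mul (by positivity) (by positivity),
    Real.log_mul (by positivity) hDD.ne', Real.log_mul (by positivity) (by positivity),
    Real.log_mul (by positivity) (by positivity), Real.log_mul (by positivity) (by positivity),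
    Real.log_mul (by positivity) (by positivity), Real.log_mul (by positivity) (by positivity),
    Real.log_mul (x := (R : ℝ) ^ (8 * R ^ 2)) (by positivity) (by positivity),
    Real.log_pow, Real.log_pow, Real.log_pow]
  have hlDD := log_DD_le R N (8 * R ^ 2)
  have hlog8 : Real.log ((8 * R ^ 2 : ℕ) + 2 : ℝ) ≤ 3 * Real.log R := by
    rw [show 3 * Real.log R = Real.log ((R : ℝ) ^ 3) by rw [Real.log_pow]; norm_num]
    apply Real.log_le_log (by positivity)
    push_cast
    nlinarith [sq_nonneg ((R : ℝ))]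
  have hRN : (0 : ℝ) < R * N := by positivity
  set L := Real.log R with hL
  have hlDD' : Real.log (DD R N (8 * R ^ 2)) ≤ 24 * (Real.log 4 + 4) * (R * N * L) := by
    refine hlDD.trans ?_
    calc 6 * (Real.log 4 + 4) * (R * N) * (1 + Real.log ((8 * R ^ 2 : ℕ) + 2 : ℝ))
        ≤ 6 * (Real.log 4 + 4) * (R * N) * (4 * L) := by
          apply mul_le_mul_of_nonneg_left _ (by positivity)
          linarith
      _ = 24 * (Real.log 4 + 4) * (R * N * L) := by ring
  -- the small terms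
  have hNL : (N : ℝ) ≤ R * N * L / 12 := by
    rw [le_div_iff₀ (by norm_num)]
    have : (12 : ℝ) * N ≤ R * N := by nlinarith
    nlinarith
  have hlN : Real.log N ≤ N := (Real.log_le_sub_one_of_pos hN0).trans (by linarith)
  have hlRN : L ≤ N := by
    have h5 : L ≤ R := (Real.log_le_sub_one_of_pos hR0).trans (by linarith)
    nlinarith
  have hl4' : Real.log 4 ≤ N := by
    have h5 : Real.log 4 ≤ 4 - 1 := Real.log_le_sub_one_of_pos (by norm_num)
    nlinarith
  have hl2 : Real.log 2 ≤ 1 := (Real.log_le_sub_one_of_pos (by norm_num)).trans (by norm_num)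
  have h8 : (8 : ℝ) * R ^ 2 * L ≤ R * N * L := by
    apply mul_le_mul_of_nonneg_right _ (by linarith)
    nlinarith
  have hNl2 : (N : ℝ) * Real.log 2 ≤ N := by nlinarith
  push_cast
  nlinarith

end MP_a3a416_nt.BB
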