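import Pool.Agent.Lib.MP_a3a416_nt.BB.BridgeBound

/-!
# The product of the bad primes
-/

open Finset Polynomial

namespace MP_a3a416_nt.BB

theorem not_dvd_Q0 {R N p : ℕ} (hp : p.Prime) (hR : 1 ≤ R) (h : R * N < p) : ¬ p ∣ Q0 R N := by
  have hN : N ≤ R * N := Nat.le_mul_of_pos_left _ hR
  unfold Q0
  rw [hp.dvd_mul]
  rintro (h1 | h1)
  · have := (hp.dvd_factorial).1 (hp.dvd_of_dvd_pow h1)
    omega
  · have := (hp.dvd_factorial).1 (hp.dvd_of_dvd_pow h1)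
    omega

/-- product of the bad primes is bounded (abstract form). -/
theorem prod_bad_le_of {R N : ℕ} (hR : 12 ≤ R) (S : Finset ℕ)
    (hS : ∀ p ∈ S, p.Prime ∧ R * N < p)
    (haux : ∃ c : ℕ × ℕ × ℕ → ℤ, (∃ x ∈ idx R N, c x ≠ 0) ∧
      (∀ x ∈ idx R N, |c x| ≤ (Nat.sqrt (∏ p ∈ S, p) : ℤ)) ∧
      ∀ p ∈ S, ∀ n < N, ∀ k < 8 * R ^ 2, (p : ℤ) ∣ (rr R N c n).coeff k)
    (hjet : ∀ c : ℕ × ℕ × ℕ → ℤ, (∃ x ∈ idx R N, c x ≠ 0) →
      ∃ n < N, ∃ k < 8 * R ^ 2, (rr R N c n).coeff k ≠ 0) :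
    ∏ p ∈ S, p ≤ (4 * R ^ 2 * N * (R * N) * (R * N) * DD R N (8 * R ^ 2) *
      (R ^ (8 * R ^ 2) * 2 ^ N)) ^ 2 := by
  obtain ⟨c, hc0, hcb, hcd⟩ := haux
  obtain ⟨n, hn, k, hk, hne⟩ := hjet c hc0
  obtain ⟨z, hz, hzb⟩ := coeff_rr_bound (T := 8 * R ^ 2) c _ hcb hn hk
  set P := ∏ p ∈ S, p with hP
  set B := 4 * R ^ 2 * N * (R * N) * (R * N) * DD R N (8 * R ^ 2) *
      (R ^ (8 * R ^ 2) * 2 ^ N) with hB
  have hDD : 0 < DD R N (8 * R ^ 2) := by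
    unfold DD
    exact prod_pos fun _ _ => Nat.lcmUpto_pos _
  have hQ0 : 0 < Q0 R N := by unfold Q0; positivity
  have hz0 : z ≠ 0 := by
    rintro rfl
    rw [mul_zero] at hz
    have h1 : (DD R N (8 * R ^ 2) : ℤ) ≠ 0 := by exact_mod_cast hDD.ne'
    exact (mul_ne_zero h1 hne) hz
  have hPdvd : P ∣ z.natAbs := by
    rw [hP]
    apply Finset.prod_primes_dvd
    · intro p hp
      exact (hS p hp).1.prime
    · intro p hp
      have h1 := hcd p hp n hn k hk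
      have h2 : (p : ℤ) ∣ (Q0 R N : ℤ) * z := by
        rw [← hz]
        exact Dvd.dvd.mul_left h1 _
      have hpp : Prime (p : ℤ) := Nat.prime_iff_prime_int.1 (hS p hp).1
      rcases hpp.dvd_or_dvd h2 with h3 | h3
      · exact absurd (by exact_mod_cast h3) (not_dvd_Q0 (hS p hp).1 (by omega) (hS p hp).2)
      · exact Int.natCast_dvd.1 h3
  have hPle : P ≤ z.natAbs := Nat.le_of_dvd (Int.natAbs_pos.2 hz0) hPdvd
  have hzle : z.natAbs ≤ Nat.sqrt P * B := by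
    have h1 : (z.natAbs : ℤ) ≤ ((Nat.sqrt P * B : ℕ) : ℤ) := by
      rw [Int.natCast_natAbs]
      refine hzb.trans (le_of_eq ?_)
      rw [hB]
      push_cast
      ring
    exact_mod_cast h1
  have hPB : P ≤ Nat.sqrt P * B := hPle.trans hzle
  have hsq : Nat.sqrt P * Nat.sqrt P ≤ P := Nat.sqrt_le P
  have hPpos : 0 < P := by
    rw [hP]
    exact prod_pos fun p hp => (hS p hp).1.pos
  have h1 : P * P ≤ P * B ^ 2 := by
    calc P * P ≤ (Nat.sqrt P * B) * (Nat.sqrt P * B) := Nat.mul_le_mul hPB hPB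
      _ = (Nat.sqrt P * Nat.sqrt P) * B ^ 2 := by ring
      _ ≤ P * B ^ 2 := Nat.mul_le_mul_right _ hsq
  exact Nat.le_of_mul_le_mul_left h1 hPpos

end MP_a3a416_nt.BB
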