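import Pool.Agent.Lib.MP_a3a416_nt.BB.Bridge
import Pool.Agent.Lib.MP_a3a416_nt.BB.ProdBad
import Pool.Agent.Lib.MP_a3a416_nt.BB.MainProp

namespace MP_a3a416_nt.BB

open Polynomial

/-- product of the bad primes is bounded. -/
theorem prod_bad_le {R N : ℕ} (hR : 12 ≤ R) (hN : 10 * R ^ 2 ≤ N) (S : Finset ℕ)
    (hS : ∀ p ∈ S, p.Prime ∧ R * N < p ∧ p ≤ R ^ 2 * N ∧ 6 * ((goodIdx (4 * R ^ 2) p).card + 1) ≤ R) :
    ∏ p ∈ S, p ≤ (4 * R ^ 2 * N * (R * N) * (R * N) * DD R N (8 * R ^ 2) *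
      (R ^ (8 * R ^ 2) * 2 ^ N)) ^ 2 :=
  prod_bad_le_of hR S (fun p hp => ⟨(hS p hp).1, (hS p hp).2.1⟩)
    (exists_aux R N (by omega) (by nlinarith) S hS)
    (fun c hc => exists_jet_ne_zero hR hN c hc)

/-- MAIN PROPOSITION. -/
theorem main_prop : ∃ C : ℝ, 1 ≤ C ∧ ∀ R N : ℕ, 12 ≤ R → 10 * R ^ 2 ≤ N →
    ∑ p ∈ (Finset.Icc (R * N + 1) (R ^ 2 * N)).filter
      (fun p => p.Prime ∧ 6 * ((goodIdx (4 * R ^ 2) p).card + 1) ≤ R), Real.log p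
      ≤ C * (R * N * Real.log R) :=
  main_prop_of_prod_bad_le (fun _ _ hR hN S hS => prod_bad_le hR hN S hS)

end MP_a3a416_nt.BB
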