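import Pool.Agent.Lib.MP_a3a416_nt.BB.ZDefs

/-!
# MP_a3a416, zero estimate: the cofactors and their degrees

`(lin d j)² · cof R d j = Lam R` for `j ≤ d < R`; `Lam R ≠ 0`, degree `≤ R (R+1)`
(the number of pairs `j ≤ d < R` is `R(R+1)/2`); the same bound for `cof`, `AA`, `GG`
(for `cof`: `Lam R / (lin d j)^2` has degree `≤` that of `Lam R`, `Polynomial.natDegree_div_le` or
`Polynomial.natDegree_div`; for `d < R`, `j ≤ d` one may also use the product formula).
`a_d = ∑_j (d+1)/(lin d j)²` in `ℚ(x)`.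
-/

namespace BBZ

open Polynomial

private theorem zcof_lin_ne (d j : ℕ) : lin d j ≠ 0 := by
  intro h
  have h1 : (lin d j).coeff 1 = 0 := by rw [h]; simp
  have h2 : (lin d j).coeff 1 = (d : ℚ) + 1 := by
    unfold lin
    rw [coeff_add, coeff_C_mul, coeff_X_one, mul_one, coeff_C_of_ne_zero (by norm_num), add_zero]
  rw [h2] at h1
  have h3 : (0 : ℚ) < (d : ℚ) + 1 := by positivity
  linarith

private theorem zcof_lin_deg (d j : ℕ) : (lin d j).natDegree ≤ 1 := by
  unfold lin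
  exact natDegree_linear_le

theorem Lam_ne_zero (R : ℕ) : Lam R ≠ 0 := by
  unfold Lam
  rw [Finset.prod_ne_zero_iff]
  intro d _
  rw [Finset.prod_ne_zero_iff]
  intro j _
  exact pow_ne_zero _ (zcof_lin_ne d j)

private theorem zcof_dvd {R d j : ℕ} (hd : d < R) (hj : j ≤ d) : (lin d j) ^ 2 ∣ Lam R := by
  unfold Lam
  have h1 : (lin d j) ^ 2 ∣ ∏ j ∈ Finset.range (d + 1), (lin d j) ^ 2 :=
    Finset.dvd_prod_of_mem (fun j => (lin d j) ^ 2) (Finset.mem_range.mpr (by omega))
  have h2 : (∏ j ∈ Finset.range (d + 1), (lin d j) ^ 2) ∣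
      ∏ d ∈ Finset.range R, ∏ j ∈ Finset.range (d + 1), (lin d j) ^ 2 :=
    Finset.dvd_prod_of_mem (fun d => ∏ j ∈ Finset.range (d + 1), (lin d j) ^ 2)
      (Finset.mem_range.mpr hd)
  exact h1.trans h2

theorem lin_sq_mul_cof {R d j : ℕ} (hd : d < R) (hj : j ≤ d) :
    (lin d j) ^ 2 * cof R d j = Lam R := by
  unfold cof
  exact EuclideanDomain.mul_div_cancel' (pow_ne_zero _ (zcof_lin_ne d j)) (zcof_dvd hd hj)

theorem Lam_natDegree (R : ℕ) : (Lam R).natDegree ≤ R * (R + 1) := by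
  unfold Lam
  have h1 : ∀ d : ℕ, (∏ j ∈ Finset.range (d + 1), (lin d j) ^ 2).natDegree ≤ 2 * (d + 1) := by
    intro d
    refine (natDegree_prod_le _ _).trans ?_
    have h2 : ∀ j ∈ Finset.range (d + 1), ((lin d j) ^ 2).natDegree ≤ 2 := by
      intro j _
      refine natDegree_pow_le.trans ?_
      have := zcof_lin_deg d j
      omega
    refine (Finset.sum_le_sum h2).trans ?_
    rw [Finset.sum_const, Finset.card_range, smul_eq_mul]
    omega
  refine (natDegree_prod_le _ _).trans ?_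
  refine (Finset.sum_le_sum (fun d _ => h1 d)).trans ?_
  have h3 : ∀ R : ℕ, ∑ d ∈ Finset.range R, 2 * (d + 1) = R * (R + 1) := by
    intro R
    induction R with
    | zero => simp
    | succ R ih => rw [Finset.sum_range_succ, ih]; ring
  rw [h3]

private theorem zcof_deg {R d j : ℕ} (hd : d < R) (hj : j ≤ d) :
    (cof R d j).natDegree ≤ R * (R + 1) := by
  have h1 : cof R d j ∣ Lam R := ⟨(lin d j) ^ 2, by rw [mul_comm]; exact (lin_sq_mul_cof hd hj).symm⟩
  exact (natDegree_le_of_dvd h1 (Lam_ne_zero R)).trans (Lam_natDegree R)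

theorem AA_natDegree (R d : ℕ) (hd : d < R) : (AA R d).natDegree ≤ R * (R + 1) := by
  unfold AA
  refine natDegree_sum_le_of_forall_le _ _ ?_
  intro j hj
  rw [Finset.mem_range] at hj
  exact (natDegree_C_mul_le _ _).trans (zcof_deg hd (by omega))

theorem GG_natDegree (R d : ℕ) (hd : d < R) : (GG R d).natDegree ≤ R * (R + 1) := by
  unfold GG
  refine natDegree_sum_le_of_forall_le _ _ ?_
  intro j hj
  rw [Finset.mem_range] at hj
  exact (natDegree_C_mul_le _ _).trans (zcof_deg hd (by omega))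

theorem aK_eq (R d : ℕ) (hd : d < R) :
    aK R d = ∑ j ∈ Finset.range (d + 1),
      algebraMap ℚ[X] (RatFunc ℚ) (C ((d : ℚ) + 1))
        / (algebraMap ℚ[X] (RatFunc ℚ) (lin d j)) ^ 2 := by
  unfold aK AA
  rw [map_sum, Finset.sum_div]
  refine Finset.sum_congr rfl ?_
  intro j hj
  rw [Finset.mem_range] at hj
  have hinj := IsFractionRing.injective ℚ[X] (RatFunc ℚ)
  have h1 : algebraMap ℚ[X] (RatFunc ℚ) (Lam R) ≠ 0 := by
    intro h
    exact Lam_ne_zero R (hinj (by rw [h, map_zero]))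
  have h2 : algebraMap ℚ[X] (RatFunc ℚ) (lin d j) ≠ 0 := by
    intro h
    exact zcof_lin_ne d j (hinj (by rw [h, map_zero]))
  rw [div_eq_div_iff h1 (pow_ne_zero 2 h2), ← lin_sq_mul_cof hd (by omega : j ≤ d), map_mul,
    map_mul, map_pow]
  ring

end BBZ
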