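import Mathlib

/-!
# MP_a3a416: zero estimate, definitions (helper94)

`R` dilations `d = 1, …, R`; `Fin R` element `d` stands for the dilation `d+1`.
`lin d j = (d+1) x + (j+1)`, `Lam R = ∏_{d<R} ∏_{j≤d} (lin d j)²` (degree `R (R+1)`).
`AA R d = ∑_{j≤d} (d+1) Lam/(lin d j)²`, `GG R d = ∑_{j≤d} (j+1) Lam/(lin d j)²`.
Vectors are indexed by `Ix R = Fin 2 ⊕ Fin R`: `inl 0` belongs to the function `1`, `inl 1` to the
locally constant function `ν(n+u) = n`, `inr d` to the jets `v (d+1)`.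
-/

namespace BBZ

open Polynomial

/-- index set of the vectors -/
abbrev Ix (R : ℕ) : Type := Fin 2 ⊕ Fin R

/-- the linear form `(d+1) x + (j+1)` -/
noncomputable def lin (d j : ℕ) : ℚ[X] := C ((d : ℚ) + 1) * X + C ((j : ℚ) + 1)

/-- `∏_{d<R} ∏_{j≤d} (lin d j)²` -/
noncomputable def Lam (R : ℕ) : ℚ[X] :=
  ∏ d ∈ Finset.range R, ∏ j ∈ Finset.range (d + 1), (lin d j) ^ 2

/-- `Lam / (lin d j)²` -/
noncomputable def cof (R d j : ℕ) : ℚ[X] := Lam R / (lin d j) ^ 2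

noncomputable def AA (R d : ℕ) : ℚ[X] :=
  ∑ j ∈ Finset.range (d + 1), C ((d : ℚ) + 1) * cof R d j

noncomputable def GG (R d : ℕ) : ℚ[X] :=
  ∑ j ∈ Finset.range (d + 1), C ((j : ℚ) + 1) * cof R d j

/-- the difference operator on polynomial vectors -/
noncomputable def tau (R : ℕ) (P : Ix R → ℚ[X]) : Ix R → ℚ[X] :=
  Sum.elim
    (fun i => if i = 0 then
        Lam R * taylor 1 (P (Sum.inl 0)) + Lam R * taylor 1 (P (Sum.inl 1))
          + ∑ d : Fin R, taylor 1 (P (Sum.inr d)) * GG R d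
      else Lam R * taylor 1 (P (Sum.inl 1)) + ∑ d : Fin R, taylor 1 (P (Sum.inr d)) * AA R d)
    (fun d => Lam R * taylor 1 (P (Sum.inr d)))

/-- the jet at `n` of the function attached to the vector `P` -/
noncomputable def FF (R : ℕ) (v : ℕ → ℕ → PowerSeries ℚ) (n : ℕ) (P : Ix R → ℚ[X]) :
    PowerSeries ℚ :=
  ((taylor (n : ℚ) (P (Sum.inl 0)) : ℚ[X]) : PowerSeries ℚ)
    + ((C (n : ℚ) * taylor (n : ℚ) (P (Sum.inl 1)) : ℚ[X]) : PowerSeries ℚ)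
    + ∑ d : Fin R, ((taylor (n : ℚ) (P (Sum.inr d)) : ℚ[X]) : PowerSeries ℚ) * v (d + 1) n

/-- the difference equation of the jets, denominators cleared -/
def Hv (R : ℕ) (v : ℕ → ℕ → PowerSeries ℚ) : Prop :=
  ∀ d < R, ∀ n : ℕ,
    ((taylor (n : ℚ) (Lam R) : ℚ[X]) : PowerSeries ℚ) * (v (d + 1) (n + 1) - v (d + 1) n)
      = ((C (n : ℚ) * taylor (n : ℚ) (AA R d) + taylor (n : ℚ) (GG R d) : ℚ[X]) : PowerSeries ℚ)

/-- `b / (b + d X)²` -/
noncomputable def jet (d b : ℕ) : PowerSeries ℚ :=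
  PowerSeries.mk fun k => (-1) ^ k * ((k : ℚ) + 1) * (d : ℚ) ^ k / (b : ℚ) ^ (k + 1)

/-- the shift `x ↦ x + 1` on `ℚ(x)` -/
noncomputable def sh : RatFunc ℚ →+* RatFunc ℚ :=
  IsFractionRing.map (A := ℚ[X]) (B := ℚ[X]) (j := (taylorAlgHom (1 : ℚ)).toRingHom)
    (fun _ _ h => taylor_injective (1 : ℚ) h)

theorem sh_algebraMap (p : ℚ[X]) :
    sh (algebraMap ℚ[X] (RatFunc ℚ) p) = algebraMap ℚ[X] (RatFunc ℚ) (taylor 1 p) := by
  unfold sh IsFractionRing.map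
  rw [IsLocalization.map_eq]
  rfl

/-- polynomial vectors as vectors of rational functions -/
noncomputable def toK {R : ℕ} (P : Ix R → ℚ[X]) : Ix R → RatFunc ℚ :=
  fun i => algebraMap ℚ[X] (RatFunc ℚ) (P i)

/-- `a_d(x) = ∑_{j≤d} (d+1)/(lin d j)²` -/
noncomputable def aK (R d : ℕ) : RatFunc ℚ :=
  algebraMap ℚ[X] (RatFunc ℚ) (AA R d) / algebraMap ℚ[X] (RatFunc ℚ) (Lam R)

/-- `g_d(x) = ∑_{j≤d} (j+1)/(lin d j)²` -/
noncomputable def gK (R d : ℕ) : RatFunc ℚ :=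
  algebraMap ℚ[X] (RatFunc ℚ) (GG R d) / algebraMap ℚ[X] (RatFunc ℚ) (Lam R)

/-- the semilinear operator `Φ = Lam⁻¹ τ` on `ℚ(x)`-vectors -/
noncomputable def Phi (R : ℕ) (w : Ix R → RatFunc ℚ) : Ix R → RatFunc ℚ :=
  Sum.elim
    (fun i => if i = 0 then
        sh (w (Sum.inl 0)) + sh (w (Sum.inl 1)) + ∑ d : Fin R, sh (w (Sum.inr d)) * gK R d
      else sh (w (Sum.inl 1)) + ∑ d : Fin R, sh (w (Sum.inr d)) * aK R d)
    (fun d => sh (w (Sum.inr d)))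

end BBZ
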