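import Pool.Agent.Lib.MP_a3a416_nt.BB.ZDefs

/-!
# MP_a3a416, zero estimate: rational functions regular at a rational point

`Reg x f`: `f = p/q` with `q(x) ≠ 0`.  Closure properties, the double pole criterion, the behaviour
under the iterated shift, and: every rational function is regular at `x - m` and `x + m` for all
large `m` (its denominator has finitely many roots).
-/

namespace BBZ

open Polynomial

/-- `f` is regular at the rational point `x` -/
def Reg (x : ℚ) (f : RatFunc ℚ) : Prop :=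
  ∃ p q : ℚ[X], q.eval x ≠ 0 ∧
    f * algebraMap ℚ[X] (RatFunc ℚ) q = algebraMap ℚ[X] (RatFunc ℚ) p

theorem Reg.poly (x : ℚ) (p : ℚ[X]) : Reg x (algebraMap ℚ[X] (RatFunc ℚ) p) :=
  ⟨p, 1, by simp, by simp⟩

theorem Reg.add {x : ℚ} {f g : RatFunc ℚ} (hf : Reg x f) (hg : Reg x g) : Reg x (f + g) := by
  obtain ⟨p1, q1, h1, e1⟩ := hf
  obtain ⟨p2, q2, h2, e2⟩ := hg
  refine ⟨p1 * q2 + p2 * q1, q1 * q2, by rw [eval_mul]; exact mul_ne_zero h1 h2, ?_⟩
  simp only [map_mul, map_add]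
  rw [← e1, ← e2]
  ring

theorem Reg.neg {x : ℚ} {f : RatFunc ℚ} (hf : Reg x f) : Reg x (-f) := by
  obtain ⟨p1, q1, h1, e1⟩ := hf
  refine ⟨-p1, q1, h1, ?_⟩
  rw [map_neg, ← e1]
  ring

theorem Reg.mul {x : ℚ} {f g : RatFunc ℚ} (hf : Reg x f) (hg : Reg x g) : Reg x (f * g) := by
  obtain ⟨p1, q1, h1, e1⟩ := hf
  obtain ⟨p2, q2, h2, e2⟩ := hg
  refine ⟨p1 * p2, q1 * q2, by rw [eval_mul]; exact mul_ne_zero h1 h2, ?_⟩
  simp only [map_mul]
  rw [← e1, ← e2]
  ring

theorem Reg.sum {x : ℚ} {ι : Type*} (s : Finset ι) (f : ι → RatFunc ℚ)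
    (h : ∀ i ∈ s, Reg x (f i)) : Reg x (∑ i ∈ s, f i) := by
  classical
  induction s using Finset.induction_on with
  | empty =>
    have := Reg.poly x 0
    simpa using this
  | insert a s ha ih =>
    rw [Finset.sum_insert ha]
    exact Reg.add (h a (Finset.mem_insert_self a s))
      (ih fun i hi => h i (Finset.mem_insert_of_mem hi))

theorem Reg.inv {x : ℚ} {q : ℚ[X]} (hq : q.eval x ≠ 0) :
    Reg x ((algebraMap ℚ[X] (RatFunc ℚ) q)⁻¹) := by
  refine ⟨1, q, hq, ?_⟩
  have hq0 : q ≠ 0 := by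
    rintro rfl
    simp at hq
  have : algebraMap ℚ[X] (RatFunc ℚ) q ≠ 0 := by
    intro h
    exact hq0 ((map_eq_zero_iff _ (RatFunc.algebraMap_injective ℚ)).1 h)
  rw [inv_mul_cancel₀ this, map_one]

/-- a double pole is not regular -/
theorem Reg.double_pole {x s : ℚ}
    (h : Reg x (algebraMap ℚ[X] (RatFunc ℚ) (C s)
      / (algebraMap ℚ[X] (RatFunc ℚ) (X - C x)) ^ 2)) : s = 0 := by
  obtain ⟨p, q, hq, e⟩ := h
  have hX : algebraMap ℚ[X] (RatFunc ℚ) (X - C x) ≠ 0 := by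
    intro h
    exact X_sub_C_ne_zero x ((map_eq_zero_iff _ (RatFunc.algebraMap_injective ℚ)).1 h)
  have e2 : algebraMap ℚ[X] (RatFunc ℚ) (C s * q)
      = algebraMap ℚ[X] (RatFunc ℚ) (p * (X - C x) ^ 2) := by
    rw [map_mul, map_mul, map_pow, ← e]
    field_simp
  have e3 := RatFunc.algebraMap_injective ℚ e2
  have e4 := congrArg (eval x) e3
  simp only [eval_mul, eval_C, eval_pow, eval_sub, eval_X, sub_self] at e4
  have e5 : s * eval x q = 0 := by rw [e4]; ring
  rcases mul_eq_zero.1 e5 with h | h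
  · exact h
  · exact absurd h hq

/-- the iterated shift on polynomials -/
theorem sh_iterate (m : ℕ) (p : ℚ[X]) :
    sh^[m] (algebraMap ℚ[X] (RatFunc ℚ) p) = algebraMap ℚ[X] (RatFunc ℚ) (taylor (m : ℚ) p) := by
  induction m with
  | zero => simp
  | succ m ih =>
    rw [Function.iterate_succ_apply', ih, sh_algebraMap, taylor_taylor]
    push_cast
    rw [add_comm]

/-- `f` regular at `x + m` implies `f(· + m)` regular at `x` -/
theorem Reg.iterate {x : ℚ} {f : RatFunc ℚ} (m : ℕ) (h : Reg (x + m) f) : Reg x (sh^[m] f) := by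
  obtain ⟨p, q, hq, e⟩ := h
  refine ⟨taylor (m : ℚ) p, taylor (m : ℚ) q, ?_, ?_⟩
  · rw [taylor_eval]
    exact hq
  · rw [← sh_iterate, ← sh_iterate, ← e]
    exact (iterate_map_mul sh m f _).symm

/-- every rational function is regular far away from a point, in steps of one -/
theorem Reg.eventually (x : ℚ) (f : RatFunc ℚ) :
    ∃ M : ℕ, ∀ m : ℕ, M ≤ m → Reg (x + m) f ∧ Reg (x - m) f := by
  have hq : f.denom ≠ 0 := f.denom_ne_zero
  have key : ∀ g : ℕ → ℚ, Function.Injective g →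
      ∃ M : ℕ, ∀ m : ℕ, M ≤ m → f.denom.eval (g m) ≠ 0 := by
    intro g hg
    have hfin : Set.Finite (g ⁻¹' (f.denom.roots.toFinset : Set ℚ)) :=
      Set.Finite.preimage hg.injOn (Finset.finite_toSet _)
    obtain ⟨B, hB⟩ := hfin.bddAbove
    refine ⟨B + 1, fun m hm h0 => ?_⟩
    have : m ∈ g ⁻¹' (f.denom.roots.toFinset : Set ℚ) := by
      simp only [Set.mem_preimage, Finset.mem_coe, Multiset.mem_toFinset]
      exact (mem_roots hq).2 h0
    have := hB this
    omega
  have reg : ∀ y : ℚ, f.denom.eval y ≠ 0 → Reg y f := by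
    intro y hy
    refine ⟨f.num, f.denom, hy, ?_⟩
    have hd : algebraMap ℚ[X] (RatFunc ℚ) f.denom ≠ 0 := by
      intro h
      exact hq ((map_eq_zero_iff _ (RatFunc.algebraMap_injective ℚ)).1 h)
    conv_lhs => rw [← RatFunc.num_div_denom f]
    rw [RatFunc.num_div_denom f]
    nth_rewrite 1 [← RatFunc.num_div_denom f]
    field_simp
  obtain ⟨M1, h1⟩ := key (fun m => x + m) (fun a b h => by simpa using h)
  obtain ⟨M2, h2⟩ := key (fun m => x - m) (fun a b h => by simpa using h)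
  refine ⟨max M1 M2, fun m hm => ⟨reg _ (h1 m (le_trans (le_max_left _ _) hm)),
    reg _ (h2 m (le_trans (le_max_right _ _) hm))⟩⟩

end BBZ
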