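import Pool.Agent.Lib.MP_a3a416_nt.BB.ZCof
import Pool.Agent.Lib.MP_a3a416_nt.BB.ZReg

/-!
# MP_a3a416, zero estimate: the pole argument

If `g(x+1) - g(x) = ∑_{d<R} c_d a_d(x)` in `ℚ(x)` (`a_d = ∑_{j≤d} (d+1)/((d+1)x+j+1)²`), then for
every `1 ≤ q ≤ R`:  `s_q := ∑_{1≤d≤R, q ∣ d} c_{d-1}/d = 0`.

Proof. Telescoping: `g(x+2M) - g(x) = ∑_{m<2M} F(x+m)`, `F = ∑ c_d a_d`.  Take `M ≥ 1` large and look
at the point `x₀ = -1/q - M`: by `Reg.eventually` (for the point `-1/q`) `g` is regular at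
`x₀ = -1/q - M` and at `x₀ + 2M = -1/q + M`, so the left side is regular at `x₀` (`Reg.iterate`).
The term `d/(d x + j)²` (`1 ≤ j ≤ d`) of `F(x+m)` has its pole at `-j/d - m`; this is `x₀` iff
`m = M` and `jq = d` (as `j/d - 1/q` lies in `(-1,1)`); all other terms are regular at `x₀`
(`Reg.inv`).  For `m = M`, `d = jq`: `d (x+M) + j = d (x - x₀)`, so the term is
`(1/d)/(x-x₀)²`.  So `s_q/(x-x₀)²` is regular at `x₀`, and `s_q = 0` by `Reg.double_pole`.
-/

namespace BBZ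

open Polynomial

private theorem zpole_reg (x0 a : ℚ) (P : ℚ[X]) (hP : P.eval x0 ≠ 0) :
    Reg x0 (algebraMap ℚ[X] (RatFunc ℚ) (C a) / (algebraMap ℚ[X] (RatFunc ℚ) P) ^ 2) := by
  have h1 : algebraMap ℚ[X] (RatFunc ℚ) (C a) / (algebraMap ℚ[X] (RatFunc ℚ) P) ^ 2 =
      algebraMap ℚ[X] (RatFunc ℚ) (C a) * (algebraMap ℚ[X] (RatFunc ℚ) P)⁻¹ *
        (algebraMap ℚ[X] (RatFunc ℚ) P)⁻¹ := by
    rw [div_eq_mul_inv, pow_two, mul_inv, mul_assoc]
  rw [h1]
  exact ((Reg.poly x0 (C a)).mul (Reg.inv hP)).mul (Reg.inv hP)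

private theorem zpole_taylor (d j m : ℕ) :
    taylor (m : ℚ) (lin d j) = C ((d : ℚ) + 1) * (X + C (m : ℚ)) + C ((j : ℚ) + 1) := by
  unfold lin
  rw [map_add, taylor_mul, taylor_C, taylor_X, taylor_C]

/-- one term of the telescoping sum -/
private theorem zpole_term (R : ℕ) (c : ℕ → ℚ) (m : ℕ) :
    sh^[m] (∑ d ∈ Finset.range R, algebraMap ℚ[X] (RatFunc ℚ) (C (c d)) * aK R d) =
      ∑ d ∈ Finset.range R, ∑ j ∈ Finset.range (d + 1),
        algebraMap ℚ[X] (RatFunc ℚ) (C (c d * ((d : ℚ) + 1))) /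
          (algebraMap ℚ[X] (RatFunc ℚ) (C ((d : ℚ) + 1) * (X + C (m : ℚ)) + C ((j : ℚ) + 1))) ^ 2 := by
  rw [← RingHom.coe_pow, map_sum]
  refine Finset.sum_congr rfl fun d hd => ?_
  rw [Finset.mem_range] at hd
  rw [map_mul, aK_eq R d hd, map_sum, Finset.mul_sum]
  refine Finset.sum_congr rfl fun j _ => ?_
  rw [map_div₀, map_pow]
  simp only [RingHom.coe_pow, sh_iterate, taylor_C, zpole_taylor]
  rw [C_mul, map_mul, mul_div_assoc]

private theorem zpole_tel (g F : RatFunc ℚ) (h : sh g - g = F) (N : ℕ) :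
    sh^[N] g - g = ∑ m ∈ Finset.range N, sh^[m] F := by
  induction N with
  | zero => simp
  | succ N ih =>
    rw [Finset.sum_range_succ, ← ih, ← h]
    have h1 : sh^[N] (sh g - g) = sh^[N + 1] g - sh^[N] g := by
      rw [← RingHom.coe_pow, map_sub, RingHom.coe_pow, Function.iterate_succ_apply]
    rw [h1]
    ring

private theorem zpole_eval (q : ℕ) (hq : 1 ≤ q) (M m d j : ℕ) (hj : j ≤ d)
    (h : (C ((d : ℚ) + 1) * (X + C (m : ℚ)) + C ((j : ℚ) + 1)).eval (-1 / (q : ℚ) - M) = 0) :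
    m = M ∧ (j + 1) * q = d + 1 := by
  simp only [eval_add, eval_mul, eval_C, eval_X] at h
  have hq0 : (0 : ℚ) < q := by exact_mod_cast hq
  have h1 : ((d : ℚ) + 1) * ((m : ℚ) - M) * q + (((j : ℚ) + 1) * q - ((d : ℚ) + 1)) = 0 := by
    have h2 : ((d : ℚ) + 1) * (-1 / (q : ℚ) - M + m) * q + ((j : ℚ) + 1) * q = 0 := by
      have : ((d : ℚ) + 1) * (-1 / (q : ℚ) - M + m) * q + ((j : ℚ) + 1) * q =
        (((d : ℚ) + 1) * (-1 / (q : ℚ) - M + m) + ((j : ℚ) + 1)) * q := by ring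
      rw [this, h, zero_mul]
    have h3 : (-1 / (q : ℚ)) * q = -1 := by field_simp
    linear_combination h2 - ((d : ℚ) + 1) * h3
  have h2 : ((d : ℤ) + 1) * ((m : ℤ) - M) * q + (((j : ℤ) + 1) * q - ((d : ℤ) + 1)) = 0 := by
    exact_mod_cast h1
  have hq1 : (1 : ℤ) ≤ q := by exact_mod_cast hq
  have hj1 : (j : ℤ) ≤ d := by exact_mod_cast hj
  have hm : m = M := by
    rcases lt_trichotomy m M with h3 | h3 | h3
    · exfalso
      have h4 : (m : ℤ) - M ≤ -1 := by omega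
      have h5 : ((d : ℤ) + 1) * ((m : ℤ) - M) * q ≤ ((d : ℤ) + 1) * (-1) * q := by gcongr
      nlinarith
    · exact h3
    · exfalso
      have h4 : (1 : ℤ) ≤ (m : ℤ) - M := by omega
      have h5 : ((d : ℤ) + 1) * 1 * q ≤ ((d : ℤ) + 1) * ((m : ℤ) - M) * q := by gcongr
      nlinarith
  subst hm
  refine ⟨rfl, ?_⟩
  have h6 : ((j : ℤ) + 1) * q = (d : ℤ) + 1 := by linarith
  exact_mod_cast h6

theorem pole (R : ℕ) (c : ℕ → ℚ) (g : RatFunc ℚ)
    (h : sh g - g = ∑ d ∈ Finset.range R, algebraMap ℚ[X] (RatFunc ℚ) (C (c d)) * aK R d)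
    (q : ℕ) (hq : 1 ≤ q) (hqR : q ≤ R) :
    ∑ d ∈ Finset.Icc 1 R, (if q ∣ d then c (d - 1) / d else 0) = 0 := by
  have hq0 : (0 : ℚ) < q := by exact_mod_cast hq
  obtain ⟨M0, hM⟩ := Reg.eventually (-1 / (q : ℚ)) g
  obtain ⟨M, hMM⟩ : ∃ M, M = M0 + 1 := ⟨_, rfl⟩
  obtain ⟨hM1, hM2⟩ := hM M (by omega)
  obtain ⟨x0, hx0⟩ : ∃ x0 : ℚ, x0 = -1 / (q : ℚ) - M := ⟨_, rfl⟩
  have hleft : Reg x0 (sh^[2 * M] g - g) := by
    rw [sub_eq_add_neg]
    refine Reg.add (Reg.iterate _ ?_) (Reg.neg (hx0 ▸ hM2))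
    have h1 : x0 + ((2 * M : ℕ) : ℚ) = -1 / (q : ℚ) + M := by
      rw [hx0]; push_cast; ring
    rw [h1]
    exact hM1
  rw [zpole_tel g _ h (2 * M)] at hleft
  -- the singular part
  set D : RatFunc ℚ := (algebraMap ℚ[X] (RatFunc ℚ) (X - C x0)) ^ 2 with hD
  set U : ℕ → ℕ → RatFunc ℚ := fun d j =>
    if (j + 1) * q = d + 1 then algebraMap ℚ[X] (RatFunc ℚ) (C (c d / ((d : ℚ) + 1))) / D else 0
    with hU
  have hterm : ∀ m d j : ℕ, j ≤ d → Reg x0
      (algebraMap ℚ[X] (RatFunc ℚ) (C (c d * ((d : ℚ) + 1))) /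
          (algebraMap ℚ[X] (RatFunc ℚ) (C ((d : ℚ) + 1) * (X + C (m : ℚ)) + C ((j : ℚ) + 1))) ^ 2
        - if m = M then U d j else 0) := by
    intro m d j hj
    by_cases h0 : (C ((d : ℚ) + 1) * (X + C (m : ℚ)) + C ((j : ℚ) + 1)).eval x0 = 0
    · rw [hx0] at h0
      obtain ⟨h1, h2⟩ := zpole_eval q hq M m d j hj h0
      have hd0 : ((d : ℚ) + 1) ≠ 0 := by positivity
      have h3 : C ((d : ℚ) + 1) * (X + C (m : ℚ)) + C ((j : ℚ) + 1) =
          C ((d : ℚ) + 1) * (X - C x0) := by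
        have h4 : ((d : ℚ) + 1) * m + ((j : ℚ) + 1) = -(((d : ℚ) + 1) * x0) := by
          have h5 : ((j : ℚ) + 1) * q = (d : ℚ) + 1 := by exact_mod_cast h2
          rw [hx0, h1, ← h5]
          field_simp
          ring
        rw [mul_add, mul_sub, ← C_mul, ← C_mul, add_assoc, ← C_add, h4, C_neg, sub_eq_add_neg]
      rw [if_pos h1, h3, hU]
      simp only
      rw [if_pos h2, hD]
      have h6 : algebraMap ℚ[X] (RatFunc ℚ) (C (c d * ((d : ℚ) + 1))) /
          (algebraMap ℚ[X] (RatFunc ℚ) (C ((d : ℚ) + 1) * (X - C x0))) ^ 2 =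
          algebraMap ℚ[X] (RatFunc ℚ) (C (c d / ((d : ℚ) + 1))) /
            (algebraMap ℚ[X] (RatFunc ℚ) (X - C x0)) ^ 2 := by
        have hC : algebraMap ℚ[X] (RatFunc ℚ) (C ((d : ℚ) + 1)) ≠ 0 := by
          intro h7
          have h8 := (map_eq_zero_iff _ (RatFunc.algebraMap_injective ℚ)).1 h7
          rw [C_eq_zero] at h8
          exact hd0 h8
        have hX : algebraMap ℚ[X] (RatFunc ℚ) (X - C x0) ≠ 0 := by
          intro h7
          exact X_sub_C_ne_zero x0 ((map_eq_zero_iff _ (RatFunc.algebraMap_injective ℚ)).1 h7)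
        have e1 : algebraMap ℚ[X] (RatFunc ℚ) (C (c d * ((d : ℚ) + 1))) =
            algebraMap ℚ[X] (RatFunc ℚ) (C (c d / ((d : ℚ) + 1))) *
              (algebraMap ℚ[X] (RatFunc ℚ) (C ((d : ℚ) + 1))) ^ 2 := by
          rw [← map_pow, ← map_mul, ← C_pow, ← C_mul]
          congr 2
          field_simp
        rw [e1, map_mul, mul_pow]
        field_simp
      rw [h6, sub_self]
      have := Reg.poly x0 0
      simpa using this
    · have h1 : (if m = M then U d j else 0) = 0 := by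
        by_cases hm : m = M
        · rw [if_pos hm, hU]
          simp only
          rw [if_neg]
          intro h2
          apply h0
          rw [hx0, hm]
          simp only [eval_add, eval_mul, eval_C, eval_X]
          have h5 : ((j : ℚ) + 1) * q = (d : ℚ) + 1 := by exact_mod_cast h2
          rw [← h5]
          field_simp
          ring
        · rw [if_neg hm]
      rw [h1, sub_zero]
      exact zpole_reg x0 _ _ h0
  have hUreg : Reg x0 (∑ m ∈ Finset.range (2 * M), (if m = M then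
      ∑ d ∈ Finset.range R, ∑ j ∈ Finset.range (d + 1), U d j else 0)) := by
    have h1 : ∑ m ∈ Finset.range (2 * M), (if m = M then
        ∑ d ∈ Finset.range R, ∑ j ∈ Finset.range (d + 1), U d j else 0) =
        (∑ m ∈ Finset.range (2 * M), sh^[m]
          (∑ d ∈ Finset.range R, algebraMap ℚ[X] (RatFunc ℚ) (C (c d)) * aK R d)) +
        -(∑ m ∈ Finset.range (2 * M), ∑ d ∈ Finset.range R, ∑ j ∈ Finset.range (d + 1),
          (algebraMap ℚ[X] (RatFunc ℚ) (C (c d * ((d : ℚ) + 1))) /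
          (algebraMap ℚ[X] (RatFunc ℚ) (C ((d : ℚ) + 1) * (X + C (m : ℚ)) + C ((j : ℚ) + 1))) ^ 2
            - if m = M then U d j else 0)) := by
      rw [← sub_eq_add_neg, ← Finset.sum_sub_distrib]
      refine Finset.sum_congr rfl fun m _ => ?_
      rw [zpole_term]
      simp only [Finset.sum_sub_distrib]
      rw [sub_sub_cancel]
      split_ifs
      · rfl
      · simp
    rw [h1]
    refine Reg.add hleft (Reg.neg ?_)
    refine Reg.sum _ _ fun m _ => Reg.sum _ _ fun d _ => Reg.sum _ _ fun j hj => ?_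
    rw [Finset.mem_range] at hj
    exact hterm m d j (by omega)
  rw [Finset.sum_ite_eq' (Finset.range (2 * M)) M, if_pos (Finset.mem_range.2 (by omega))] at hUreg
  -- the sum of the singular terms
  have hs : ∑ d ∈ Finset.range R, ∑ j ∈ Finset.range (d + 1), U d j =
      algebraMap ℚ[X] (RatFunc ℚ)
        (C (∑ d ∈ Finset.range R, if q ∣ d + 1 then c d / ((d : ℚ) + 1) else 0)) / D := by
    rw [map_sum, map_sum, Finset.sum_div]
    refine Finset.sum_congr rfl fun d _ => ?_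
    by_cases hd : q ∣ d + 1
    · rw [if_pos hd]
      obtain ⟨k, hk⟩ := hd
      have hk0 : 1 ≤ k := by
        rcases Nat.eq_zero_or_pos k with h0 | h0
        · rw [h0, mul_zero] at hk; omega
        · exact h0
      have hkd : k ≤ d + 1 := by rw [hk]; exact Nat.le_mul_of_pos_left k hq
      rw [Finset.sum_eq_single (k - 1)]
      · rw [hU]
        simp only
        rw [if_pos]
        rw [Nat.sub_add_cancel hk0, hk, mul_comm]
      · intro j _ hj
        rw [hU]
        simp only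
        rw [if_neg]
        intro h2
        apply hj
        rw [hk, mul_comm q k] at h2
        have := Nat.eq_of_mul_eq_mul_right hq h2
        omega
      · intro h2
        exact absurd (Finset.mem_range.2 (by omega)) h2
    · rw [if_neg hd, map_zero, map_zero, zero_div]
      refine Finset.sum_eq_zero fun j _ => ?_
      rw [hU]
      simp only
      rw [if_neg]
      intro h2
      exact hd ⟨j + 1, by rw [← h2, mul_comm]⟩
  rw [hs, hD] at hUreg
  have h0 := Reg.double_pole hUreg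
  refine Eq.trans ?_ h0
  refine Finset.sum_nbij' (fun d => d - 1) (fun d => d + 1) ?_ ?_ ?_ ?_ ?_
  · intro d hd
    rw [Finset.mem_Icc] at hd
    rw [Finset.mem_range]
    omega
  · intro d hd
    rw [Finset.mem_range] at hd
    rw [Finset.mem_Icc]
    omega
  · intro d hd
    rw [Finset.mem_Icc] at hd
    omega
  · intro d hd
    omega
  · intro d hd
    rw [Finset.mem_Icc] at hd
    rw [Nat.sub_add_cancel hd.1]
    have h1 : ((d - 1 : ℕ) : ℚ) + 1 = d := by
      have : ((d - 1 + 1 : ℕ) : ℚ) = d := by rw [Nat.sub_add_cancel hd.1]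
      rw [← this]; push_cast; ring
    rw [h1]

end BBZ
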