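import Pool.Agent.Lib.MP_a3a416_nt.BB.ZDefs

/-!
# MP_a3a416, zero estimate: rational functions and the shift

`sh g = g` implies `g` constant; `sh g + 1 = g` implies `g = c - x`.
Proof of the first: `g = p/q`, `q ≠ 0`.  `σ^n g = g` gives `p(x+n) q(x) = p(x) q(x+n)` for all `n`
(induction, `RatFunc` is a field and `sh_algebraMap`).  Choose a natural number `m` with `q(m) ≠ 0`;
evaluating at `m`: the polynomial `p·C(q(m)) - q·C(p(m))` vanishes at all `m+n`, so it is zero.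
Second: apply the first to `g + x`.
-/

namespace BBZ

open Polynomial

private theorem zshift_iter (p q : ℚ[X]) (hp : p ≠ 0) (h1 : taylor 1 p * q = p * taylor 1 q) (n : ℕ) :
    taylor (n : ℚ) p * q = p * taylor (n : ℚ) q := by
  induction n with
  | zero => simp
  | succ n ih =>
    have h2 := congrArg (taylor (1 : ℚ)) ih
    rw [taylor_mul, taylor_mul, taylor_taylor, taylor_taylor, add_comm (1 : ℚ) (n : ℚ)] at h2
    push_cast
    have hp1 : taylor (1 : ℚ) p ≠ 0 := fun h => hp (taylor_injective (1 : ℚ) (by rw [h, map_zero]))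
    refine mul_left_cancel₀ hp1 ?_
    calc taylor 1 p * (taylor ((n : ℚ) + 1) p * q) = taylor ((n : ℚ) + 1) p * (taylor 1 p * q) := by ring
      _ = taylor ((n : ℚ) + 1) p * (p * taylor 1 q) := by rw [h1]
      _ = p * (taylor ((n : ℚ) + 1) p * taylor 1 q) := by ring
      _ = p * (taylor 1 p * taylor ((n : ℚ) + 1) q) := by rw [h2]
      _ = taylor 1 p * (p * taylor ((n : ℚ) + 1) q) := by ring

private theorem zshift_exists (q : ℚ[X]) (hq : q ≠ 0) : ∃ m : ℕ, q.eval (m : ℚ) ≠ 0 := by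
  by_contra hcon
  push Not at hcon
  refine hq (Polynomial.eq_zero_of_infinite_isRoot q ?_)
  refine Set.Infinite.mono ?_ (Set.infinite_range_of_injective (Nat.cast_injective (R := ℚ)))
  rintro _ ⟨m, rfl⟩
  exact hcon m

theorem sh_const (g : RatFunc ℚ) (h : sh g = g) : ∃ c : ℚ, g = algebraMap ℚ[X] (RatFunc ℚ) (C c) := by
  have hinj : Function.Injective (algebraMap ℚ[X] (RatFunc ℚ)) := RatFunc.algebraMap_injective ℚ
  obtain ⟨p, q, hq, hg⟩ := IsFractionRing.div_surjective (A := ℚ[X]) g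
  have hq0 : q ≠ 0 := nonZeroDivisors.ne_zero hq
  have hq0' : algebraMap ℚ[X] (RatFunc ℚ) q ≠ 0 := by
    rw [Ne, map_eq_zero_iff _ hinj]
    exact hq0
  by_cases hp : p = 0
  · refine ⟨0, ?_⟩
    rw [← hg, hp]
    simp
  have hq1 : taylor (1 : ℚ) q ≠ 0 := fun h => hq0 (taylor_injective (1 : ℚ) (by rw [h, map_zero]))
  have hq1' : algebraMap ℚ[X] (RatFunc ℚ) (taylor 1 q) ≠ 0 := by
    rw [Ne, map_eq_zero_iff _ hinj]
    exact hq1
  have h1 : taylor 1 p * q = p * taylor 1 q := by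
    have h2 := h
    rw [← hg, map_div₀, sh_algebraMap, sh_algebraMap, div_eq_div_iff hq1' hq0', ← map_mul, ← map_mul] at h2
    exact hinj h2
  obtain ⟨m, hm⟩ := zshift_exists q hq0
  have h3 : p * C (q.eval (m : ℚ)) - q * C (p.eval (m : ℚ)) = 0 := by
    refine Polynomial.eq_zero_of_infinite_isRoot _ ?_
    refine Set.Infinite.mono ?_ (Set.infinite_range_of_injective
      (f := fun n : ℕ => ((n : ℚ) + (m : ℚ))) ?_)
    · rintro _ ⟨n, rfl⟩
      have h4 := congrArg (eval (m : ℚ)) (zshift_iter p q hp h1 n)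
      rw [eval_mul, eval_mul, taylor_eval, taylor_eval] at h4
      show eval ((n : ℚ) + (m : ℚ)) (p * C (q.eval (m : ℚ)) - q * C (p.eval (m : ℚ))) = 0
      rw [eval_sub, eval_mul, eval_mul, eval_C, eval_C]
      have h5 : eval ((m : ℚ) + (n : ℚ)) p * eval (m : ℚ) q = eval (m : ℚ) p * eval ((m : ℚ) + (n : ℚ)) q := h4
      rw [add_comm (n : ℚ) (m : ℚ)]
      linarith
    · intro a b hab
      have : (a : ℚ) = b := by simpa using hab
      exact_mod_cast this
  refine ⟨p.eval (m : ℚ) / q.eval (m : ℚ), ?_⟩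
  rw [← hg, div_eq_iff hq0', ← map_mul]
  congr 1
  have h6 : p * C (q.eval (m : ℚ)) = q * C (p.eval (m : ℚ)) := sub_eq_zero.1 h3
  have h7 : (C (q.eval (m : ℚ)) : ℚ[X]) ≠ 0 := by
    rw [Ne, C_eq_zero]
    exact hm
  refine mul_right_cancel₀ h7 ?_
  rw [h6, mul_right_comm, ← C_mul, div_mul_cancel₀ _ hm, mul_comm]

theorem sh_add_one (g : RatFunc ℚ) (h : sh g + 1 = g) :
    ∃ c : ℚ, g = algebraMap ℚ[X] (RatFunc ℚ) (C c - X) := by
  obtain ⟨c, hc⟩ := sh_const (g + algebraMap ℚ[X] (RatFunc ℚ) X) (by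
    rw [map_add, sh_algebraMap, taylor_X, map_add, C_1, map_one]
    nth_rewrite 2 [← h]
    ring)
  refine ⟨c, ?_⟩
  rw [map_sub, ← hc]
  ring

end BBZ
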