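import Mathlib

/-!
# MP_a3a416, zero estimate: a triangular system

If `∑_{d ≤ R, q ∣ d} c_d/d = 0` for every `1 ≤ q ≤ R` then `c_d = 0` for all `1 ≤ d ≤ R`
(downward induction: for `q` with all larger `c` zero the sum is `c_q/q`).
-/

namespace BBZ

theorem tri (R : ℕ) (c : ℕ → ℚ)
    (h : ∀ q, 1 ≤ q → q ≤ R → ∑ d ∈ Finset.Icc 1 R, (if q ∣ d then c d / d else 0) = 0) :
    ∀ d, 1 ≤ d → d ≤ R → c d = 0 := by
  have key : ∀ k d, 1 ≤ d → d ≤ R → R - d = k → c d = 0 := by
    intro k
    induction k using Nat.strong_induction_on with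
    | _ k ih =>
      intro d h1 h2 h3
      have h4 := h d h1 h2
      rw [Finset.sum_eq_single d] at h4
      · rw [if_pos dvd_rfl] at h4
        have h5 : (d : ℚ) ≠ 0 := by
          have : d ≠ 0 := by omega
          exact_mod_cast this
        rcases div_eq_zero_iff.mp h4 with h6 | h6
        · exact h6
        · exact absurd h6 h5
      · intro e he hne
        rw [Finset.mem_Icc] at he
        by_cases hd : d ∣ e
        · have h5 : d ≤ e := Nat.le_of_dvd (by omega) hd
          have h6 : c e = 0 := ih (R - e) (by omega) e he.1 he.2 rfl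
          rw [if_pos hd, h6, zero_div]
        · rw [if_neg hd]
      · intro hn
        exact absurd (Finset.mem_Icc.mpr ⟨h1, h2⟩) hn
  intro d h1 h2
  exact key (R - d) d h1 h2 rfl

end BBZ
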