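import Pool.Agent.Lib.MP_a3a416_nt.BB.ZShift
import Pool.Agent.Lib.MP_a3a416_nt.BB.ZPole
import Pool.Agent.Lib.MP_a3a416_nt.BB.ZTri

/-!
# MP_a3a416, zero estimate: `Φ`-stable subspaces

A `Φ`-stable subspace `W ≠ 0` of `ℚ(x)^{R+2}` contains `e₀` or `e₁ + (c - x) e₀` for some `c ∈ ℚ`.

Case 2 (every non-zero `w ∈ W` has a non-zero coordinate `w (inr d)`) is impossible: take `0 ≠ w ∈ W`
with the least number of non-zero coordinates `w (inr d)`, scaled so that one of them is `1`.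
`Φ w - w ∈ W` has strictly fewer non-zero `inr`-coordinates (`sh 1 = 1`, `sh 0 = 0`), so all its
`inr`-coordinates are zero [otherwise contradiction to minimality], hence `Φ w - w = 0` by the
assumption of case 2; `sh (w (inr d)) = w (inr d)`, so they are constants `c_d` (`sh_const`), not all
zero, and the coordinate `inl 1` gives `sh (w₁) + ∑ c_d a_d = w₁`.  With `g = -w₁` `pole` and `tri`
give `c = 0`: contradiction.
Case 1: some `0 ≠ w ∈ W` with `w (inr d) = 0` for all `d`.  If `w₁ = 0`, scale: `e₀ ∈ W`.  Otherwise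
scale to `w₁ = 1`, `w₀ = g`: `Φ w - w = (sh g + 1 - g) e₀`; if `sh g + 1 ≠ g` then `e₀ ∈ W`; if
`sh g + 1 = g` then `g = c - x` (`sh_add_one`).
-/

namespace BBZ

open Polynomial

/-- the vector `(p, q, 0)` -/
private noncomputable def zst_vec (R : ℕ) (p q : ℚ[X]) : Ix R → ℚ[X] :=
  Sum.elim (fun i => if i = 0 then p else q) (fun _ => 0)

private theorem zst_toK (R : ℕ) (p q : ℚ[X]) (w : Ix R → RatFunc ℚ)
    (h0 : w (Sum.inl 0) = algebraMap ℚ[X] (RatFunc ℚ) p)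
    (h1 : w (Sum.inl 1) = algebraMap ℚ[X] (RatFunc ℚ) q) (hr : ∀ d, w (Sum.inr d) = 0) :
    toK (zst_vec R p q) = w := by
  funext i
  unfold toK zst_vec
  rcases i with i | d
  · have hi : i = 0 ∨ i = 1 := by omega
    rcases hi with rfl | rfl
    · simp [h0]
    · simp [h1]
  · simp [hr]

private theorem zst_phi_inr (R : ℕ) (w : Ix R → RatFunc ℚ) (d : Fin R) :
    Phi R w (Sum.inr d) = sh (w (Sum.inr d)) := rfl

private theorem zst_phi_1 (R : ℕ) (w : Ix R → RatFunc ℚ) :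
    Phi R w (Sum.inl 1) = sh (w (Sum.inl 1)) + ∑ d : Fin R, sh (w (Sum.inr d)) * aK R d := by
  simp [Phi]

private theorem zst_phi_0 (R : ℕ) (w : Ix R → RatFunc ℚ) :
    Phi R w (Sum.inl 0) = sh (w (Sum.inl 0)) + sh (w (Sum.inl 1))
      + ∑ d : Fin R, sh (w (Sum.inr d)) * gK R d := by
  simp [Phi]

private theorem zst_e0 (R : ℕ) (W : Submodule (RatFunc ℚ) (Ix R → RatFunc ℚ))
    (w : Ix R → RatFunc ℚ) (hw : w ∈ W) (h0 : w (Sum.inl 0) ≠ 0) (h1 : w (Sum.inl 1) = 0)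
    (hr : ∀ d, w (Sum.inr d) = 0) :
    ∃ w : Ix R → ℚ[X], toK w ∈ W ∧ (∀ d, w (Sum.inr d) = 0) ∧
      ((w (Sum.inl 0) = 1 ∧ w (Sum.inl 1) = 0) ∨
        ∃ c : ℚ, w (Sum.inl 0) = C c - X ∧ w (Sum.inl 1) = 1) := by
  refine ⟨zst_vec R 1 0, ?_, fun d => rfl, Or.inl ⟨?_, ?_⟩⟩
  · rw [zst_toK R 1 0 ((w (Sum.inl 0))⁻¹ • w)]
    · exact W.smul_mem _ hw
    · rw [Pi.smul_apply, smul_eq_mul, inv_mul_cancel₀ h0, map_one]
    · rw [Pi.smul_apply, smul_eq_mul, h1, mul_zero, map_zero]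
    · intro d
      rw [Pi.smul_apply, smul_eq_mul, hr, mul_zero]
  · simp [zst_vec]
  · simp [zst_vec]

/-- case 2 is impossible -/
private theorem zst_case2 (R : ℕ) (W : Submodule (RatFunc ℚ) (Ix R → RatFunc ℚ)) (hW : W ≠ ⊥)
    (hst : ∀ w ∈ W, Phi R w ∈ W) (h2 : ∀ w ∈ W, w ≠ 0 → ∃ d : Fin R, w (Sum.inr d) ≠ 0) : False := by
  classical
  have hne : ∃ k : ℕ, ∃ w ∈ W, w ≠ 0 ∧
      (Finset.univ.filter (fun d : Fin R => w (Sum.inr d) ≠ 0)).card = k := by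
    obtain ⟨w, hw, hw0⟩ := (Submodule.ne_bot_iff W).1 hW
    exact ⟨_, w, hw, hw0, rfl⟩
  obtain ⟨w, hw, hw0, hk⟩ := Nat.find_spec hne
  have hmin : ∀ u ∈ W, u ≠ 0 → (Finset.univ.filter (fun d : Fin R => w (Sum.inr d) ≠ 0)).card ≤
      (Finset.univ.filter (fun d : Fin R => u (Sum.inr d) ≠ 0)).card := by
    intro u hu hu0
    rw [hk]
    exact Nat.find_min' hne ⟨u, hu, hu0, rfl⟩
  obtain ⟨d0, hd0⟩ := h2 w hw hw0
  obtain ⟨v, hv⟩ : ∃ v, v = (w (Sum.inr d0))⁻¹ • w := ⟨_, rfl⟩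
  have hvW : v ∈ W := by rw [hv]; exact W.smul_mem _ hw
  have hv1 : v (Sum.inr d0) = 1 := by
    rw [hv, Pi.smul_apply, smul_eq_mul, inv_mul_cancel₀ hd0]
  have hvz : ∀ d, w (Sum.inr d) = 0 → v (Sum.inr d) = 0 := by
    intro d hd
    rw [hv, Pi.smul_apply, smul_eq_mul, hd, mul_zero]
  have huW : Phi R v - v ∈ W := W.sub_mem (hst v hvW) hvW
  have hu0 : Phi R v - v = 0 := by
    by_contra hne0
    have h3 := hmin _ huW hne0
    have h4 : (Finset.univ.filter (fun d : Fin R => (Phi R v - v) (Sum.inr d) ≠ 0)).card <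
        (Finset.univ.filter (fun d : Fin R => w (Sum.inr d) ≠ 0)).card := by
      refine Finset.card_lt_card (Finset.ssubset_iff_subset_ne.2 ⟨fun d hd => ?_, fun he => ?_⟩)
      · rw [Finset.mem_filter] at hd ⊢
        refine ⟨Finset.mem_univ _, fun h5 => hd.2 ?_⟩
        rw [Pi.sub_apply, zst_phi_inr, hvz d h5, map_zero, sub_zero]
      · have h5 : d0 ∈ Finset.univ.filter (fun d : Fin R => w (Sum.inr d) ≠ 0) :=
          Finset.mem_filter.2 ⟨Finset.mem_univ _, hd0⟩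
        rw [← he, Finset.mem_filter] at h5
        apply h5.2
        rw [Pi.sub_apply, zst_phi_inr, hv1, map_one, sub_self]
    omega
  have hconst : ∀ d : Fin R, ∃ c : ℚ, v (Sum.inr d) = algebraMap ℚ[X] (RatFunc ℚ) (C c) := by
    intro d
    apply sh_const
    have h3 := congrFun hu0 (Sum.inr d)
    rw [Pi.sub_apply, zst_phi_inr, Pi.zero_apply] at h3
    exact sub_eq_zero.1 h3
  choose c hc using hconst
  obtain ⟨c', hc'⟩ : ∃ c' : ℕ → ℚ, ∀ d : Fin R, c' d = c d :=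
    ⟨fun d => if h : d < R then c ⟨d, h⟩ else 0, fun d => by simp⟩
  have hg : sh (-v (Sum.inl 1)) - (-v (Sum.inl 1)) =
      ∑ d ∈ Finset.range R, algebraMap ℚ[X] (RatFunc ℚ) (C (c' d)) * aK R d := by
    have h3 := congrFun hu0 (Sum.inl 1)
    rw [Pi.sub_apply, zst_phi_1, Pi.zero_apply] at h3
    have h4 : ∑ d : Fin R, sh (v (Sum.inr d)) * aK R d =
        ∑ d ∈ Finset.range R, algebraMap ℚ[X] (RatFunc ℚ) (C (c' d)) * aK R d := by
      rw [Finset.sum_range]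
      refine Finset.sum_congr rfl fun d _ => ?_
      rw [hc d, sh_algebraMap, taylor_C, hc']
    rw [h4] at h3
    rw [map_neg]
    linear_combination -h3
  have hp := fun q hq hqR => pole R c' (-v (Sum.inl 1)) hg q hq hqR
  have ht := tri R (fun d => c' (d - 1)) hp (d0.val + 1) (by omega) (by have := d0.isLt; omega)
  simp only [Nat.add_sub_cancel] at ht
  rw [hc' d0] at ht
  have h5 := hc d0
  rw [hv1, ht, map_zero, map_zero] at h5
  exact one_ne_zero h5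

theorem stable (R : ℕ) (W : Submodule (RatFunc ℚ) (Ix R → RatFunc ℚ)) (hW : W ≠ ⊥)
    (hst : ∀ w ∈ W, Phi R w ∈ W) :
    ∃ w : Ix R → ℚ[X], toK w ∈ W ∧ (∀ d, w (Sum.inr d) = 0) ∧
      ((w (Sum.inl 0) = 1 ∧ w (Sum.inl 1) = 0) ∨
        ∃ c : ℚ, w (Sum.inl 0) = C c - X ∧ w (Sum.inl 1) = 1) := by
  by_cases h2 : ∀ w ∈ W, w ≠ 0 → ∃ d : Fin R, w (Sum.inr d) ≠ 0
  · exact (zst_case2 R W hW hst h2).elim
  push Not at h2
  obtain ⟨w, hw, hw0, hr⟩ := h2
  by_cases h1 : w (Sum.inl 1) = 0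
  · refine zst_e0 R W w hw ?_ h1 hr
    intro h0
    apply hw0
    funext i
    rcases i with i | d
    · have hi : i = 0 ∨ i = 1 := by omega
      rcases hi with rfl | rfl
      · exact h0
      · exact h1
    · exact hr d
  · obtain ⟨v, hv⟩ : ∃ v, v = (w (Sum.inl 1))⁻¹ • w := ⟨_, rfl⟩
    have hvW : v ∈ W := by rw [hv]; exact W.smul_mem _ hw
    have hv1 : v (Sum.inl 1) = 1 := by
      rw [hv, Pi.smul_apply, smul_eq_mul, inv_mul_cancel₀ h1]
    have hvr : ∀ d, v (Sum.inr d) = 0 := by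
      intro d
      rw [hv, Pi.smul_apply, smul_eq_mul, hr, mul_zero]
    have huW : Phi R v - v ∈ W := W.sub_mem (hst v hvW) hvW
    have hu1 : (Phi R v - v) (Sum.inl 1) = 0 := by
      rw [Pi.sub_apply, zst_phi_1, hv1, map_one]
      simp [hvr]
    have hur : ∀ d, (Phi R v - v) (Sum.inr d) = 0 := by
      intro d
      rw [Pi.sub_apply, zst_phi_inr, hvr, map_zero, sub_zero]
    have hu0 : (Phi R v - v) (Sum.inl 0) = sh (v (Sum.inl 0)) + 1 - v (Sum.inl 0) := by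
      rw [Pi.sub_apply, zst_phi_0, hv1, map_one]
      simp [hvr]
    by_cases h0 : (Phi R v - v) (Sum.inl 0) = 0
    · rw [hu0] at h0
      obtain ⟨c, hc⟩ := sh_add_one (v (Sum.inl 0)) (sub_eq_zero.1 h0)
      refine ⟨zst_vec R (C c - X) 1, ?_, fun d => rfl, Or.inr ⟨c, ?_, ?_⟩⟩
      · rw [zst_toK R (C c - X) 1 v hc (by rw [hv1, map_one]) hvr]
        exact hvW
      · simp [zst_vec]
      · simp [zst_vec]
    · exact zst_e0 R W _ huW h0 hu1 hur

end BBZ
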